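import Mathlib

/-!
A small language of string generators: arithmetic expressions and bounded loops over a list of
natural numbers given in unary.  Every generator is computable in polynomial time (module `Gen`).
-/

namespace Pool.Agent.H68.OQP

/-- unary code of a list of naturals: every entry `x` is written as `1^x 0` -/
def unary (l : List ℕ) : List Bool :=
  l.flatMap (fun x => List.replicate x true ++ [false])

/-- arithmetic expressions over an input list and an environment of loop indices -/
inductive Ex : Type
  | con (c : ℕ) : Ex
  | var (i : ℕ) : Ex
  | inp (e : Ex) : Ex
  | add (a b : Ex) : Ex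
  | mul (a b : Ex) : Ex

/-- value of an expression; `inp e` is the input entry with index `e` (`0` if there is none),
`var i` the `i`-th entry of the environment (innermost loop index first) -/
def Ex.val (l : List ℕ) (env : List ℕ) : Ex → ℕ
  | .con c => c
  | .var i => env.getD i 0
  | .inp e => l.getD (e.val l env) 0
  | .add a b => a.val l env + b.val l env
  | .mul a b => a.val l env * b.val l env

/-- generators of bit strings -/
inductive Gn : Type
  | nil : Gn
  | bit (b : Bool) : Gn
  | un (e : Ex) : Gn
  | seq (g h : Gn) : Gn
  | ifle (a b : Ex) (g h : Gn) : Gn
  | loop (e : Ex) (g : Gn) : Gn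

/-- the string generated -/
def Gn.out (l : List ℕ) : List ℕ → Gn → List Bool
  | _, .nil => []
  | _, .bit b => [b]
  | env, .un e => List.replicate (e.val l env) true
  | env, .seq g h => g.out l env ++ h.out l env
  | env, .ifle a b g h => if a.val l env ≤ b.val l env then g.out l env else h.out l env
  | env, .loop e g => (List.range (e.val l env)).flatMap (fun i => g.out l (i :: env))

/-- the target statement of the module `Gen` -/
def GenPolyTime : Prop :=
  ∀ g : Gn, Nonempty (Turing.TM2ComputableInPolyTime unary (fun w : List Bool => w)
    (fun l : List ℕ => g.out l []))

end Pool.Agent.H68.OQP
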