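import Pool.Agent.H68.OQP.Page

/-!
The intended drawing of the whole graph has no large twist.
-/

namespace Pool.Agent.H68.OQP

namespace Par

variable {P : Par} {σ : ℕ → ℕ} {S : ℕ}

theorem maj_le {v : Loc} (h : P.lok v) : P.maj v ≤ 2 * P.N + 1 := by
  have hCh := P.Ch_eq
  have hEN := P.E_le_N
  cases v with
  | t i =>
    change i ≤ P.N at h
    rw [maj_t]
    omega
  | x c l =>
    have := P.C_le (show l ≤ P.h from h.2)
    simp only [maj]
    split_ifs <;> omega
  | y i =>
    have h1 := P.jl_lt (show i < P.M from h)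
    have := P.C_le (show P.jl i + 1 ≤ P.h by omega)
    simp only [maj]
    omega
  | z i =>
    have h1 := P.jl_lt (show i < P.M from h)
    have := P.C_le (show P.jl i + 1 ≤ P.h by omega)
    simp only [maj]
    omega

theorem rk_inj (hS : ∀ e < P.n, σ e + 1 ≤ S) (hσ : ∀ a < P.n, ∀ b < P.n, σ a = σ b → a = b)
    {c c' : ℕ} (hc : c ≤ P.n + 1) (hc' : c' ≤ P.n + 1) (h : P.rk σ S c = P.rk σ S c') :
    c = c' := by
  unfold rk at h
  split_ifs at h with h1 h2 h3 h4 h5 h6 <;> try omega
  · have := hσ (c - 1) (by omega) (c' - 1) (by omega) (by omega)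
    omega
  · have := hS (c - 1) (by omega)
    omega
  · have := hS (c' - 1) (by omega)
    omega

theorem pos_inj (hS : ∀ e < P.n, σ e + 1 ≤ S) (hσ : ∀ a < P.n, ∀ b < P.n, σ a = σ b → a = b)
    {u v : Loc} (hu : P.lok u) (hv : P.lok v) (h : P.pos σ S u = P.pos σ S v) : u = v := by
  have hCp := fun l => P.C_pos l
  have h1 : ¬ P.pos σ S u < P.pos σ S v := by omega
  have h2 : ¬ P.pos σ S v < P.pos σ S u := by omega
  rw [pos_lt hS] at h1 h2
  have h3 : P.maj u = P.maj v := by omega
  have h4 : P.mi σ S u = P.mi σ S v := by omega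
  clear h h1 h2
  have hym := fun i => ym_le (P := P) (σ := σ) i
  cases u with
  | t i =>
    cases v with
    | t j =>
      rw [maj_t, maj_t] at h3
      rw [show i = j by omega]
    | x c l =>
      rw [maj_t] at h3
      simp only [maj] at h3
      split_ifs at h3 <;> omega
    | y j => rw [maj_t] at h3; simp only [maj] at h3; omega
    | z j => rw [maj_t] at h3; simp only [maj] at h3; omega
  | x c l =>
    have hl := hCp l
    cases v with
    | t j =>
      rw [maj_t] at h3
      simp only [maj] at h3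
      split_ifs at h3 <;> omega
    | x c' l' =>
      have hl' := hCp l'
      simp only [maj, mi] at h3 h4
      have hr := rk_le hS c
      have hr' := rk_le hS c'
      by_cases hc : c ≤ P.n + 1 <;> by_cases hc' : c' ≤ P.n + 1
      · rw [if_pos hc, if_pos hc'] at h3 h4
        have := C_inj (show P.C l = P.C l' by omega)
        subst this
        have hrr : P.rk σ S c = P.rk σ S c' := by
          split_ifs at h4 <;> omega
        rw [rk_inj hS hσ hc hc' hrr]
      · rw [if_pos hc, if_neg hc'] at h3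
        exact absurd (C_ne (show P.C l' = P.C l + 1 by omega)) (by simp)
      · rw [if_neg hc, if_pos hc'] at h3
        exact absurd (C_ne (show P.C l = P.C l' + 1 by omega)) (by simp)
      · rw [if_neg hc, if_neg hc'] at h3
        have := C_inj (show P.C l = P.C l' by omega)
        have h5 := hu.1
        have h6 := hv.1
        rw [this, show c = c' by omega]
    | y j =>
      have hl' := hCp (P.jl j + 1)
      have := hym j
      simp only [maj, mi] at h3 h4
      by_cases hc : c ≤ P.n + 1
      · rw [if_pos hc] at h3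
        exact absurd (C_ne (show P.C (P.jl j + 1) = P.C l + 1 by omega)) (by simp)
      · rw [if_neg hc] at h4
        omega
    | z j =>
      have hl' := hCp (P.jl j + 1)
      simp only [maj, mi] at h3 h4
      by_cases hc : c ≤ P.n + 1
      · rw [if_pos hc] at h3
        exact absurd (C_ne (show P.C (P.jl j + 1) = P.C l + 1 by omega)) (by simp)
      · rw [if_neg hc] at h4
        omega
  | y i =>
    have hl := hCp (P.jl i + 1)
    have hyi := hym i
    cases v with
    | t j => rw [maj_t] at h3; simp only [maj] at h3; omega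
    | x c l =>
      have hl' := hCp l
      simp only [maj, mi] at h3 h4
      by_cases hc : c ≤ P.n + 1
      · rw [if_pos hc] at h3
        exact absurd (C_ne (show P.C (P.jl i + 1) = P.C l + 1 by omega)) (by simp)
      · rw [if_neg hc] at h4
        omega
    | y j =>
      have hl' := hCp (P.jl j + 1)
      simp only [maj] at h3
      have := C_inj (show P.C (P.jl i + 1) = P.C (P.jl j + 1) by omega)
      rw [jl_inj (show P.jl i = P.jl j by omega)]
    | z j =>
      have hl' := hCp (P.jl j + 1)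
      simp only [maj, mi] at h3 h4
      have := C_inj (show P.C (P.jl i + 1) = P.C (P.jl j + 1) by omega)
      have := jl_inj (show P.jl i = P.jl j by omega)
      subst this
      omega
  | z i =>
    have hl := hCp (P.jl i + 1)
    have hyi := hym i
    cases v with
    | t j => rw [maj_t] at h3; simp only [maj] at h3; omega
    | x c l =>
      have hl' := hCp l
      simp only [maj, mi] at h3 h4
      by_cases hc : c ≤ P.n + 1
      · rw [if_pos hc] at h3
        exact absurd (C_ne (show P.C (P.jl i + 1) = P.C l + 1 by omega)) (by simp)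
      · rw [if_neg hc] at h4
        omega
    | y j =>
      have hl' := hCp (P.jl j + 1)
      simp only [maj, mi] at h3 h4
      have := C_inj (show P.C (P.jl i + 1) = P.C (P.jl j + 1) by omega)
      have := jl_inj (show P.jl i = P.jl j by omega)
      subst this
      omega
    | z j =>
      have hl' := hCp (P.jl j + 1)
      simp only [maj] at h3
      have := C_inj (show P.C (P.jl i + 1) = P.C (P.jl j + 1) by omega)
      rw [jl_inj (show P.jl i = P.jl j by omega)]

/-- size of a copy -/
def Z (P : Par) (S : ℕ) : ℕ := (2 * P.N + 2) * (S + 3)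

theorem pos_lt_Z (hS : ∀ e < P.n, σ e + 1 ≤ S) {v : Loc} (h : P.lok v) :
    P.pos σ S v < P.Z S := by
  have h1 := maj_le h
  have h2 := mi_lt hS v
  unfold pos Z
  have : (P.maj v + 1) * (S + 3) ≤ (2 * P.N + 2) * (S + 3) := Nat.mul_le_mul_right _ (by omega)
  rw [Nat.add_mul, Nat.one_mul] at this
  omega

/-- global positions -/
noncomputable def gpos (P : Par) (σ : ℕ → ℕ) (S : ℕ) : Vt → ℕ
  | .b i => i
  | .c r v => P.K + r * P.Z S + P.pos σ S v

theorem gpos_lt (hS : ∀ e < P.n, σ e + 1 ≤ S) {r r' : ℕ} {u v : Loc} (hu : P.lok u)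
    (hv : P.lok v) : P.gpos σ S (.c r u) < P.gpos σ S (.c r' v) ↔
      (r < r' ∨ (r = r' ∧ P.pos σ S u < P.pos σ S v)) := by
  have h1 := pos_lt_Z hS hu
  have h2 := pos_lt_Z hS hv
  simp only [gpos]
  rcases lt_trichotomy r r' with h | h | h
  · have : (r + 1) * P.Z S ≤ r' * P.Z S := Nat.mul_le_mul_right _ h
    rw [Nat.add_mul, Nat.one_mul] at this
    constructor
    · intro _
      exact Or.inl h
    · intro _
      omega
  · rw [h]
    omega
  · have : (r' + 1) * P.Z S ≤ r * P.Z S := Nat.mul_le_mul_right _ h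
    rw [Nat.add_mul, Nat.one_mul] at this
    constructor
    · intro _
      omega
    · intro _
      omega

theorem gpos_inj (hS : ∀ e < P.n, σ e + 1 ≤ S) (hσ : ∀ a < P.n, ∀ b < P.n, σ a = σ b → a = b)
    {u v : Vt} (hu : P.ok u) (hv : P.ok v) (h : P.gpos σ S u = P.gpos σ S v) : u = v := by
  cases u with
  | b i =>
    cases v with
    | b j => rw [show i = j from h]
    | c r v =>
      change i < P.K at hu
      simp only [gpos] at h
      omega
  | c r u =>
    cases v with
    | b j =>
      change j < P.K at hv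
      simp only [gpos] at h
      omega
    | c r' v =>
      have h1 := (gpos_lt hS (r := r) (r' := r') hu.2 hv.2).not.1 (by omega)
      have h2 := (gpos_lt hS (r := r') (r' := r) hv.2 hu.2).not.1 (by omega)
      have h3 : r = r' := by omega
      subst h3
      rw [pos_inj hS hσ hu.2 hv.2 (by omega)]

theorem Kd.lt (hg : P.good) (hS : ∀ e < P.n, σ e + 1 ≤ S) {g : ℕ} {u v : Loc}
    (h : Kd P g u v) : P.pos σ S u < P.pos σ S v := by
  have hKw : P.K = P.w + 3 := rfl
  cases h with
  | slot a u v h =>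
    have := h.bounds hg
    rw [pos_lt hS]
    omega
  | left i j h1 h2 h3 h4 => rw [pos_tt hS]; exact h3
  | right i j h1 h2 h3 h4 => rw [pos_tt hS]; exact h3
  | path i h1 h2 h3 => rw [pos_tt hS]; omega

theorem vrel_lt (hg : P.good) (hS : ∀ e < P.n, σ e + 1 ≤ S) {u v : Vt} (h : P.Vrel u v) :
    P.gpos σ S u < P.gpos σ S v := by
  cases h with
  | tb i r j h1 h2 h3 =>
    simp only [gpos]
    omega
  | loc r u v h1 h2 =>
    obtain ⟨g, hg', hk⟩ := exists_kd h2
    have hok := P.lrel_ok h2 hg
    rw [gpos_lt hS hok.1 hok.2]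
    exact Or.inr ⟨rfl, hk.lt hg hS⟩

/-- an edge with its page -/
def HasPage (P : Par) (g : ℕ) (e : Vt × Vt) : Prop :=
  (∃ i r j, i < P.K ∧ j ≤ P.N ∧ e = (.b i, .c r (.t j)) ∧ g = j % P.K) ∨
  (∃ r u v, P.lok u ∧ P.lok v ∧ Kd P g u v ∧ e = (.c r u, .c r v))

theorem exists_page (hg : P.good) {e : Vt × Vt} (h : P.Vrel e.1 e.2) :
    ∃ g < P.K, HasPage P g e := by
  obtain ⟨u, v⟩ := e
  cases h with
  | tb i r j h1 h2 h3 => exact ⟨j % P.K, Nat.mod_lt _ P.Kpos, Or.inl ⟨i, r, j, h1, h3, rfl, rfl⟩⟩
  | loc r u v h1 h2 =>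
    obtain ⟨g, hg', hk⟩ := exists_kd h2
    have hok := P.lrel_ok h2 hg
    exact ⟨g, hg', Or.inr ⟨r, u, v, hok.1, hok.2, hk, rfl⟩⟩

/-- crossing of two oriented edges -/
theorem cross_cases {V : Type*} {f : V → ℕ} {e e' : V × V} (h1 : f e.1 < f e.2)
    (h2 : f e'.1 < f e'.2) (h : Cross f e e') :
    (f e.1 < f e'.1 ∧ f e'.1 < f e.2 ∧ f e.2 < f e'.2) ∨
      (f e'.1 < f e.1 ∧ f e.1 < f e'.2 ∧ f e'.2 < f e.2) := by
  unfold Cross at h
  omega

/-- an edge `b t` crossing a local edge has `t` strictly inside -/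
theorem inside_of_cross (hg : P.good) (hS : ∀ e < P.n, σ e + 1 ≤ S) {i r j r' g : ℕ}
    {u v : Loc} (hi : i < P.K) (hj : j ≤ P.N) (hu : P.lok u) (hv : P.lok v) (hk : Kd P g u v)
    (h : Cross (P.gpos σ S) (.b i, .c r (.t j)) (.c r' u, .c r' v)) :
    r = r' ∧ P.pos σ S u < P.pos σ S (.t j) ∧ P.pos σ S (.t j) < P.pos σ S v := by
  have hlt : P.gpos σ S (.c r' u) < P.gpos σ S (.c r' v) :=
    (gpos_lt hS hu hv).2 (Or.inr ⟨rfl, hk.lt hg hS⟩)
  have hb : ∀ r v, P.gpos σ S (.b i) < P.gpos σ S (.c r v) := by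
    intro r v
    simp only [gpos]
    omega
  have h' := cross_cases (hb _ _) hlt h
  simp only at h'
  have h1 : P.gpos σ S (.c r' u) < P.gpos σ S (.c r (.t j)) := by
    have := hb r' u
    omega
  have h2 : P.gpos σ S (.c r (.t j)) < P.gpos σ S (.c r' v) := by
    have := hb r' u
    omega
  have hjok : P.lok (.t j) := hj
  rw [gpos_lt hS hu hjok] at h1
  rw [gpos_lt hS hjok hv] at h2
  have : r = r' := by omega
  subst this
  exact ⟨rfl, by omega, by omega⟩

theorem noTw (hg : P.good) (hS : ∀ e < P.n, σ e + 1 ≤ S) (hr : P.resp σ) :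
    NoTw P.G (P.gpos σ S) P.K := by
  classical
  have hK := P.Kpos
  rintro ⟨e₀, he₀, hx₀⟩
  -- orientation
  obtain ⟨e, he, hx⟩ : ∃ e : Fin (P.K + 1) → Vt × Vt, (∀ i, P.Vrel (e i).1 (e i).2) ∧
      ∀ i j, i ≠ j → Cross (P.gpos σ S) (e i) (e j) := by
    refine ⟨fun i => if P.Vrel (e₀ i).1 (e₀ i).2 then e₀ i else ((e₀ i).2, (e₀ i).1), ?_, ?_⟩
    · intro i
      have := he₀ i
      rw [G, SimpleGraph.fromRel_adj] at this
      beta_reduce
      split_ifs with h
      · exact h
      · exact this.2.resolve_left h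
    · intro i j hij
      have := hx₀ i j hij
      unfold Cross at this ⊢
      beta_reduce
      split_ifs <;> (try dsimp only) <;> omega
  have hlt : ∀ i, P.gpos σ S (e i).1 < P.gpos σ S (e i).2 := fun i => vrel_lt hg hS (he i)
  -- pages
  choose g hgK hgP using fun i => exists_page hg (he i)
  -- a local edge
  obtain ⟨i₀, r₀, u₀, v₀, hu₀, hv₀, hk₀, he₀'⟩ : ∃ i₀ r₀ u₀ v₀, P.lok u₀ ∧ P.lok v₀ ∧
      Kd P (g i₀) u₀ v₀ ∧ e i₀ = (.c r₀ u₀, .c r₀ v₀) := by
    by_contra hno
    push Not at hno
    have hb : ∀ i, ∃ a < P.K, (e i).1 = .b a := by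
      intro i
      rcases hgP i with ⟨a, r, j, h1, h2, h3, h4⟩ | ⟨r, u, v, h1, h2, h3, h4⟩
      · exact ⟨a, h1, by rw [h3]⟩
      · exact absurd h4 (hno i r u v h1 h2 h3)
    choose β hβ hβ' using hb
    obtain ⟨i, j, hij, hb⟩ := Fintype.exists_ne_map_eq_of_card_lt
      (fun i : Fin (P.K + 1) => (⟨β i, hβ i⟩ : Fin P.K)) (by simp)
    have hb' : β i = β j := congrArg Fin.val hb
    have := cross_cases (hlt i) (hlt j) (hx i j hij)
    rw [hβ' i, hβ' j, hb'] at this
    omega
  -- two edges with the same page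
  obtain ⟨i, j, hij, hgij⟩ := Fintype.exists_ne_map_eq_of_card_lt
    (fun i : Fin (P.K + 1) => (⟨g i, hgK i⟩ : Fin P.K)) (by simp)
  have hgij' : g i = g j := congrArg Fin.val hgij
  have hxij := hx i j hij
  rcases hgP i with ⟨a, r, t, h1, h2, h3, h4⟩ | ⟨r, u, v, h1, h2, h3, h4⟩
  · rcases hgP j with ⟨a', r', t', h1', h2', h3', h4'⟩ | ⟨r', u', v', h1', h2', h3', h4'⟩
    · -- both edges touch B
      have hi0 : i ≠ i₀ := by
        rintro rfl
        rw [h3] at he₀'
        exact absurd (congrArg Prod.fst he₀') (by simp)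
      have hj0 : j ≠ i₀ := by
        rintro rfl
        rw [h3'] at he₀'
        exact absurd (congrArg Prod.fst he₀') (by simp)
      have c1 := hx i i₀ hi0
      have c2 := hx j i₀ hj0
      rw [h3, he₀'] at c1
      rw [h3', he₀'] at c2
      obtain ⟨k1, k2, k3⟩ := inside_of_cross hg hS h1 h2 hu₀ hv₀ hk₀ c1
      obtain ⟨k1', k2', k3'⟩ := inside_of_cross hg hS h1' h2' hu₀ hv₀ hk₀ c2
      have htt : t ≠ t' := by
        rintro rfl
        have := cross_cases (hlt i) (hlt j) hxij
        rw [h3, h3', k1, k1'] at this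
        simp only at this
        omega
      have hmod : t % P.K = t' % P.K := by omega
      -- a T-vertex of the page of the local edge strictly inside
      have key : ∀ s s' : ℕ, s < s' → s % P.K = s' % P.K →
          P.pos σ S u₀ < P.pos σ S (.t s) → P.pos σ S (.t s') < P.pos σ S v₀ → False := by
        intro s s' hss hm hs hs'
        have hfar := mod_far hss hm.symm
        have hg0 := hgK i₀
        -- the residue g i₀ occurs in [s, s + K)
        obtain ⟨q, hq1, hq2, hq3⟩ : ∃ q, s ≤ q ∧ q < s + P.K ∧ q % P.K = g i₀ := by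
          have hsm := Nat.mod_lt s hK
          have hds := Nat.div_add_mod s P.K
          rcases le_or_gt (s % P.K) (g i₀) with hle | hgt
          · refine ⟨P.K * (s / P.K) + g i₀, by omega, by omega, ?_⟩
            rw [Nat.mul_add_mod, Nat.mod_eq_of_lt hg0]
          · refine ⟨P.K * (s / P.K) + P.K + g i₀, by omega, by omega, ?_⟩
            rw [show P.K * (s / P.K) + P.K + g i₀ = P.K * (s / P.K + 1) + g i₀ by ring,
              Nat.mul_add_mod, Nat.mod_eq_of_lt hg0]
        refine hk₀.no_inside hg hS (j := q) ?_ ?_ hq3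
        · rcases Nat.eq_or_lt_of_le hq1 with h | h
          · rw [← h]
            exact hs
          · exact lt_trans hs ((pos_tt hS).2 h)
        · exact lt_trans ((pos_tt hS).2 (by omega)) hs'
      rcases lt_or_gt_of_ne htt with h | h
      · exact key t t' h hmod k2 k3'
      · exact key t' t h hmod.symm k2' k3
    · -- i touches B, j local
      rw [h3, h4'] at hxij
      obtain ⟨k1, k2, k3⟩ := inside_of_cross hg hS h1 h2 h1' h2' h3' hxij
      exact h3'.no_inside hg hS k2 k3 (by omega)
  · rcases hgP j with ⟨a', r', t', h1', h2', h3', h4'⟩ | ⟨r', u', v', h1', h2', h3', h4'⟩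
    · rw [h4, h3'] at hxij
      obtain ⟨k1, k2, k3⟩ := inside_of_cross hg hS h1' h2' h1 h2 h3 hxij.symm
      exact h3.no_inside hg hS k2 k3 (by omega)
    · -- both local
      have hc := cross_cases (hlt i) (hlt j) hxij
      rw [h4, h4'] at hc
      simp only at hc
      rcases hc with ⟨c1, c2, c3⟩ | ⟨c1, c2, c3⟩
      · rw [gpos_lt hS h1 h1'] at c1
        rw [gpos_lt hS h1' h2] at c2
        rw [gpos_lt hS h2 h2'] at c3
        exact h3.no_cross hg hS hr h3' hgij' (by omega) (by omega) (by omega)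
      · rw [gpos_lt hS h1' h1] at c1
        rw [gpos_lt hS h1 h2'] at c2
        rw [gpos_lt hS h2' h2] at c3
        exact h3'.no_cross hg hS hr h3 hgij'.symm (by omega) (by omega) (by omega)

/-- satisfiable constraints give a drawing without large twists -/
theorem easy (P : Par) (hg : P.good) (hs : P.Sat) : ∃ f : Vt → ℕ,
    (∀ u v, P.ok u → P.ok v → f u = f v → u = v) ∧ NoTw P.G f P.K := by
  obtain ⟨σ, hσ, hr⟩ := hs
  obtain ⟨S, hS⟩ : ∃ S, ∀ e < P.n, σ e + 1 ≤ S := by
    refine ⟨(Finset.range P.n).sup σ + 1, fun e he => ?_⟩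
    have := Finset.le_sup (f := σ) (Finset.mem_range.2 he)
    omega
  exact ⟨P.gpos σ S, fun u v hu hv h => gpos_inj hS hσ hu hv h, noTw hg hS hr⟩

end Par

end Pool.Agent.H68.OQP
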