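import Pool.Agent.H68.OQP.Pos

/-!
The constraint vertices, and the forcing theorem.
-/

namespace Pool.Agent.H68.OQP

namespace Par

variable {P : Par} {hg : P.good} (o : Ori P hg)

/-- alternating orders along the levels -/
theorem Ori.alt {c c' : ℕ} (hc : c ≤ P.n + 1) (hc' : c' ≤ P.n + 1) {l : ℕ} (h1 : P.st c ≤ l)
    (h1' : P.st c' ≤ l) (hlt : o.F.f (o.v (.x c l)) < o.F.f (o.v (.x c' l))) (s : ℕ)
    (hs : l + s ≤ P.h) :
    (s % 2 = 0 → o.F.f (o.v (.x c (l + s))) < o.F.f (o.v (.x c' (l + s)))) ∧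
    (s % 2 = 1 → o.F.f (o.v (.x c' (l + s))) < o.F.f (o.v (.x c (l + s)))) := by
  induction s with
  | zero => exact ⟨fun _ => hlt, fun h => by omega⟩
  | succ s ih =>
    obtain ⟨h2, h3⟩ := ih (by omega)
    constructor
    · intro h
      exact o.flip hc' hc (l := l + s) (by omega) (by omega) (by omega) (h3 (by omega))
    · intro h
      exact o.flip hc hc' (l := l + s) (by omega) (by omega) (by omega) (h2 (by omega))

theorem st_zero : P.st 0 = 0 := by
  unfold st
  rw [if_pos rfl]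

theorem st_mid {e : ℕ} (he : e < P.n) : P.st (e + 1) = 2 * P.K := by
  unfold st
  rw [if_neg (by omega), if_pos (by omega)]

theorem st_last : P.st (P.n + 1) = 4 * P.K := by
  unfold st
  rw [if_neg (by omega), if_neg (by omega), if_pos rfl]

/-- at odd levels at least `4 K` the second dummy chain is leftmost -/
theorem Ori.d2_left {e l : ℕ} (he : e < P.n) (hl : 4 * P.K ≤ l) (hl2 : l ≤ P.h)
    (hodd : l % 2 = 1) : o.F.f (o.v (.x (P.n + 1) l)) < o.F.f (o.v (.x (e + 1) l)) := by
  have h0 := o.later (c := P.n + 1) (c' := e + 1) le_rfl (by omega)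
    (by rw [st_last, st_mid he]; have := P.Kpos; omega)
  rw [st_last] at h0
  have := (o.alt (c := e + 1) (c' := P.n + 1) (by omega) le_rfl (l := 4 * P.K)
    (by rw [st_mid he]; omega) (by rw [st_last]) h0 (l - 4 * P.K) (by omega)).2 (by omega)
  rwa [show 4 * P.K + (l - 4 * P.K) = l by omega] at this

/-- at odd levels at least `2 K` the first dummy chain is to the right of the elements -/
theorem Ori.d1_right {e l : ℕ} (he : e < P.n) (hl : 2 * P.K ≤ l) (hl2 : l ≤ P.h)
    (hodd : l % 2 = 1) : o.F.f (o.v (.x (e + 1) l)) < o.F.f (o.v (.x 0 l)) := by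
  have h0 := o.later (c := e + 1) (c' := 0) (by omega) (by omega)
    (by rw [st_zero, st_mid he]; have := P.Kpos; omega)
  rw [st_mid he] at h0
  have := (o.alt (c := 0) (c' := e + 1) (by omega) (by omega) (l := 2 * P.K)
    (by rw [st_zero]; omega) (by rw [st_mid he]) h0 (l - 2 * P.K) (by omega)).2 (by omega)
  rwa [show 2 * P.K + (l - 2 * P.K) = l by omega] at this

/-- position of a constraint vertex -/
theorem Ori.ypos {i : ℕ} (hi : i < P.M) {e : ℕ} (he : e < P.n) {u : Loc} (hu : P.lok u)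
    (huT : ∀ j, u ≠ .t j) (hux : ∀ c l, u ≠ .x c l)
    (h1 : P.Lrel (.x (e + 1) (P.jl i)) u)
    (h2 : P.Lrel u (.t (P.C (P.jl i + 1) + (P.w + 1)))) :
    o.F.inA (o.v u) ∧ (o.F.idx (o.v u) : ℤ) = o.I + P.C (P.jl i + 1) - 1 := by
  have hK := P.Kpos
  have hKw : P.K = P.w + 3 := rfl
  have hKK : (P.dat hg).K = P.K := rfl
  have hj := P.jl_lt hi
  have hj4 := P.le_jl i
  have hodd := P.jl_odd i
  have hjh : P.jl i ≤ P.h := by omega
  have hst : P.st (e + 1) ≤ P.jl i := by rw [st_mid he]; omega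
  -- membership in the arc
  have hch := o.chain (c := e + 1) (by omega) (P.jl i - P.st (e + 1))
    (by rw [last_of (by omega)]; omega)
  rw [show P.st (e + 1) + (P.jl i - P.st (e + 1)) = P.jl i by omega] at hch
  have hA := o.F.nbr (o.adj h1) hch.1 hch.2.1 hch.2.2 c_notB
  refine ⟨hA, ?_⟩
  -- upper bound
  have hub := o.F.lip' (o.adj h1) hA x_notT
  have hpx := o.pos0 (c := e + 1) (l := P.jl i) (by omega) hst hjh
  -- lower bound
  have htN : P.C (P.jl i + 1) + (P.w + 1) ≤ P.N := (P.lrel_ok h2 hg).2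
  have hlb := o.F.lip' (o.adj h2) (o.hA _ htN) (c_notT huT)
  have hpt : (o.F.idx (o.v (.t (P.C (P.jl i + 1) + (P.w + 1)))) : ℤ) =
      o.I + (P.C (P.jl i + 1) + (P.w + 1) : ℕ) := by
    have h3 := P.ypin_eq i
    have h4 : P.h + 3 + 2 * (i + 3) * (P.w + 2) + 1 ≤ P.m := by
      have : (i + 3) * (P.w + 2) ≤ (P.M + 3) * (P.w + 2) := Nat.mul_le_mul_right _ (by omega)
      unfold m
      nlinarith
    have h5 := o.hI (P.h + 3 + 2 * (i + 3) * (P.w + 2)) (by omega) h4
    rw [← h3] at h5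
    change (o.F.idx (.c o.r (.t (P.C (P.jl i + 1) + (P.w + 1)))) : ℤ) = _
    rw [h5, h3]
    push_cast
    ring
  have hC := P.C_succ (P.jl i)
  have hC' := P.C_succ (P.jl i + 1)
  have hub' : (o.F.idx (o.v u) : ℤ) + 1 ≤ o.F.idx (o.v (.x (e + 1) (P.jl i))) + P.K := by
    exact_mod_cast hub
  have hlb' : (o.F.idx (o.v (.t (P.C (P.jl i + 1) + (P.w + 1)))) : ℤ) + 1 ≤
      o.F.idx (o.v u) + P.K := by exact_mod_cast hlb
  rw [hpx] at hub'
  rw [hpt] at hlb'
  have hKz : (P.K : ℤ) = P.w + 3 := by exact_mod_cast hKw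
  have hCz : (P.C (P.jl i + 1) : ℤ) = P.C (P.jl i) + (P.w + 2) := by exact_mod_cast hC
  have hCz' : (P.C (P.jl i + 1 + 1) : ℤ) = P.C (P.jl i + 1) + (P.w + 2) := by exact_mod_cast hC'
  push_cast at hlb'
  by_contra hcon
  have hidx : (o.F.idx (o.v u) : ℤ) = o.I + P.C (P.jl i + 1) := by omega
  -- the two cases
  have hd2j := o.d2_left he (l := P.jl i) (by omega) hjh hodd
  have pd2L := o.pos0 (c := P.n + 1) (l := P.jl i + 1) le_rfl (by rw [st_last]; omega)
    (by omega)
  have pd2L' := o.pos0 (c := P.n + 1) (l := P.jl i + 1 + 1) le_rfl (by rw [st_last]; omega)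
    (by omega)
  have hne : o.F.f (o.v u) ≠ o.F.f (o.v (.x (P.n + 1) (P.jl i + 1))) :=
    o.f_ne hu ⟨by omega, by omega⟩ (hux _ _)
  rcases lt_or_gt_of_ne hne with hlt | hgt
  · -- three pairwise crossing edges
    have ps := o.posS (l := P.jl i + 1) (by omega) (by omega)
    have ps' := o.posS (l := P.jl i + 1 + 1) (by omega) (by omega)
    refine o.F.no_cross3 (o.adj (.shop (P.jl i + 1) (by omega) (by omega))) (o.adj h2)
      (o.adj (.hop (P.n + 1) (P.jl i + 1) le_rfl (by rw [st_last]; omega) (by omega)))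
      (o.F.lt_of_idx ?_) hlt (o.F.lt_of_idx ?_) (o.F.lt_T (tt_mem o.hr htN) ?_ ?_ ?_)
      (o.F.lt_of_idx ?_) (o.inx (by omega) (by rw [st_last]; omega)
        (by rw [last_of le_rfl]; omega)) x_notT ?_
    · zify
      omega
    · zify
      omega
    · exact o.xok (by omega) (by omega)
    · intro h
      injection h with _ h
      exact absurd h (by simp)
    · zify
      push_cast at hpt
      omega
    · zify
      push_cast at hpt
      omega
    · omega
  · -- two crossing edges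
    refine o.F.no_cross2 (o.adj (.hop (P.n + 1) (P.jl i) le_rfl (by rw [st_last]; omega)
      (by omega))) (o.adj h1) hd2j (o.F.lt_of_idx ?_) hgt hA x_notT ?_
    · zify
      omega
    · omega

/-- two constraint edges of the same constraint do not cross -/
theorem Ori.nocross {i : ℕ} (hi : i < P.M) {e e' : ℕ} (he' : e' < P.n)
    {u u' : Loc}
    (h1 : P.Lrel (.x (e + 1) (P.jl i)) u) (h1' : P.Lrel (.x (e' + 1) (P.jl i)) u')
    (hu : (o.F.idx (o.v u) : ℤ) = o.I + P.C (P.jl i + 1) - 1)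
    (hu' : (o.F.idx (o.v u') : ℤ) = o.I + P.C (P.jl i + 1) - 1)
    (hlt : o.F.f (o.v (.x (e + 1) (P.jl i))) < o.F.f (o.v (.x (e' + 1) (P.jl i))))
    (hlt' : o.F.f (o.v u) < o.F.f (o.v u')) : False := by
  have hK := P.Kpos
  have hKw : P.K = P.w + 3 := rfl
  have hKK : (P.dat hg).K = P.K := rfl
  have hj := P.jl_lt hi
  have hj4 := P.le_jl i
  have hodd := P.jl_odd i
  have hd := o.d1_right he' (l := P.jl i) (by omega) (by omega) hodd
  have p0 := o.pos0 (c := 0) (l := P.jl i) (by omega) (by rw [st_zero]; omega) (by omega)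
  have p0' := o.pos0 (c := 0) (l := P.jl i + 1) (by omega) (by rw [st_zero]; omega) (by omega)
  have hC := P.C_succ (P.jl i)
  refine o.F.no_cross3 (o.adj h1) (o.adj h1') (o.adj (.hop 0 (P.jl i) (by omega)
    (by rw [st_zero]; omega) (by omega))) hlt hd (o.F.lt_of_idx ?_) hlt' (o.F.lt_of_idx ?_)
    (o.inx (by omega) (by rw [st_zero]; omega) (by rw [last_of (by omega)]; omega)) x_notT ?_
  · zify
    omega
  · zify
    omega
  · omega

/-- the forcing theorem -/
theorem hard (P : Par) (hg : P.good) (f : Vt → ℕ)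
    (hinj : ∀ u v, P.ok u → P.ok v → f u = f v → u = v)
    (hN : NoTw P.G f P.K) : P.Sat := by
  obtain ⟨o⟩ := exists_ori P hg f hinj hN
  refine ⟨fun e => o.F.f (o.v (.x (e + 1) (2 * P.K))), ?_, ?_⟩
  · intro a ha b hb h
    by_contra hne
    have hK := P.Kpos
    have hh := P.le_h
    refine o.f_ne (u := .x (a + 1) (2 * P.K)) (v := .x (b + 1) (2 * P.K))
      ⟨by omega, by omega⟩ ⟨by omega, by omega⟩ ?_ h
    intro h
    injection h with h _
    omega
  · intro i hi
    have hK := P.Kpos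
    have hj := P.jl_lt hi
    have hj4 := P.le_jl i
    have hodd := P.jl_odd i
    obtain ⟨hb, ha, hc⟩ := hg i hi
    -- the order at level `jl i`
    have hrev : ∀ e < P.n, ∀ e' < P.n,
        o.F.f (o.v (.x (e + 1) (2 * P.K))) < o.F.f (o.v (.x (e' + 1) (2 * P.K))) →
        o.F.f (o.v (.x (e' + 1) (P.jl i))) < o.F.f (o.v (.x (e + 1) (P.jl i))) := by
      intro e he e' he' h
      have := (o.alt (c := e + 1) (c' := e' + 1) (by omega) (by omega) (l := 2 * P.K)
        (by rw [st_mid he]) (by rw [st_mid he']) h (P.jl i - 2 * P.K) (by omega)).2 (by omega)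
      rwa [show 2 * P.K + (P.jl i - 2 * P.K) = P.jl i by omega] at this
    have hy := (o.ypos hi ha (u := .y i) hi (by simp) (by simp) (.cya i hi) (.yp i hi)).2
    have hz := (o.ypos hi hb (u := .z i) hi (by simp) (by simp) (.cz i hi) (.zp i hi)).2
    have hne := o.f_ne (u := .y i) (v := .z i) hi hi (by simp)
    rcases lt_or_gt_of_ne hne with hlt | hgt
    · -- y < z : no c before b
      have hA := fun h => o.nocross hi hb (.cya i hi) (.cz i hi) hy hz h hlt
      have hC := fun h => o.nocross hi hb (.cyc i hi) (.cz i hi) hy hz h hlt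
      exact ⟨fun h => hC (hrev _ hb _ hc h.2), fun h => hA (hrev _ hb _ ha h.2)⟩
    · have hA := fun h => o.nocross hi ha (.cz i hi) (.cya i hi) hz hy h hgt
      have hC := fun h => o.nocross hi hc (.cz i hi) (.cyc i hi) hz hy h hgt
      exact ⟨fun h => hA (hrev _ ha _ hb h.1), fun h => hC (hrev _ hc _ hb h.1)⟩

end Par

end Pool.Agent.H68.OQP
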