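import Pool.Agent.H68.OQP.Prog2
import Pool.Agent.H68.OQP.Hard
import Pool.Agent.H68.OQP.Easy

/-!
The reduction as a function from instances of Betweenness to graphs.
-/

namespace Pool.Agent.H68.OQP

/-- `G` has a convex drawing without `k` pairwise crossing edges -/
def OuterQP {V : Type*} (k : ℕ) (G : SimpleGraph V) : Prop :=
  ∃ f : V → ℕ, Function.Injective f ∧ ¬ ∃ e : Fin k → V × V,
    (∀ i, G.Adj (e i).1 (e i).2) ∧ ∀ i j, i ≠ j → Cross f (e i) (e j)

/-- the graph with vertices `0, …, n - 1` and a given list of edges -/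
def graphOf (g : ℕ × List (ℕ × ℕ)) : SimpleGraph (Fin g.1) :=
  SimpleGraph.fromRel (fun u v => ((u : ℕ), (v : ℕ)) ∈ g.2)

/-- code of a graph: number of vertices and the edges, in unary -/
def encG (g : ℕ × List (ℕ × ℕ)) : List Bool :=
  unary (g.1 :: g.2.flatMap (fun e => [e.1, e.2]))

/-- instances of Betweenness -/
structure BInst where
  n : ℕ
  ts : List (Fin n × Fin n × Fin n)
  distinct : ∀ t ∈ ts, t.1 ≠ t.2.1 ∧ t.2.1 ≠ t.2.2 ∧ t.1 ≠ t.2.2

/-- the numbers of an instance -/
def BInst.nums (I : BInst) : List ℕ :=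
  I.n :: I.ts.length :: I.ts.flatMap (fun t => [(t.1 : ℕ), (t.2.1 : ℕ), (t.2.2 : ℕ)])

/-- code of an instance, in unary -/
def encB (I : BInst) : List Bool := unary I.nums

/-- yes-instances of Betweenness -/
def BInst.Sat (I : BInst) : Prop :=
  ∃ f : Fin I.n → ℕ, Function.Injective f ∧ ∀ t ∈ I.ts,
    (f t.1 < f t.2.1 ∧ f t.2.1 < f t.2.2) ∨ (f t.2.2 < f t.2.1 ∧ f t.2.1 < f t.1)

/-- the reduction -/
def red (w : ℕ) (I : BInst) : ℕ × List (ℕ × ℕ) :=
  ((par w I.nums).total, (prog w).out I.nums [])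

section

variable {w : ℕ} {l : List ℕ}

theorem mem_prog {x : ℕ × ℕ} : x ∈ (prog w).out l [] ↔
    ∃ a b, (par w l).Vrel a b ∧ x = ((par w l).num a, (par w l).num b) := by
  simp only [prog, Pg.mem_loop, Pg.mem_seq]
  constructor
  · rintro ⟨r, hr, h | h⟩
    · simp only [gtb, Pg.mem_loop, Pg.mem_pair] at h
      obtain ⟨i, hi, j, hj, rfl⟩ := h
      change j < (par w l).N + 1 at hj
      exact ⟨_, _, .tb i r j hi hr (by omega), rfl⟩
    · obtain ⟨u, v, h1, h2⟩ := gloc_sound h
      exact ⟨_, _, .loc r u v hr h1, h2⟩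
  · rintro ⟨a, b, h, rfl⟩
    cases h with
    | tb i r j h1 h2 h3 =>
      refine ⟨r, h2, Or.inl ?_⟩
      simp only [gtb, Pg.mem_loop, Pg.mem_pair]
      exact ⟨i, h1, j, Nat.lt_succ_of_le h3, rfl⟩
    | loc r u v h1 h2 => exact ⟨r, h1, Or.inr (loc_complete h2)⟩

theorem adj_graphOf {u v : Fin (par w l).total} (hg : (par w l).good) :
    (graphOf ((par w l).total, (prog w).out l [])).Adj u v ↔
      ∃ a b, (par w l).G.Adj a b ∧ (par w l).num a = u ∧ (par w l).num b = v := by
  unfold graphOf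
  rw [SimpleGraph.fromRel_adj]
  simp only [mem_prog]
  constructor
  · rintro ⟨hne, ⟨a, b, h1, h2⟩ | ⟨a, b, h1, h2⟩⟩
    · injection h2 with h3 h4
      refine ⟨a, b, ?_, h3.symm, h4.symm⟩
      rw [Par.G, SimpleGraph.fromRel_adj]
      refine ⟨?_, Or.inl h1⟩
      rintro rfl
      exact hne (Fin.ext (h3.trans h4.symm))
    · injection h2 with h3 h4
      refine ⟨b, a, ?_, h4.symm, h3.symm⟩
      rw [Par.G, SimpleGraph.fromRel_adj]
      refine ⟨?_, Or.inr h1⟩
      rintro rfl
      exact hne (Fin.ext (h4.trans h3.symm))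
  · rintro ⟨a, b, h, h1, h2⟩
    rw [Par.G, SimpleGraph.fromRel_adj] at h
    refine ⟨?_, ?_⟩
    · rintro rfl
      rcases h.2 with h3 | h3
      · have := (par w l).vrel_ok h3 hg
        exact h.1 (Par.num_inj this.1 this.2 (h1.trans h2.symm))
      · have := (par w l).vrel_ok h3 hg
        exact h.1 (Par.num_inj this.2 this.1 (h1.trans h2.symm))
    · rcases h.2 with h3 | h3
      · exact Or.inl ⟨a, b, h3, by rw [h1, h2]⟩
      · exact Or.inr ⟨b, a, h3, by rw [h1, h2]⟩

theorem adj_ok' {P : Par} (hg : P.good) {a b : Vt} (h : P.G.Adj a b) : P.ok a ∧ P.ok b :=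
  (P.dat hg).adj_ok a b h

theorem outer_iff (hg : (par w l).good) :
    OuterQP (w + 4) (graphOf ((par w l).total, (prog w).out l [])) ↔ (par w l).Sat := by
  classical
  constructor
  · rintro ⟨f, hf, hN⟩
    let f' : Vt → ℕ := fun v => if h : (par w l).ok v then
      f ⟨(par w l).num v, Par.num_lt h⟩ else 0
    refine (par w l).hard hg f' ?_ ?_
    · intro u v hu hv h
      simp only [f', dif_pos hu, dif_pos hv] at h
      have := congrArg Fin.val (hf h)
      exact Par.num_inj hu hv this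
    · rintro ⟨e, he, hx⟩
      have hok := fun i => adj_ok' hg (he i)
      refine hN ⟨fun i => (⟨(par w l).num (e i).1, Par.num_lt (hok i).1⟩,
        ⟨(par w l).num (e i).2, Par.num_lt (hok i).2⟩), ?_, ?_⟩
      · intro i
        exact (adj_graphOf hg).2 ⟨_, _, he i, rfl, rfl⟩
      · intro i j hij
        have := hx i j hij
        unfold Cross at this ⊢
        simp only [f', dif_pos (hok i).1, dif_pos (hok i).2, dif_pos (hok j).1,
          dif_pos (hok j).2] at this
        exact this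
  · intro hs
    obtain ⟨f, hf, hN⟩ := (par w l).easy hg hs
    let f' : Fin (par w l).total → ℕ := fun u =>
      if h : ∃ v, (par w l).ok v ∧ (par w l).num v = u then 2 * f h.choose else 2 * u + 1
    have hf' : ∀ v (hv : (par w l).ok v) (u : Fin (par w l).total), (par w l).num v = u →
        f' u = 2 * f v := by
      intro v hv u hu
      have h : ∃ v, (par w l).ok v ∧ (par w l).num v = u := ⟨v, hv, hu⟩
      simp only [f', dif_pos h]
      rw [Par.num_inj h.choose_spec.1 hv (h.choose_spec.2.trans hu.symm)]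
    refine ⟨f', ?_, ?_⟩
    · intro u v h
      by_cases h1 : ∃ a, (par w l).ok a ∧ (par w l).num a = u
      · by_cases h2 : ∃ a, (par w l).ok a ∧ (par w l).num a = v
        · obtain ⟨a, ha, ha'⟩ := h1
          obtain ⟨b, hb, hb'⟩ := h2
          rw [hf' a ha u ha', hf' b hb v hb'] at h
          have := hf a b ha hb (by omega)
          subst this
          exact Fin.ext (ha'.symm.trans hb')
        · obtain ⟨a, ha, ha'⟩ := h1
          rw [hf' a ha u ha'] at h
          simp only [f', dif_neg h2] at h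
          omega
      · by_cases h2 : ∃ a, (par w l).ok a ∧ (par w l).num a = v
        · obtain ⟨b, hb, hb'⟩ := h2
          rw [hf' b hb v hb'] at h
          simp only [f', dif_neg h1] at h
          omega
        · simp only [f', dif_neg h1, dif_neg h2] at h
          exact Fin.ext (by omega)
    · rintro ⟨e, he, hx⟩
      have hch := fun i => (adj_graphOf hg).1 (he i)
      choose a b hab ha hb using hch
      refine hN ⟨fun i => (a i, b i), hab, ?_⟩
      intro i j hij
      have hi := adj_ok' hg (hab i)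
      have hj := adj_ok' hg (hab j)
      have := hx i j hij
      unfold Cross at this ⊢
      rw [hf' _ hi.1 _ (ha i), hf' _ hi.2 _ (hb i), hf' _ hj.1 _ (ha j),
        hf' _ hj.2 _ (hb j)] at this
      simp only
      omega

theorem getD_ts {n : ℕ} (ts : List (Fin n × Fin n × Fin n)) (t : ℕ) (ht : t < ts.length) :
    (ts.flatMap (fun t => [(t.1 : ℕ), (t.2.1 : ℕ), (t.2.2 : ℕ)])).getD (3 * t) 0 = ts[t].1 ∧
    (ts.flatMap (fun t => [(t.1 : ℕ), (t.2.1 : ℕ), (t.2.2 : ℕ)])).getD (3 * t + 1) 0 =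
      ts[t].2.1 ∧
    (ts.flatMap (fun t => [(t.1 : ℕ), (t.2.1 : ℕ), (t.2.2 : ℕ)])).getD (3 * t + 2) 0 =
      ts[t].2.2 := by
  induction ts generalizing t with
  | nil => simp at ht
  | cons a ts ih =>
    cases t with
    | zero => exact ⟨rfl, rfl, rfl⟩
    | succ t =>
      have := ih t (by simpa using ht)
      simp only [List.flatMap_cons, List.cons_append, List.nil_append,
        List.getElem_cons_succ]
      rw [show 3 * (t + 1) = 3 * t + 1 + 1 + 1 by ring,
        show 3 * t + 1 + 1 + 1 + 1 = 3 * t + 1 + 1 + 1 + 1 by ring,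
        show 3 * t + 1 + 1 + 1 + 2 = 3 * t + 2 + 1 + 1 + 1 by ring]
      simp only [List.getD_cons_succ]
      exact this

theorem par_q (I : BInst) (t : ℕ) (ht : t < I.ts.length) :
    (par w I.nums).q (2 * t) = ((I.ts[t].1 : ℕ), (I.ts[t].2.1 : ℕ), (I.ts[t].2.2 : ℕ)) ∧
    (par w I.nums).q (2 * t + 1) = ((I.ts[t].2.2 : ℕ), (I.ts[t].1 : ℕ), (I.ts[t].2.1 : ℕ)) := by
  obtain ⟨h1, h2, h3⟩ := getD_ts I.ts t ht
  have e1 : I.nums.getD (2 + 3 * t) 0 = I.ts[t].1 := by
    rw [← h1, show 2 + 3 * t = 3 * t + 1 + 1 by ring]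
    rfl
  have e2 : I.nums.getD (3 + 3 * t) 0 = I.ts[t].2.1 := by
    rw [← h2, show 3 + 3 * t = 3 * t + 1 + 1 + 1 by ring]
    rfl
  have e3 : I.nums.getD (4 + 3 * t) 0 = I.ts[t].2.2 := by
    rw [← h3, show 4 + 3 * t = 3 * t + 2 + 1 + 1 by ring]
    rfl
  constructor
  · change (if (2 * t) % 2 = 0 then _ else _) = _
    rw [if_pos (by omega), show 2 * t / 2 = t by omega]
    rw [e1, e2, e3]
  · change (if (2 * t + 1) % 2 = 0 then _ else _) = _
    rw [if_neg (by omega), show (2 * t + 1) / 2 = t by omega]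
    rw [e1, e2, e3]

theorem par_good (I : BInst) : (par w I.nums).good := by
  intro i hi
  have hM : (par w I.nums).M = 2 * I.ts.length := rfl
  have hn : (par w I.nums).n = I.n := rfl
  rw [hn]
  rcases Nat.even_or_odd' i with ⟨t, rfl | rfl⟩
  · rw [(par_q I t (by omega)).1]
    exact ⟨Fin.is_lt _, Fin.is_lt _, Fin.is_lt _⟩
  · rw [(par_q I t (by omega)).2]
    exact ⟨Fin.is_lt _, Fin.is_lt _, Fin.is_lt _⟩

theorem sat_iff (I : BInst) : I.Sat ↔ (par w I.nums).Sat := by
  have hM : (par w I.nums).M = 2 * I.ts.length := rfl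
  have hn : (par w I.nums).n = I.n := rfl
  constructor
  · rintro ⟨f, hf, h⟩
    refine ⟨fun a => if ha : a < I.n then f ⟨a, ha⟩ else 0, ?_, ?_⟩
    · intro a ha b hb hab
      rw [hn] at ha hb
      beta_reduce at hab
      rw [dif_pos ha, dif_pos hb] at hab
      exact congrArg Fin.val (hf hab)
    · intro i hi
      rcases Nat.even_or_odd' i with ⟨t, rfl | rfl⟩
      · have ht : t < I.ts.length := by omega
        rw [(par_q I t ht).1]
        have := h _ (List.getElem_mem ht)
        simp only [Fin.is_lt, dif_pos, Fin.eta]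
        omega
      · have ht : t < I.ts.length := by omega
        rw [(par_q I t ht).2]
        have := h _ (List.getElem_mem ht)
        simp only [Fin.is_lt, dif_pos, Fin.eta]
        omega
  · rintro ⟨s, hs, h⟩
    refine ⟨fun a => s a, ?_, ?_⟩
    · intro a b hab
      exact Fin.ext (hs a a.is_lt b b.is_lt hab)
    · intro x hx
      obtain ⟨t, ht, rfl⟩ := List.getElem_of_mem hx
      have h1 := h (2 * t) (by omega)
      have h2 := h (2 * t + 1) (by omega)
      rw [(par_q I t ht).1] at h1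
      rw [(par_q I t ht).2] at h2
      obtain ⟨d1, d2, d3⟩ := I.distinct _ hx
      have e1 : s I.ts[t].1 ≠ s I.ts[t].2.1 := fun he =>
        d1 (Fin.ext (hs _ (Fin.is_lt _) _ (Fin.is_lt _) he))
      have e2 : s I.ts[t].2.1 ≠ s I.ts[t].2.2 := fun he =>
        d2 (Fin.ext (hs _ (Fin.is_lt _) _ (Fin.is_lt _) he))
      have e3 : s I.ts[t].1 ≠ s I.ts[t].2.2 := fun he =>
        d3 (Fin.ext (hs _ (Fin.is_lt _) _ (Fin.is_lt _) he))
      simp only at h1 h2 ⊢
      omega

end

/-- correctness of the reduction -/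
theorem red_correct (w : ℕ) (I : BInst) : I.Sat ↔ OuterQP (w + 4) (graphOf (red w I)) := by
  rw [sat_iff (w := w) I]
  exact (outer_iff (par_good I)).symm

/-- the printed string -/
theorem red_enc (w : ℕ) (I : BInst) : encG (red w I) =
    (Gn.seq (.un (eTotal w)) (.seq (.bit false) (prog w).toGn)).out I.nums [] := by
  simp only [Gn.out, Pg.toGn_out, encG, red, unary_cons, flat]
  rw [List.append_assoc]
  rfl

end Pool.Agent.H68.OQP
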