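import Pool.Agent.H68.OQP.Force

/-!
Positions of the chain vertices and of the constraint vertices.
-/

namespace Pool.Agent.H68.OQP

namespace Par

variable {P : Par} {hg : P.good}

/-- last level of a chain -/
def last (P : Par) (c : ℕ) : ℕ := if c ≤ P.n + 1 then P.h else P.h - 1

theorem last_le {c : ℕ} : P.last c ≤ P.h := by
  unfold last
  split_ifs <;> omega

theorem st_lt_last {c : ℕ} : P.st c < P.last c := by
  have := P.st_le (c := c)
  unfold last
  split_ifs <;> omega

theorem hop' {c l : ℕ} (hc : c ≤ P.n + 2) (h1 : P.st c ≤ l) (h2 : l < P.last c) :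
    P.Lrel (.x c l) (.x c (l + 1)) := by
  unfold last at h2
  split_ifs at h2 with h
  · exact .hop c l h h1 h2
  · have : c = P.n + 2 := by omega
    subst this
    have h3 : P.st (P.n + 2) = P.w + 2 := by
      unfold st
      rw [if_neg (by omega), if_neg (by omega), if_neg (by omega)]
    exact .shop l (by omega) (by omega)

theorem st_s : P.st (P.n + 2) = P.w + 2 := by
  unfold st
  rw [if_neg (by omega), if_neg (by omega), if_neg (by omega)]

/-- left pins -/
theorem pin_spec {c : ℕ} (hc : c ≤ P.n + 2) : ∃ p, 1 ≤ p ∧ p + 1 ≤ P.m ∧ P.D ≤ P.K * p ∧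
    P.K * p ≤ P.C P.h ∧ P.Lrel (.t (P.K * p)) (.x c (P.st c)) ∧
    (c ≤ P.n + 1 → P.K * p + P.K = P.C (P.st c)) ∧
    (c = P.n + 2 → P.K * p + P.K + 1 = P.C (P.w + 2)) := by
  have hK := P.Kpos
  have hm : ∀ p, P.K * p ≤ P.C P.h → p + 1 ≤ P.m := by
    intro p hp
    have h1 := P.Ch_eq
    have h2 := P.E_le_N
    rw [P.N_eq'] at h2
    have : P.K * p < P.K * P.m := by omega
    exact Nat.lt_of_mul_lt_mul_left this
  have aux : ∀ (s : ℕ) (u : ℕ), P.st c = s → c ≤ P.n + 1 → s * (P.w + 2) = P.K * u →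
      ∃ p, 1 ≤ p ∧ p + 1 ≤ P.m ∧ P.D ≤ P.K * p ∧
        P.K * p ≤ P.C P.h ∧ P.Lrel (.t (P.K * p)) (.x c (P.st c)) ∧
        (c ≤ P.n + 1 → P.K * p + P.K = P.C (P.st c)) ∧
        (c = P.n + 2 → P.K * p + P.K + 1 = P.C (P.w + 2)) := by
    intro s u hs hc1 hu
    have hC : P.K * (P.h + 3 + u) + P.K = P.C (P.st c) := by
      rw [hs]
      unfold C
      rw [hu]
      ring
    have h3 := P.st_le (c := c)
    have h4 := P.C_le (show P.st c ≤ P.h by omega)
    refine ⟨P.h + 3 + u, by omega, hm _ (by omega), Nat.mul_le_mul_left _ (by omega),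
      by omega, .lpin _ _ hc1 hC, fun _ => hC, fun h => by omega⟩
  rcases Nat.eq_zero_or_pos c with h0 | h0
  · exact aux 0 0 (by unfold st; rw [if_pos h0]) (by omega) (by ring)
  rcases Nat.lt_or_ge P.n c with h1 | h1
  · rcases Nat.lt_or_ge (P.n + 1) c with h2 | h2
    · have hc2 : c = P.n + 2 := by omega
      subst hc2
      have hC : P.K * (P.h + 3 + (P.w + 1)) + P.K + 1 = P.C (P.w + 2) := by
        unfold C K
        ring
      have h3 := P.le_h
      have hKw : P.K = P.w + 3 := rfl
      have h4 := P.C_le (show P.w + 2 ≤ P.h by omega)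
      refine ⟨P.h + 3 + (P.w + 1), by omega, hm _ (by omega), Nat.mul_le_mul_left _ (by omega),
        by omega, ?_, fun h => by omega, fun _ => hC⟩
      rw [st_s]
      exact .slpin _ hC
    · refine aux (4 * P.K) (4 * (P.w + 2)) ?_ (by omega) (by ring)
      unfold st
      rw [if_neg (by omega), if_neg (by omega), if_pos (by omega)]
  · refine aux (2 * P.K) (2 * (P.w + 2)) ?_ (by omega) (by ring)
    unfold st
    rw [if_neg (by omega), if_pos (by omega)]

variable (o : Ori P hg)

/-- abbreviation for a vertex of the good copy -/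
abbrev Ori.v (v : Loc) : Vt := .c o.r v

theorem Ori.adj {u v : Loc} (h : P.Lrel u v) : (P.dat hg).G.Adj (o.v u) (o.v v) :=
  P.adj_loc o.hr h

theorem Ori.okv {u : Loc} (h : P.lok u) : o.v u ∈ (P.dat hg).ok := ⟨o.hr, h⟩

theorem Ori.I_nonneg : 0 ≤ o.I := by
  have hm : 2 * P.h + 8 ≤ P.m := by unfold m; omega
  have h1 := o.hI 1 le_rfl (by omega)
  have hN : P.K * 1 ≤ P.N := by
    rw [P.N_eq']
    exact Nat.mul_le_mul_left _ (by omega)
  have h2 := o.hL _ hN
  push_cast at h1
  omega

/-- chain vertices are deep -/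
theorem Ori.chain {c : ℕ} (hc : c ≤ P.n + 2) (s : ℕ) (hs : P.st c + s ≤ P.last c) :
    o.F.inA (o.v (.x c (P.st c + s))) ∧ P.K ≤ o.F.idx (o.v (.x c (P.st c + s))) ∧
      P.K ≤ o.F.rdx (o.v (.x c (P.st c + s))) := by
  obtain ⟨p, hp1, hp2, hp3, hp4, hp5, -⟩ := pin_spec hc
  have hK := P.Kpos
  have hKK : (P.dat hg).K = P.K := rfl
  have hNm := P.N_eq'
  have hpN : P.K * p ≤ P.N := by
    rw [hNm]
    exact Nat.mul_le_mul_left _ (by omega)
  have hI0 := o.I_nonneg
  have hDdef : P.D = P.K * (P.h + 3) := rfl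
  have hNdef : P.N = P.E + P.K * (P.h + 4) := rfl
  have hCh := P.Ch_eq
  have hlast := P.last_le (c := c)
  have hmm : 1 ≤ P.m := by omega
  have hlastN : P.K * (P.m - 1) ≤ P.N := by
    rw [hNm]
    exact Nat.mul_le_mul_left _ (by omega)
  have hlastI := o.hI (P.m - 1) (by
    have hm : 2 * P.h + 8 ≤ P.m := by unfold m; omega
    omega) (by omega)
  have hlastv : P.K * (P.m - 1) + P.K = P.N := by
    rw [hNm]
    conv_rhs => rw [← Nat.sub_add_cancel hmm]
    ring
  have hpI := o.hI p hp1 hp2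
  -- key invariant
  have key : ∀ s, P.st c + s ≤ P.last c → o.F.inA (o.v (.x c (P.st c + s))) ∧
      ((o.F.idx (o.v (.x c (P.st c + s))) : ℤ) ≤ o.I + P.K * p + P.K * (s + 1)) ∧
      (o.I + P.K * p ≤ o.F.idx (o.v (.x c (P.st c + s))) + P.K * (s + 1)) := by
    have hdeep : ∀ s, P.st c + s ≤ P.last c → o.F.inA (o.v (.x c (P.st c + s))) →
        ((o.F.idx (o.v (.x c (P.st c + s))) : ℤ) ≤ o.I + P.K * p + P.K * (s + 1)) →
        (o.I + P.K * p ≤ o.F.idx (o.v (.x c (P.st c + s))) + P.K * (s + 1)) →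
        P.K ≤ o.F.idx (o.v (.x c (P.st c + s))) ∧ P.K ≤ o.F.rdx (o.v (.x c (P.st c + s))) := by
      intro s hs hA h1 h2
      have hsh : s ≤ P.h := by omega
      have e1 : (P.K : ℤ) * (s + 1) ≤ P.K * (P.h + 1) := by
        have : P.K * (s + 1) ≤ P.K * (P.h + 1) := Nat.mul_le_mul_left _ (by omega)
        exact_mod_cast this
      have e2 : (P.K : ℤ) * (P.h + 3) ≤ P.K * p := by
        have := hp3
        rw [hDdef] at this
        exact_mod_cast this
      have e3 : (P.K : ℤ) * (P.h + 3) = P.K * (P.h + 1) + 2 * P.K := by ring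
      have hKz : (0 : ℤ) < P.K := by exact_mod_cast hK
      refine ⟨?_, ?_⟩
      · have : (P.K : ℤ) ≤ o.F.idx (o.v (.x c (P.st c + s))) := by linarith
        exact_mod_cast this
      · have hlt : o.F.idx (o.v (.x c (P.st c + s))) < o.F.idx (o.v (.t (P.K * (P.m - 1)))) := by
          have : (o.F.idx (o.v (.x c (P.st c + s))) : ℤ) <
              o.F.idx (o.v (.t (P.K * (P.m - 1)))) := by
            have h5 : ((P.K * (P.m - 1) : ℕ) : ℤ) + P.K = P.E + P.K * (P.h + 4) := by
              have := hlastv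
              rw [hNdef] at this
              exact_mod_cast this
            have h6 : ((P.K * p : ℕ) : ℤ) ≤ P.C P.h := by exact_mod_cast hp4
            have h7 : (P.C P.h : ℤ) + (P.w + 2) = P.E := by exact_mod_cast hCh
            change _ < (o.F.idx (.c o.r (.t (P.K * (P.m - 1)))) : ℤ)
            rw [hlastI]
            push_cast at h5 h6 ⊢
            have h8 : (P.K : ℤ) * (P.h + 4) = P.K * (P.h + 1) + 3 * P.K := by ring
            have hw : (0 : ℤ) ≤ P.w := by positivity
            linarith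
          exact_mod_cast this
        have := o.F.rdx_mono (o.F.lt_of_idx hlt).le
        have h9 := o.hR _ hlastN
        exact h9.trans this
    intro s
    induction s with
    | zero =>
      intro hs
      have hadj := o.adj hp5
      have hA := o.F.nbr hadj (o.hA _ hpN) (o.hL _ hpN) (o.hR _ hpN) c_notB
      refine ⟨hA, ?_, ?_⟩
      · have := o.F.lip hadj hA
        change (o.F.idx (o.v (.x c (P.st c))) : ℤ) ≤ _
        have h2 : (o.F.idx (o.v (.x c (P.st c))) : ℤ) ≤ o.F.idx (o.v (.t (P.K * p))) + P.K := by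
          exact_mod_cast this
        push_cast
        linarith
      · have := o.F.lip hadj.symm (o.hA _ hpN)
        change _ ≤ (o.F.idx (o.v (.x c (P.st c))) : ℤ) + _
        have h2 : (o.F.idx (o.v (.t (P.K * p))) : ℤ) ≤
            o.F.idx (o.v (.x c (P.st c))) + P.K := by
          exact_mod_cast this
        push_cast
        linarith
    | succ s ih =>
      intro hs
      obtain ⟨h1, h2, h3⟩ := ih (by omega)
      obtain ⟨h4, h5⟩ := hdeep s (by omega) h1 h2 h3
      have hadj := o.adj (hop' hc (show P.st c ≤ P.st c + s by omega) (by omega))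
      rw [Nat.add_assoc] at hadj
      have hA := o.F.nbr hadj h1 h4 h5 c_notB
      refine ⟨hA, ?_, ?_⟩
      · have := o.F.lip hadj hA
        have h6 : (o.F.idx (o.v (.x c (P.st c + (s + 1)))) : ℤ) ≤
          o.F.idx (o.v (.x c (P.st c + s))) + P.K := by exact_mod_cast this
        push_cast
        linarith
      · have := o.F.lip hadj.symm h1
        have h6 : (o.F.idx (o.v (.x c (P.st c + s))) : ℤ) ≤
          o.F.idx (o.v (.x c (P.st c + (s + 1)))) + P.K := by exact_mod_cast this
        push_cast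
        linarith
  obtain ⟨h1, h2, h3⟩ := key s hs
  refine ⟨h1, ?_⟩
  -- repeat the deepness argument
  have hsh : s ≤ P.h := by omega
  have e1 : (P.K : ℤ) * (s + 1) ≤ P.K * (P.h + 1) := by
    have : P.K * (s + 1) ≤ P.K * (P.h + 1) := Nat.mul_le_mul_left _ (by omega)
    exact_mod_cast this
  have e2 : (P.K : ℤ) * (P.h + 3) ≤ P.K * p := by
    have := hp3
    rw [hDdef] at this
    exact_mod_cast this
  have e3 : (P.K : ℤ) * (P.h + 3) = P.K * (P.h + 1) + 2 * P.K := by ring
  have hKz : (0 : ℤ) < P.K := by exact_mod_cast hK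
  refine ⟨?_, ?_⟩
  · have : (P.K : ℤ) ≤ o.F.idx (o.v (.x c (P.st c + s))) := by linarith
    exact_mod_cast this
  · have hlt : o.F.idx (o.v (.x c (P.st c + s))) < o.F.idx (o.v (.t (P.K * (P.m - 1)))) := by
      have : (o.F.idx (o.v (.x c (P.st c + s))) : ℤ) <
          o.F.idx (o.v (.t (P.K * (P.m - 1)))) := by
        have h5 : ((P.K * (P.m - 1) : ℕ) : ℤ) + P.K = P.E + P.K * (P.h + 4) := by
          have := hlastv
          rw [hNdef] at this
          exact_mod_cast this
        have h6 : ((P.K * p : ℕ) : ℤ) ≤ P.C P.h := by exact_mod_cast hp4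
        have h7 : (P.C P.h : ℤ) + (P.w + 2) = P.E := by exact_mod_cast hCh
        change _ < (o.F.idx (.c o.r (.t (P.K * (P.m - 1)))) : ℤ)
        rw [hlastI]
        push_cast at h5 h6 ⊢
        have h8 : (P.K : ℤ) * (P.h + 4) = P.K * (P.h + 1) + 3 * P.K := by ring
        have hw : (0 : ℤ) ≤ P.w := by positivity
        linarith
      exact_mod_cast this
    have := o.F.rdx_mono (o.F.lt_of_idx hlt).le
    have h9 := o.hR _ hlastN
    exact h9.trans this

end Par

end Pool.Agent.H68.OQP
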