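import Pool.Agent.H68.OQP.Graph

/-!
The graph of the reduction as forcing data, and connectivity of the T-vertices of a copy.
-/

namespace Pool.Agent.H68.OQP

namespace Par

variable (P : Par)

theorem Kpos : 0 < P.K := by unfold K; omega

theorem D_le_E : P.D + P.K ≤ P.E := by
  have h1 := P.C_zero
  have h2 := P.C_le (Nat.zero_le (P.h + 1))
  unfold E
  omega

theorem E_le_N : P.E + 4 * P.K ≤ P.N := by
  unfold N
  have : P.K * 4 ≤ P.K * (P.h + 4) := Nat.mul_le_mul_left _ (by omega)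
  omega

theorem Ch_eq : P.C P.h + (P.w + 2) = P.E := by
  unfold E
  rw [C_succ]

theorem lrel_ok {u v : Loc} (h : P.Lrel u v) (hg : P.good) : P.lok u ∧ P.lok v := by
  have hDE := P.D_le_E
  have hEN := P.E_le_N
  have hK := P.Kpos
  have hKw : P.K = P.w + 3 := rfl
  have hCh := P.Ch_eq
  cases h with
  | spine i h1 h2 => exact ⟨by change i ≤ P.N; omega, h2⟩
  | left i j h1 h2 h3 h4 => exact ⟨by change i ≤ P.N; omega, by change j ≤ P.N; omega⟩
  | right i j h1 h2 h3 h4 h5 => exact ⟨by change i ≤ P.N; omega, by change j ≤ P.N; omega⟩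
  | path i h1 h2 h3 => exact ⟨by change i ≤ P.N; omega, by change i + 1 ≤ P.N; omega⟩
  | hop c l h1 h2 h3 =>
    exact ⟨⟨by omega, by omega⟩, ⟨by omega, by omega⟩⟩
  | lpin c i h1 h2 =>
    have h3 := P.st_le (c := c)
    have h4 := P.C_le (show P.st c ≤ P.h by omega)
    exact ⟨by change i ≤ P.N; omega, ⟨by omega, by omega⟩⟩
  | rpin c h1 => exact ⟨⟨by omega, le_rfl⟩, by change P.E ≤ P.N; omega⟩
  | shop l h1 h2 => exact ⟨⟨le_rfl, by omega⟩, ⟨le_rfl, by omega⟩⟩
  | slpin i h1 =>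
    have h3 := P.le_h
    have h4 := P.C_le (show P.w + 2 ≤ P.h by omega)
    exact ⟨by change i ≤ P.N; omega, ⟨le_rfl, by omega⟩⟩
  | srpin l i h1 h2 => exact ⟨⟨le_rfl, by omega⟩, by change i ≤ P.N; omega⟩
  | cya i h1 =>
    have h2 := hg i h1
    have h3 := P.jl_lt h1
    exact ⟨⟨by omega, by omega⟩, h1⟩
  | cyc i h1 =>
    have h2 := hg i h1
    have h3 := P.jl_lt h1
    exact ⟨⟨by omega, by omega⟩, h1⟩
  | cz i h1 =>
    have h2 := hg i h1
    have h3 := P.jl_lt h1
    exact ⟨⟨by omega, by omega⟩, h1⟩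
  | yp i h1 =>
    have h3 := P.jl_lt h1
    have h4 := P.C_lt (show P.jl i + 1 < P.h by omega)
    exact ⟨h1, by change P.C (P.jl i + 1) + (P.w + 1) ≤ P.N; omega⟩
  | zp i h1 =>
    have h3 := P.jl_lt h1
    have h4 := P.C_lt (show P.jl i + 1 < P.h by omega)
    exact ⟨h1, by change P.C (P.jl i + 1) + (P.w + 1) ≤ P.N; omega⟩

theorem vrel_ok {u v : Vt} (h : P.Vrel u v) (hg : P.good) : P.ok u ∧ P.ok v := by
  cases h with
  | tb i r j h1 h2 h3 => exact ⟨h1, h2, h3⟩
  | loc r u v h1 h2 =>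
    have := P.lrel_ok h2 hg
    exact ⟨⟨h1, this.1⟩, h1, this.2⟩

theorem lrel_ne {u v : Loc} (h : P.Lrel u v) : u ≠ v := by
  have hK := P.Kpos
  cases h <;> simp only [ne_eq, Loc.t.injEq, Loc.x.injEq, reduceCtorEq, not_false_eq_true,
    true_and] <;> omega

theorem adj_loc {r : ℕ} (hr : r < P.R) {u v : Loc} (h : P.Lrel u v) :
    P.G.Adj (.c r u) (.c r v) := by
  rw [G, SimpleGraph.fromRel_adj]
  refine ⟨?_, Or.inl (.loc r u v hr h)⟩
  intro he
  exact P.lrel_ne h (by injection he)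

theorem adj_tb {i r j : ℕ} (hi : i < P.K) (hr : r < P.R) (hj : j ≤ P.N) :
    P.G.Adj (.c r (.t j)) (.b i) := by
  rw [G, SimpleGraph.fromRel_adj]
  exact ⟨by simp, Or.inr (.tb i r j hi hr hj)⟩

/-- the forcing data -/
noncomputable def dat (hg : P.good) : Dat Vt where
  G := P.G
  K := P.K
  ok := {v | P.ok v}
  BB := (Finset.range P.K).image Vt.b
  TT := (Finset.range P.R ×ˢ Finset.range (P.N + 1)).image (fun p => Vt.c p.1 (.t p.2))
  hK := by unfold K; omega
  adj_ok := by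
    intro u v h
    rw [G, SimpleGraph.fromRel_adj] at h
    rcases h.2 with h | h
    · exact P.vrel_ok h hg
    · exact ⟨(P.vrel_ok h hg).2, (P.vrel_ok h hg).1⟩
  Bok := by
    intro v hv
    obtain ⟨i, hi, rfl⟩ := Finset.mem_image.1 hv
    exact Finset.mem_range.1 hi
  Tok := by
    intro v hv
    obtain ⟨⟨r, i⟩, hi, rfl⟩ := Finset.mem_image.1 hv
    rw [Finset.mem_product, Finset.mem_range, Finset.mem_range] at hi
    exact ⟨hi.1, by change i ≤ P.N; simp only at hi; omega⟩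
  Bcard := by
    rw [Finset.card_image_of_injective _ (fun a b h => by injection h), Finset.card_range]
  disj := by
    intro v hv hv'
    obtain ⟨⟨r, i⟩, hi, rfl⟩ := Finset.mem_image.1 hv
    obtain ⟨j, hj, h⟩ := Finset.mem_image.1 hv'
    exact absurd h (by simp)
  TB := by
    intro v hv v' hv'
    obtain ⟨⟨r, i⟩, hi, rfl⟩ := Finset.mem_image.1 hv
    obtain ⟨j, hj, rfl⟩ := Finset.mem_image.1 hv'
    rw [Finset.mem_product, Finset.mem_range, Finset.mem_range] at hi
    simp only at hi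
    exact P.adj_tb (Finset.mem_range.1 hj) hi.1 (by omega)

theorem T_cases {i : ℕ} (hi : i ≤ P.N) :
    P.K ∣ i ∨ (i < P.D ∧ P.K * (i / P.K + 1) ≤ P.D ∧
      P.Lrel (.t i) (.t (P.K * (i / P.K + 1)))) ∨
      (P.E < i ∧ P.Lrel (.t (P.K * (i / P.K))) (.t i)) ∨
      (P.D < i ∧ i < P.E ∧ i % P.K ≠ 0) := by
  have hK := P.Kpos
  by_cases hd : P.K ∣ i
  · exact Or.inl hd
  right
  have hm : i % P.K ≠ 0 := fun h => hd (Nat.dvd_of_mod_eq_zero h)
  have hdiv := Nat.div_add_mod i P.K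
  have hmod := Nat.mod_lt i hK
  have hDd : P.K ∣ P.D := Dvd.intro _ rfl
  have hEd : P.K ∣ P.E := by rw [P.E_eq]; exact Dvd.intro _ rfl
  rcases lt_or_ge i P.D with h1 | h1
  · left
    have hle : P.K * (i / P.K + 1) ≤ P.D := by
      obtain ⟨d, hd'⟩ := hDd
      rw [hd'] at h1 ⊢
      refine Nat.mul_le_mul_left _ ?_
      have : i / P.K < d := by
        rw [Nat.div_lt_iff_lt_mul hK, Nat.mul_comm]
        exact h1
      omega
    refine ⟨h1, hle, .left _ _ hle (Dvd.intro _ rfl) ?_ ?_⟩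
    · rw [Nat.mul_add, Nat.mul_one]
      omega
    · rw [Nat.mul_add, Nat.mul_one]
      omega
  · right
    rcases lt_trichotomy i P.E with h2 | h2 | h2
    · right
      refine ⟨?_, h2, hm⟩
      rcases Nat.eq_or_lt_of_le h1 with h3 | h3
      · exact absurd (h3 ▸ hDd) hd
      · exact h3
    · exact absurd (h2 ▸ hEd) hd
    · left
      refine ⟨h2, .right _ _ ?_ (Dvd.intro _ rfl) (by omega) (by omega) hi⟩
      obtain ⟨d, hd'⟩ := hEd
      rw [hd'] at h2 ⊢
      refine Nat.mul_le_mul_left _ ?_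
      rw [Nat.le_div_iff_mul_le hK, Nat.mul_comm]
      exact h2.le

/-- connectivity of the T-vertices of a copy -/
theorem T_conn {r : ℕ} (hr : r < P.R) (Q : ℕ → Prop) (h0 : Q 0)
    (hQ : ∀ i ≤ P.N, ∀ j ≤ P.N, Q i → P.G.Adj (.c r (.t i)) (.c r (.t j)) → Q j) :
    ∀ i ≤ P.N, Q i := by
  have hK := P.Kpos
  have hspine : ∀ q, P.K * q ≤ P.N → Q (P.K * q) := by
    intro q
    induction q with
    | zero => intro _; simpa using h0
    | succ q ih =>
      intro hq
      rw [Nat.mul_add, Nat.mul_one] at hq ⊢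
      exact hQ _ (by omega) _ hq (ih (by omega)) (P.adj_loc hr (.spine _ (Dvd.intro _ rfl) hq))
  intro i hi
  have hdiv := Nat.div_add_mod i P.K
  have hmod := Nat.mod_lt i hK
  rcases P.T_cases hi with h | ⟨h1, h3, h2⟩ | ⟨h1, h2⟩ | ⟨h1, h2, h3⟩
  · obtain ⟨q, rfl⟩ := h
    exact hspine q hi
  · have hDE := P.D_le_E
    have hEN := P.E_le_N
    have h3 : P.K * (i / P.K + 1) ≤ P.N := by omega
    exact hQ _ h3 _ hi (hspine _ h3) (P.adj_loc hr h2).symm
  · exact hQ _ (by omega) _ hi (hspine _ (by omega)) (P.adj_loc hr h2)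
  · -- inner block
    have hEN := P.E_le_N
    have hDd : P.K ∣ P.D := Dvd.intro _ rfl
    have hblock : P.D ≤ P.K * (i / P.K) := by
      obtain ⟨d, hd'⟩ := hDd
      rw [hd'] at h1 ⊢
      refine Nat.mul_le_mul_left _ ?_
      rw [Nat.le_div_iff_mul_le hK, Nat.mul_comm]
      exact h1.le
    have key : ∀ o, o < P.K → P.K * (i / P.K) + o ≤ P.E → Q (P.K * (i / P.K) + o) := by
      intro o
      induction o with
      | zero => intro _ _; exact hspine _ (by omega)
      | succ o ih =>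
        intro ho hE
        refine hQ _ (by omega) _ (by omega) (ih (by omega) (by omega)) (P.adj_loc hr ?_)
        refine .path _ (by omega) (by omega) ?_
        intro hd
        rw [Nat.add_assoc, Nat.dvd_add_right (Dvd.intro _ rfl)] at hd
        exact absurd (Nat.le_of_dvd (by omega) hd) (by omega)
    have := key (i % P.K) hmod (by omega)
    rwa [hdiv] at this

end Par

end Pool.Agent.H68.OQP
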