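import Pool.Agent.H68.OQP.Data

/-!
The intended drawing: positions and the page certificate.
-/

namespace Pool.Agent.H68.OQP

namespace Par

variable (P : Par)

/-- major coordinate: T-vertex `i` at `2 i + 1`, gap `p` at `2 p` -/
def maj : Loc → ℕ
  | .t i => 2 * i + 1
  | .x c l => if c ≤ P.n + 1 then 2 * P.C l else 2 * P.C l - 2
  | .y i => 2 * P.C (P.jl i + 1) - 2
  | .z i => 2 * P.C (P.jl i + 1) - 2

/-- rank of a chain -/
def rk (σ : ℕ → ℕ) (S : ℕ) (c : ℕ) : ℕ :=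
  if c = 0 then 0 else if c ≤ P.n then σ (c - 1) + 1 else S + 1

open Classical in
/-- minor coordinate of the vertex `y i` -/
noncomputable def ym (σ : ℕ → ℕ) (i : ℕ) : ℕ :=
  if σ (P.q i).1 ≤ σ (P.q i).2.1 ∧ σ (P.q i).1 ≤ σ (P.q i).2.2 then 1 else 0

/-- minor coordinate -/
noncomputable def mi (σ : ℕ → ℕ) (S : ℕ) : Loc → ℕ
  | .t _ => 0
  | .x c l => if c ≤ P.n + 1 then (if l % 2 = 0 then P.rk σ S c else S + 1 - P.rk σ S c) else 2
  | .y i => P.ym σ i
  | .z i => 1 - P.ym σ i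

/-- position inside a copy -/
noncomputable def pos (σ : ℕ → ℕ) (S : ℕ) (v : Loc) : ℕ := P.maj v * (S + 3) + P.mi σ S v

variable {P} {σ : ℕ → ℕ} {S : ℕ}

theorem rk_le (hS : ∀ e < P.n, σ e + 1 ≤ S) (c : ℕ) : P.rk σ S c ≤ S + 1 := by
  unfold rk
  split_ifs with h1 h2
  · omega
  · have := hS (c - 1) (by omega)
    omega
  · exact le_rfl

theorem ym_le (i : ℕ) : P.ym σ i ≤ 1 := by
  unfold ym
  split_ifs <;> omega

theorem mi_lt (hS : ∀ e < P.n, σ e + 1 ≤ S) (v : Loc) : P.mi σ S v < S + 3 := by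
  cases v with
  | t i => simp only [mi]; omega
  | x c l =>
    have := rk_le hS c
    simp only [mi]
    split_ifs <;> omega
  | y i =>
    have := ym_le (P := P) (σ := σ) i
    simp only [mi]
    omega
  | z i =>
    simp only [mi]
    omega

theorem pos_lt (hS : ∀ e < P.n, σ e + 1 ≤ S) (u v : Loc) : P.pos σ S u < P.pos σ S v ↔
    (P.maj u < P.maj v ∨ (P.maj u = P.maj v ∧ P.mi σ S u < P.mi σ S v)) := by
  have h1 := mi_lt hS u
  have h2 := mi_lt hS v
  unfold pos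
  rcases lt_trichotomy (P.maj u) (P.maj v) with h | h | h
  · have : (P.maj u + 1) * (S + 3) ≤ P.maj v * (S + 3) := Nat.mul_le_mul_right _ h
    rw [Nat.add_mul, Nat.one_mul] at this
    constructor
    · intro _
      exact Or.inl h
    · intro _
      omega
  · rw [h]
    omega
  · have : (P.maj v + 1) * (S + 3) ≤ P.maj u * (S + 3) := Nat.mul_le_mul_right _ h
    rw [Nat.add_mul, Nat.one_mul] at this
    constructor
    · intro _
      omega
    · intro _
      omega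

theorem C_gap (l l' : ℕ) : l = l' ∨ (l < l' ∧ P.C l + (P.w + 2) ≤ P.C l') ∨
    (l' < l ∧ P.C l' + (P.w + 2) ≤ P.C l) := by
  rcases lt_trichotomy l l' with h | h | h
  · exact Or.inr (Or.inl ⟨h, P.C_lt h⟩)
  · exact Or.inl h
  · exact Or.inr (Or.inr ⟨h, P.C_lt h⟩)

theorem C_pos (l : ℕ) : 4 ≤ P.C l := by
  unfold C K
  nlinarith [Nat.zero_le (l * (P.w + 2)), Nat.zero_le (P.w * P.h)]

/-- edges between slots: `Tk a u v` starts at or after `T a` and ends at or before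
`T (a + K)` -/
inductive Tk (P : Par) : ℕ → Loc → Loc → Prop
  | spine (a : ℕ) : P.K ∣ a → Tk P a (.t a) (.t (a + P.K))
  | hop (a c l : ℕ) : c ≤ P.n + 1 → P.st c ≤ l → l < P.h → P.C l = a + 1 →
      Tk P a (.x c l) (.x c (l + 1))
  | lpin (a c : ℕ) : c ≤ P.n + 1 → a + P.K = P.C (P.st c) → Tk P a (.t a) (.x c (P.st c))
  | rpin (a c : ℕ) : c ≤ P.n + 1 → P.C P.h = a + 1 → Tk P a (.x c P.h) (.t (a + P.K))
  | shop (a l : ℕ) : P.w + 2 ≤ l → l + 1 < P.h → P.C l = a + 2 →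
      Tk P a (.x (P.n + 2) l) (.x (P.n + 2) (l + 1))
  | slpin (a : ℕ) : a + P.K + 1 = P.C (P.w + 2) → Tk P a (.t a) (.x (P.n + 2) (P.w + 2))
  | srpin (a l : ℕ) : l + 1 = P.h → P.C l = a + 2 → Tk P a (.x (P.n + 2) l) (.t (a + P.K))
  | cya (a i : ℕ) : i < P.M → P.C (P.jl i) = a + 2 → Tk P a (.x ((P.q i).2.1 + 1) (P.jl i)) (.y i)
  | cyc (a i : ℕ) : i < P.M → P.C (P.jl i) = a + 2 → Tk P a (.x ((P.q i).2.2 + 1) (P.jl i)) (.y i)
  | cz (a i : ℕ) : i < P.M → P.C (P.jl i) = a + 2 → Tk P a (.x ((P.q i).1 + 1) (P.jl i)) (.z i)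
  | yp (a i : ℕ) : i < P.M → P.C (P.jl i + 1) = a + 2 → Tk P a (.y i) (.t (a + P.K))
  | zp (a i : ℕ) : i < P.M → P.C (P.jl i + 1) = a + 2 → Tk P a (.z i) (.t (a + P.K))

/-- edges with their pages -/
inductive Kd (P : Par) : ℕ → Loc → Loc → Prop
  | slot (a : ℕ) (u v : Loc) : Tk P a u v → Kd P (a % P.K) u v
  | left (i j : ℕ) : j ≤ P.D → P.K ∣ j → i < j → j < i + P.K → Kd P 0 (.t i) (.t j)
  | right (i j : ℕ) : P.E ≤ i → P.K ∣ i → i < j → j < i + P.K → Kd P 0 (.t i) (.t j)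
  | path (i : ℕ) : P.D ≤ i → i < P.E → ¬ P.K ∣ (i + 1) → Kd P ((i + 2) % P.K) (.t i) (.t (i + 1))

theorem exists_kd {u v : Loc} (h : P.Lrel u v) : ∃ g < P.K, Kd P g u v := by
  have hK := P.Kpos
  have hKw : P.K = P.w + 3 := rfl
  have hmod : ∀ a, a % P.K < P.K := fun a => Nat.mod_lt _ hK
  have hslot : ∀ a u v, Tk P a u v → ∃ g < P.K, Kd P g u v := fun a u v h =>
    ⟨_, hmod a, .slot a u v h⟩
  cases h with
  | spine i h1 h2 => exact hslot _ _ _ (.spine i h1)
  | left i j h1 h2 h3 h4 => exact ⟨0, hK, .left i j h1 h2 h3 h4⟩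
  | right i j h1 h2 h3 h4 h5 => exact ⟨0, hK, .right i j h1 h2 h3 h4⟩
  | path i h1 h2 h3 => exact ⟨_, hmod _, .path i h1 h2 h3⟩
  | hop c l h1 h2 h3 =>
    have := P.C_pos l
    exact hslot _ _ _ (.hop (P.C l - 1) c l h1 h2 h3 (by omega))
  | lpin c i h1 h2 => exact hslot _ _ _ (.lpin i c h1 h2)
  | rpin c h1 =>
    have := P.C_pos P.h
    have h2 := P.Ch_eq
    have := Tk.rpin (P.C P.h - 1) c h1 (by omega)
    rw [show P.C P.h - 1 + P.K = P.E by omega] at this
    exact hslot _ _ _ this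
  | shop l h1 h2 =>
    have := P.C_pos l
    exact hslot _ _ _ (.shop (P.C l - 2) l h1 h2 (by omega))
  | slpin i h1 => exact hslot _ _ _ (.slpin i h1)
  | srpin l i h1 h2 =>
    have h3 := P.Ch_eq
    have h4 := P.C_succ l
    rw [h1] at h4
    have := Tk.srpin (P := P) (P.C l - 2) l h1 (by have := P.C_pos l; omega)
    rw [show P.C l - 2 + P.K = i by have := P.C_pos l; omega] at this
    exact hslot _ _ _ this
  | cya i h1 =>
    exact hslot _ _ _ (.cya (P.C (P.jl i) - 2) i h1 (by have := P.C_pos (P.jl i); omega))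
  | cyc i h1 =>
    exact hslot _ _ _ (.cyc (P.C (P.jl i) - 2) i h1 (by have := P.C_pos (P.jl i); omega))
  | cz i h1 =>
    exact hslot _ _ _ (.cz (P.C (P.jl i) - 2) i h1 (by have := P.C_pos (P.jl i); omega))
  | yp i h1 =>
    have h2 := P.C_pos (P.jl i + 1)
    have := Tk.yp (P.C (P.jl i + 1) - 2) i h1 (by omega)
    rw [show P.C (P.jl i + 1) - 2 + P.K = P.C (P.jl i + 1) + (P.w + 1) by omega] at this
    exact hslot _ _ _ this
  | zp i h1 =>
    have h2 := P.C_pos (P.jl i + 1)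
    have := Tk.zp (P.C (P.jl i + 1) - 2) i h1 (by omega)
    rw [show P.C (P.jl i + 1) - 2 + P.K = P.C (P.jl i + 1) + (P.w + 1) by omega] at this
    exact hslot _ _ _ this

theorem maj_x {c l : ℕ} (h : c ≤ P.n + 1) : P.maj (.x c l) = 2 * P.C l := by
  simp only [maj]
  rw [if_pos h]

theorem maj_s {l : ℕ} : P.maj (.x (P.n + 2) l) = 2 * P.C l - 2 := by
  simp only [maj]
  rw [if_neg (by omega)]

theorem Tk.bounds (hg : P.good) {a : ℕ} {u v : Loc} (h : Tk P a u v) :
    2 * a + 1 ≤ P.maj u ∧ P.maj u ≤ 2 * a + 4 ∧ 2 * (a + P.K) ≤ P.maj v ∧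
      P.maj v ≤ 2 * (a + P.K) + 1 := by
  have hKw : P.K = P.w + 3 := rfl
  cases h with
  | spine h => simp only [maj]; omega
  | hop c l h1 h2 h3 h4 =>
    rw [maj_x h1, maj_x h1, P.C_succ]
    omega
  | lpin c h1 h2 =>
    rw [maj_x h1]
    simp only [maj]
    omega
  | rpin c h1 h2 =>
    rw [maj_x h1]
    simp only [maj]
    omega
  | shop l h1 h2 h3 =>
    rw [maj_s, maj_s, P.C_succ]
    omega
  | slpin h1 =>
    rw [maj_s]
    simp only [maj]
    omega
  | srpin l h1 h2 =>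
    rw [maj_s]
    simp only [maj]
    omega
  | cya i h1 h2 =>
    have := hg i h1
    rw [maj_x (by omega)]
    simp only [maj, P.C_succ]
    omega
  | cyc i h1 h2 =>
    have := hg i h1
    rw [maj_x (by omega)]
    simp only [maj, P.C_succ]
    omega
  | cz i h1 h2 =>
    have := hg i h1
    rw [maj_x (by omega)]
    simp only [maj, P.C_succ]
    omega
  | yp i h1 h2 =>
    simp only [maj]
    omega
  | zp i h1 h2 =>
    simp only [maj]
    omega

/-- non-spine slots lie between the margins -/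
theorem Tk.between {a : ℕ} {u v : Loc} (h : Tk P a u v) :
    (P.K ∣ a ∧ u = .t a ∧ v = .t (a + P.K)) ∨ (P.D ≤ a ∧ a + P.K ≤ P.E) := by
  have hKw : P.K = P.w + 3 := rfl
  have hC0 := P.C_zero
  have hCh := P.Ch_eq
  cases h with
  | spine h => exact Or.inl ⟨h, rfl, rfl⟩
  | hop c l h1 h2 h3 h4 =>
    have h5 := P.C_le (Nat.zero_le l)
    have h6 := P.C_le h3.le
    right
    omega
  | lpin c h1 h2 =>
    have h3 := P.st_le (c := c)
    have h5 := P.C_le (Nat.zero_le (P.st c))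
    have h6 := P.C_le (show P.st c ≤ P.h by omega)
    right
    omega
  | rpin c h1 h2 =>
    have h5 := P.C_le (Nat.zero_le P.h)
    right
    omega
  | shop l h1 h2 h3 =>
    have h5 := P.C_le (Nat.zero_le l)
    have h6 := P.C_le (show l ≤ P.h by omega)
    right
    omega
  | slpin h1 =>
    have h3 := P.le_h
    have h5 := P.C_lt (show 0 < P.w + 2 by omega)
    have h6 := P.C_le (show P.w + 2 ≤ P.h by omega)
    right
    omega
  | srpin l h1 h2 =>
    have h5 := P.C_le (Nat.zero_le l)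
    have h6 := P.C_le (show l ≤ P.h by omega)
    right
    omega
  | cya i h1 h2 =>
    have h3 := P.jl_lt h1
    have h5 := P.C_le (Nat.zero_le (P.jl i))
    have h6 := P.C_le (show P.jl i ≤ P.h by omega)
    right
    omega
  | cyc i h1 h2 =>
    have h3 := P.jl_lt h1
    have h5 := P.C_le (Nat.zero_le (P.jl i))
    have h6 := P.C_le (show P.jl i ≤ P.h by omega)
    right
    omega
  | cz i h1 h2 =>
    have h3 := P.jl_lt h1
    have h5 := P.C_le (Nat.zero_le (P.jl i))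
    have h6 := P.C_le (show P.jl i ≤ P.h by omega)
    right
    omega
  | yp i h1 h2 =>
    have h3 := P.jl_lt h1
    have h5 := P.C_le (Nat.zero_le (P.jl i + 1))
    have h6 := P.C_le (show P.jl i + 1 ≤ P.h by omega)
    right
    omega
  | zp i h1 h2 =>
    have h3 := P.jl_lt h1
    have h5 := P.C_le (Nat.zero_le (P.jl i + 1))
    have h6 := P.C_le (show P.jl i + 1 ≤ P.h by omega)
    right
    omega

end Par

end Pool.Agent.H68.OQP
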