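import Pool.Agent.H68.OQP.Tight

/-!
Forcing: a drawing without large twists yields an order satisfying the constraints.
-/

namespace Pool.Agent.H68.OQP

namespace Frame

variable {V : Type*} {D : Dat V} (F : Frame D)

theorem rdx_mono {u v : V} (h : F.f u ≤ F.f v) : F.rdx v ≤ F.rdx u := by
  refine Finset.card_le_card (fun t ht => ?_)
  simp only [Finset.mem_filter] at ht ⊢
  exact ⟨ht.1, by omega, ht.2.2⟩

theorem lt_of_idx {u v : V} (h : F.idx u < F.idx v) : F.f u < F.f v := by
  by_contra hc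
  have := F.idx_mono (not_lt.1 hc)
  omega

theorem lt_T {t v : V} (ht : t ∈ D.TT) (hv : v ∈ D.ok) (hne : v ≠ t) (h : F.idx v ≤ F.idx t) :
    F.f v < F.f t := by
  rcases lt_trichotomy (F.f v) (F.f t) with h1 | h1 | h1
  · exact h1
  · exact absurd (F.inj v hv t (D.Tok t ht) h1) hne
  · have := F.idx_lt ht h1
    omega

theorem lip {u v : V} (hadj : D.G.Adj u v) (hv : F.inA v) :
    F.idx v ≤ F.idx u + D.K := by
  classical
  rcases lt_or_ge (F.f u) (F.f v) with h | h
  · have := F.edge_bound hadj h hv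
    split_ifs at this <;> omega
  · have := F.idx_mono h
    omega

theorem lip' {u v : V} (hadj : D.G.Adj u v) (hv : F.inA v) (hu : u ∉ D.TT) :
    F.idx v + 1 ≤ F.idx u + D.K := by
  classical
  have hK := D.hK
  rcases lt_or_ge (F.f u) (F.f v) with h | h
  · have := F.edge_bound hadj h hv
    rw [if_neg hu] at this
    omega
  · have := F.idx_mono h
    omega

/-- crossing of two edges with second start outside `TT` -/
theorem no_cross2 {u v u' v' : V} (h1 : D.G.Adj u v) (h2 : D.G.Adj u' v')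
    (a1 : F.f u < F.f u') (a2 : F.f u' < F.f v) (a3 : F.f v < F.f v') (hv : F.inA v')
    (hu' : u' ∉ D.TT) (h : D.K < F.idx v - F.idx u' + 2) : False := by
  classical
  have := F.cross2 h1 h2 a1 a2 a3 hv
  have h3 := F.idx_mono a2.le
  rw [if_neg hu'] at this
  omega

/-- three pairwise crossing edges with last start outside `TT` -/
theorem no_cross3 {u v u' v' u'' v'' : V} (h1 : D.G.Adj u v) (h2 : D.G.Adj u' v')
    (h3 : D.G.Adj u'' v'') (a1 : F.f u < F.f u') (a2 : F.f u' < F.f u'') (a3 : F.f u'' < F.f v)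
    (a4 : F.f v < F.f v') (a5 : F.f v' < F.f v'') (hv : F.inA v'') (hu' : u'' ∉ D.TT)
    (h : D.K < F.idx v - F.idx u'' + 3) : False := by
  classical
  have := F.cross3 h1 h2 h3 a1 a2 a3 a4 a5 hv
  have h4 := F.idx_mono a3.le
  rw [if_neg hu'] at this
  omega

end Frame

namespace Par

variable {P : Par} {hg : P.good}

theorem tt_mem {r i : ℕ} (hr : r < P.R) (hi : i ≤ P.N) : Vt.c r (.t i) ∈ (P.dat hg).TT := by
  refine Finset.mem_image.2 ⟨(r, i), ?_, rfl⟩
  rw [Finset.mem_product, Finset.mem_range, Finset.mem_range]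
  exact ⟨hr, by simp only; omega⟩

theorem c_notB {r : ℕ} {v : Loc} : Vt.c r v ∉ (P.dat hg).BB := by
  intro h
  obtain ⟨i, _, h⟩ := Finset.mem_image.1 h
  exact absurd h (by simp)

theorem c_notT {r : ℕ} {v : Loc} (hv : ∀ i, v ≠ .t i) : Vt.c r v ∉ (P.dat hg).TT := by
  intro h
  obtain ⟨⟨r', i⟩, _, h⟩ := Finset.mem_image.1 h
  simp only [Vt.c.injEq] at h
  exact hv i h.2.symm

theorem x_notT {r c l : ℕ} : Vt.c r (.x c l) ∉ (P.dat hg).TT := c_notT (by simp)

theorem y_notT {r i : ℕ} : Vt.c r (.y i) ∉ (P.dat hg).TT := c_notT (by simp)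

theorem z_notT {r i : ℕ} : Vt.c r (.z i) ∉ (P.dat hg).TT := c_notT (by simp)

/-- an oriented frame with a good copy -/
structure Ori (P : Par) (hg : P.good) where
  F : Frame (P.dat hg)
  r : ℕ
  hr : r < P.R
  hA : ∀ i ≤ P.N, F.inA (.c r (.t i))
  hL : ∀ i ≤ P.N, P.K ≤ F.idx (.c r (.t i))
  hR : ∀ i ≤ P.N, P.K ≤ F.rdx (.c r (.t i))
  I : ℤ
  hI : ∀ p, 1 ≤ p → p + 1 ≤ P.m → (F.idx (.c r (.t (P.K * p))) : ℤ) = I + P.K * p

theorem exists_ori (P : Par) (hg : P.good) (f : Vt → ℕ)
    (hinj : ∀ u v, P.ok u → P.ok v → f u = f v → u = v)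
    (hN : NoTw P.G f P.K) : Nonempty (Ori P hg) := by
  classical
  -- bound
  obtain ⟨M, hM⟩ : ∃ M, ∀ v ∈ (P.dat hg).ok, f v < M := by
    have hfin : (P.dat hg).ok.Finite := by
      let S : Finset Loc := (Finset.range (P.N + 1)).image Loc.t ∪
        ((Finset.range (P.n + 3) ×ˢ Finset.range (P.h + 1)).image (fun p => Loc.x p.1 p.2)) ∪
        (Finset.range P.M).image Loc.y ∪ (Finset.range P.M).image Loc.z
      refine Set.Finite.subset (Finset.finite_toSet ((Finset.range P.K).image Vt.b ∪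
        (Finset.range P.R ×ˢ S).image (fun p => Vt.c p.1 p.2))) ?_
      intro v hv
      rw [Finset.mem_coe, Finset.mem_union]
      change P.ok v at hv
      cases v with
      | b i => exact Or.inl (Finset.mem_image.2 ⟨i, Finset.mem_range.2 hv, rfl⟩)
      | c r v =>
        refine Or.inr (Finset.mem_image.2 ⟨(r, v), ?_, rfl⟩)
        rw [Finset.mem_product]
        refine ⟨Finset.mem_range.2 hv.1, ?_⟩
        have h2 := hv.2
        simp only [S, Finset.mem_union, Finset.mem_image, Finset.mem_range, Finset.mem_product,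
          Prod.exists]
        cases v with
        | t i => exact Or.inl (Or.inl (Or.inl ⟨i, Nat.lt_succ_of_le h2, rfl⟩))
        | x c l => exact Or.inl (Or.inl (Or.inr ⟨c, l, ⟨Nat.lt_succ_of_le h2.1,
            Nat.lt_succ_of_le h2.2⟩, rfl⟩))
        | y i => exact Or.inl (Or.inr ⟨i, h2, rfl⟩)
        | z i => exact Or.inr ⟨i, h2, rfl⟩
    obtain ⟨M, hM⟩ := (hfin.image f).bddAbove
    refine ⟨M + 1, fun v hv => ?_⟩
    exact Nat.lt_succ_of_le (hM ⟨v, hv, rfl⟩)
  obtain ⟨F, r, hr, hF⟩ := good_copy (P.dat hg) f M (fun u hu v hv h => hinj u v hu hv h) hM hN P.R P.N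
    (by
      change 2 * P.K * P.K < 2 * P.K * P.K + 1
      omega) (fun r i => .c r (.t i)) (fun r hr i hi => tt_mem hr hi)
    (fun r _ r' _ i _ i' _ h => by injection h) (fun r hr Q h0 hQ => P.T_conn hr Q h0 hQ)
  have hok : ∀ i ≤ P.N, Vt.c r (.t i) ∈ (P.dat hg).ok := fun i hi =>
    (P.dat hg).Tok _ (tt_mem hr hi)
  have hlip : ∀ i j, i ≤ P.N → j ≤ P.N → P.Lrel (.t i) (.t j) →
      |(F.idx (.c r (.t i)) : ℤ) - F.idx (.c r (.t j))| ≤ P.K := by
    intro i j hi hj h
    have hadj := P.adj_loc hr h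
    have h1 := F.lip hadj (hF j hj).1
    have h2 := F.lip hadj.symm (hF i hi).1
    have hKK : (P.dat hg).K = P.K := rfl
    rw [hKK] at h1 h2
    rw [abs_le]
    constructor <;> omega
  obtain ⟨I, hI⟩ := tight (P := P) (fun i => (F.idx (.c r (.t i)) : ℤ)) (by
    intro i hi j hj h
    simp only [Nat.cast_inj] at h
    have hti := tt_mem (hg := hg) hr hi
    have htj := tt_mem (hg := hg) hr hj
    have : Vt.c r (.t i) = Vt.c r (.t j) := by
      rcases lt_trichotomy (F.f (.c r (.t i))) (F.f (.c r (.t j))) with h1 | h1 | h1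
      · have := F.idx_lt hti h1
        omega
      · exact F.inj _ (hok i hi) _ (hok j hj) h1
      · have := F.idx_lt htj h1
        omega
    injection this with _ h2
    injection h2) hlip
  rcases hI with hI | hI
  · exact ⟨⟨F, r, hr, fun i hi => (hF i hi).1, fun i hi => (hF i hi).2.1,
      fun i hi => (hF i hi).2.2, I, hI⟩⟩
  · obtain ⟨F', h1, h2, h3⟩ := F.exists_refl
    refine ⟨⟨F', r, hr, fun i hi => (h1 _ (hok i hi)).2 (hF i hi).1, ?_, ?_,
      ((P.dat hg).TT.filter (fun t => F.f t < F.f (F.β 0))).card - 1 - I, ?_⟩⟩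
    · intro i hi
      rw [(h2 _ (hok i hi) (hF i hi).1).1]
      exact (hF i hi).2.2
    · intro i hi
      rw [(h2 _ (hok i hi) (hF i hi).1).2]
      exact (hF i hi).2.1
    · intro p hp hp'
      have hpN : P.K * p ≤ P.N := by
        rw [P.N_eq']
        exact Nat.mul_le_mul_left _ (by omega)
      rw [(h2 _ (hok _ hpN) (hF _ hpN).1).1]
      have h4 := F.idx_rdx (tt_mem (hg := hg) hr hpN) (hF _ hpN).1
      have h5 := hI p hp hp'
      have h6 : ((F.idx (.c r (.t (P.K * p))) : ℤ) + 1 + F.rdx (.c r (.t (P.K * p)))) =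
          ((P.dat hg).TT.filter (fun t => F.f t < F.f (F.β 0))).card := by
        exact_mod_cast h4
      linarith

end Par

end Pool.Agent.H68.OQP
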