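import Pool.Agent.H68.OQP.Twist

/-!
Frames: a linear reading of a circular order without large twists.
-/

namespace Pool.Agent.H68.OQP

/-- the graph data used by the forcing argument -/
structure Dat (V : Type*) where
  G : SimpleGraph V
  K : ℕ
  ok : Set V
  BB : Finset V
  TT : Finset V
  hK : 3 ≤ K
  adj_ok : ∀ u v, G.Adj u v → u ∈ ok ∧ v ∈ ok
  Bok : ∀ v ∈ BB, v ∈ ok
  Tok : ∀ v ∈ TT, v ∈ ok
  Bcard : BB.card = K
  disj : ∀ v ∈ TT, v ∉ BB
  TB : ∀ t ∈ TT, ∀ b ∈ BB, G.Adj t b

/-- a linear reading -/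
structure Frame {V : Type*} (D : Dat V) where
  f : V → ℕ
  Mx : ℕ
  inj : ∀ u ∈ D.ok, ∀ v ∈ D.ok, f u = f v → u = v
  lt : ∀ v ∈ D.ok, f v < Mx
  β : ℕ → V
  βmem : ∀ i < D.K, β i ∈ D.BB
  βlt : ∀ i j, i < j → j < D.K → f (β i) < f (β j)
  last : ∀ v ∈ D.ok, f v ≤ f (β (D.K - 1))
  first : ∀ v ∈ D.BB, f (β 0) ≤ f v
  notw : NoTw D.G f D.K

namespace Frame

variable {V : Type*} {D : Dat V} (F : Frame D)

/-- number of T-vertices before `v` -/
def idx (v : V) : ℕ := (D.TT.filter (fun t => F.f t < F.f v)).card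

/-- the first arc -/
def inA (v : V) : Prop := F.f v < F.f (F.β 0)

/-- number of T-vertices after `v` in the first arc -/
def rdx (v : V) : ℕ := (D.TT.filter (fun t => F.f v < F.f t ∧ F.f t < F.f (F.β 0))).card

theorem idx_mono {u v : V} (h : F.f u ≤ F.f v) : F.idx u ≤ F.idx v := by
  refine Finset.card_le_card (fun t ht => ?_)
  simp only [Finset.mem_filter] at ht ⊢
  exact ⟨ht.1, by omega⟩

open Classical in
theorem idx_split {u v : V} (hu : u ∈ D.ok) (h : F.f u < F.f v) :
    F.idx v = F.idx u + (if u ∈ D.TT then 1 else 0) +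
      (D.TT.filter (fun t => F.f u < F.f t ∧ F.f t < F.f v)).card := by
  unfold idx
  have hsub : D.TT.filter (fun t => F.f t < F.f v) =
      (D.TT.filter (fun t => F.f t < F.f u)) ∪ (D.TT.filter (fun t => t = u)) ∪
      (D.TT.filter (fun t => F.f u < F.f t ∧ F.f t < F.f v)) := by
    ext t
    simp only [Finset.mem_filter, Finset.mem_union]
    constructor
    · rintro ⟨h1, h2⟩
      rcases lt_trichotomy (F.f t) (F.f u) with h3 | h3 | h3
      · exact Or.inl (Or.inl ⟨h1, h3⟩)
      · exact Or.inl (Or.inr ⟨h1, F.inj t (D.Tok t h1) u hu h3⟩)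
      · exact Or.inr ⟨h1, h3, h2⟩
    · rintro ((⟨h1, h2⟩ | ⟨h1, rfl⟩) | ⟨h1, h2, h3⟩)
      · exact ⟨h1, by omega⟩
      · exact ⟨h1, h⟩
      · exact ⟨h1, h3⟩
  rw [hsub, Finset.card_union_of_disjoint, Finset.card_union_of_disjoint]
  · congr 1
    congr 1
    by_cases hT : u ∈ D.TT
    · rw [if_pos hT, Finset.card_eq_one]
      refine ⟨u, ?_⟩
      ext t
      simp only [Finset.mem_filter, Finset.mem_singleton]
      constructor
      · exact fun h => h.2
      · rintro rfl
        exact ⟨hT, rfl⟩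
    · rw [if_neg hT, Finset.card_eq_zero]
      ext t
      simp only [Finset.mem_filter, Finset.notMem_empty, iff_false, not_and]
      rintro h1 rfl
      exact hT h1
  · rw [Finset.disjoint_left]
    intro t h1 h2
    simp only [Finset.mem_filter] at h1 h2
    rw [h2.2] at h1
    omega
  · rw [Finset.disjoint_left]
    intro t h1 h2
    simp only [Finset.mem_filter, Finset.mem_union] at h1 h2
    rcases h1 with h1 | h1
    · omega
    · rw [h1.2] at h2
      omega

theorem TTinj : ∀ u ∈ D.TT, ∀ v ∈ D.TT, F.f u = F.f v → u = v :=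
  fun u hu v hv h => F.inj u (D.Tok u hu) v (D.Tok v hv) h

theorem TBβ : ∀ t ∈ D.TT, ∀ i < D.K, D.G.Adj t (F.β i) :=
  fun t ht i hi => D.TB t ht _ (F.βmem i hi)

theorem Kpos (D : Dat V) : 0 < D.K := lt_of_lt_of_le (by norm_num) D.hK

/-- neighbours of deep vertices stay in the first arc -/
theorem nbr {u w : V} (hadj : D.G.Adj u w) (hu : F.inA u) (hL : D.K ≤ F.idx u)
    (hR : D.K ≤ F.rdx u) (hw : w ∉ D.BB) : F.inA w := by
  have : Nonempty V := ⟨u⟩
  refine nbr_in F.notw F.β F.βlt D.TT F.TBβ F.TTinj hadj hL hR hu ?_ (Kpos D)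
  intro i hi heq
  exact hw (F.inj w (D.adj_ok _ _ hadj).2 _ (D.Bok _ (F.βmem i hi)) heq ▸ F.βmem i hi)

open Classical in
theorem es_bound (es : List (V × V)) (hes : es ≠ []) (hadj : ∀ e ∈ es, D.G.Adj e.1 e.2)
    (hp : es.Pairwise (Cross F.f)) (u v : V) (hu : u ∈ D.ok) (huv : F.f u < F.f v)
    (h : ∀ e ∈ es, F.f e.1 ≤ F.f u ∧ F.f v ≤ F.f e.2 ∧ F.inA e.2) :
    es.length + F.idx v ≤ D.K + F.idx u + (if u ∈ D.TT then 1 else 0) := by
  have : Nonempty V := ⟨u⟩
  have := mid F.notw F.β F.βlt D.TT F.TBβ F.TTinj es hes hadj hp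
    (D.TT.filter (fun t => F.f u < F.f t ∧ F.f t < F.f v)) (by
      intro s hs
      simp only [Finset.mem_filter] at hs
      refine ⟨hs.1, fun e he => ?_⟩
      have h1 := h e he
      unfold inA at h1
      omega)
  have h2 := F.idx_split hu huv
  omega

open Classical in
/-- an edge inside the first arc passes at most `K - 1` T-vertices -/
theorem edge_bound {u v : V} (hadj : D.G.Adj u v) (huv : F.f u < F.f v) (hv : F.inA v) :
    1 + F.idx v ≤ D.K + F.idx u + (if u ∈ D.TT then 1 else 0) := by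
  have := F.es_bound [(u, v)] (by simp) (by simpa using hadj) (by simp) u v
    (D.adj_ok _ _ hadj).1 huv (by simpa using hv)
  simpa using this

open Classical in
/-- two crossing edges -/
theorem cross2 {u v u' v' : V} (h1 : D.G.Adj u v) (h2 : D.G.Adj u' v') (a1 : F.f u < F.f u')
    (a2 : F.f u' < F.f v) (a3 : F.f v < F.f v') (hv : F.inA v') :
    2 + F.idx v ≤ D.K + F.idx u' + (if u' ∈ D.TT then 1 else 0) := by
  have := F.es_bound [(u, v), (u', v')] (by simp) (by simp [h1, h2])
    (by simpa using cross_of a1 a2 a3) u' v (D.adj_ok _ _ h2).1 a2 (by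
      unfold inA at *
      simp only [List.mem_cons, List.not_mem_nil, or_false, forall_eq_or_imp, forall_eq]
      omega)
  simpa using this

open Classical in
/-- three pairwise crossing edges -/
theorem cross3 {u v u' v' u'' v'' : V} (h1 : D.G.Adj u v) (h2 : D.G.Adj u' v')
    (h3 : D.G.Adj u'' v'') (a1 : F.f u < F.f u') (a2 : F.f u' < F.f u'') (a3 : F.f u'' < F.f v)
    (a4 : F.f v < F.f v') (a5 : F.f v' < F.f v'') (hv : F.inA v'') :
    3 + F.idx v ≤ D.K + F.idx u'' + (if u'' ∈ D.TT then 1 else 0) := by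
  have := F.es_bound [(u, v), (u', v'), (u'', v'')] (by simp) (by simp [h1, h2, h3])
    (by
      simp only [List.pairwise_cons, List.mem_cons, List.not_mem_nil, or_false,
        forall_eq_or_imp, forall_eq, IsEmpty.forall_iff, implies_true, List.Pairwise.nil,
        and_true]
      exact ⟨⟨cross_of (by omega) (by omega) (by omega), cross_of (by omega) (by omega)
        (by omega)⟩, cross_of (by omega) (by omega) (by omega)⟩) u'' v
    (D.adj_ok _ _ h3).1 a3 (by
      unfold inA at *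
      simp only [List.mem_cons, List.not_mem_nil, or_false, forall_eq_or_imp, forall_eq]
      omega)
  simpa using this

end Frame

end Pool.Agent.H68.OQP
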