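import Pool.Agent.H68.OQP.Frame

/-!
Construction of frames (rotations and reflections) and the choice of a good copy.
-/

namespace Pool.Agent.H68.OQP

theorem NoTw.map {V : Type*} {G : SimpleGraph V} {f f' : V → ℕ} {K : ℕ} (ok : Set V)
    (hok : ∀ u v, G.Adj u v → u ∈ ok ∧ v ∈ ok)
    (hc : ∀ u ∈ ok, ∀ v ∈ ok, ∀ u' ∈ ok, ∀ v' ∈ ok, Cross f' (u, v) (u', v') →
      Cross f (u, v) (u', v')) (h : NoTw G f K) : NoTw G f' K := by
  rintro ⟨e, he, hx⟩
  refine h ⟨e, he, fun i j hij => ?_⟩
  exact hc _ (hok _ _ (he i)).1 _ (hok _ _ (he i)).2 _ (hok _ _ (he j)).1 _ (hok _ _ (he j)).2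
    (hx i j hij)

/-- rotation: everything up to `c` is moved to the end -/
def rot (M c x : ℕ) : ℕ := if c < x then x else x + M

/-- reflection keeping the first arc (values below `c`) first -/
def refl (M c x : ℕ) : ℕ := if x < c then c - 1 - x else c + (M - 1 - x)

theorem cross_rot {V : Type*} {f : V → ℕ} {M c : ℕ} {u v u' v' : V} (h1 : f u < M)
    (h2 : f v < M) (h3 : f u' < M) (h4 : f v' < M)
    (h : Cross (fun v => rot M c (f v)) (u, v) (u', v')) : Cross f (u, v) (u', v') := by
  unfold Cross rot at *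
  simp only at *
  split_ifs at h <;> omega

theorem cross_refl {V : Type*} {f : V → ℕ} {M c : ℕ} {u v u' v' : V} (h1 : f u < M)
    (h2 : f v < M) (h3 : f u' < M) (h4 : f v' < M)
    (h : Cross (fun v => refl M c (f v)) (u, v) (u', v')) : Cross f (u, v) (u', v') := by
  unfold Cross refl at *
  simp only at *
  split_ifs at h <;> omega

/-- sorted enumeration of `BB` -/
theorem enumB {V : Type*} (D : Dat V) (f : V → ℕ)
    (hinj : ∀ u ∈ D.ok, ∀ v ∈ D.ok, f u = f v → u = v) :
    ∃ β : ℕ → V, (∀ i < D.K, β i ∈ D.BB) ∧ (∀ i j, i < j → j < D.K → f (β i) < f (β j)) ∧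
      ∀ b ∈ D.BB, ∃ i < D.K, β i = b := by
  classical
  have hne : D.BB.Nonempty := by
    rw [← Finset.card_pos, D.Bcard]
    exact Frame.Kpos D
  have : Nonempty V := ⟨hne.choose⟩
  obtain ⟨β, h1, h2⟩ := enum (f := f) D.BB
    (fun u hu v hv h => hinj u (D.Bok u hu) v (D.Bok v hv) h) D.K D.Bcard.ge
  refine ⟨β, h1, h2, ?_⟩
  have himg : (Finset.range D.K).image β = D.BB := by
    refine Finset.eq_of_subset_of_card_le ?_ ?_
    · intro v hv
      obtain ⟨i, hi, rfl⟩ := Finset.mem_image.1 hv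
      exact h1 i (Finset.mem_range.1 hi)
    · rw [Finset.card_image_of_injOn, Finset.card_range, D.Bcard]
      intro i hi j hj hij
      have hi' := Finset.mem_range.1 (Finset.mem_coe.1 hi)
      have hj' := Finset.mem_range.1 (Finset.mem_coe.1 hj)
      rcases lt_trichotomy i j with h | h | h
      · have := h2 i j h hj'
        rw [hij] at this
        omega
      · exact h
      · have := h2 j i h hi'
        rw [hij] at this
        omega
  intro b hb
  rw [← himg] at hb
  obtain ⟨i, hi, rfl⟩ := Finset.mem_image.1 hb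
  exact ⟨i, Finset.mem_range.1 hi, rfl⟩

/-- the frame that starts just after `b` -/
theorem exists_rot {V : Type*} (D : Dat V) (f : V → ℕ) (M : ℕ)
    (hinj : ∀ u ∈ D.ok, ∀ v ∈ D.ok, f u = f v → u = v) (hM : ∀ v ∈ D.ok, f v < M)
    (hN : NoTw D.G f D.K) (b : V) (hb : b ∈ D.BB) :
    ∃ F : Frame D, F.f = fun v => rot M (f b) (f v) := by
  have hinj' : ∀ u ∈ D.ok, ∀ v ∈ D.ok, rot M (f b) (f u) = rot M (f b) (f v) → u = v := by
    intro u hu v hv h
    have h1 := hM u hu
    have h2 := hM v hv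
    unfold rot at h
    refine hinj u hu v hv ?_
    split_ifs at h <;> omega
  obtain ⟨β, h1, h2, h3⟩ := enumB D (fun v => rot M (f b) (f v)) hinj'
  have hKp := Frame.Kpos D
  refine ⟨⟨fun v => rot M (f b) (f v), 2 * M, hinj', ?_, β, h1, h2, ?_, ?_, ?_⟩, rfl⟩
  · intro v hv
    have := hM v hv
    unfold rot
    split_ifs <;> omega
  · intro v hv
    obtain ⟨i, hi, hib⟩ := h3 b hb
    have hv' := hM v hv
    have hlast : rot M (f b) (f b) ≤ rot M (f b) (f (β (D.K - 1))) := by
      rcases Nat.eq_or_lt_of_le (show i ≤ D.K - 1 by omega) with h | h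
      · rw [← h, hib]
      · have := h2 i (D.K - 1) h (by omega)
        simp only [hib] at this
        exact this.le
    refine le_trans ?_ hlast
    simp only [rot, lt_irrefl, if_false]
    split_ifs <;> omega
  · intro v hv
    obtain ⟨i, hi, rfl⟩ := h3 v hv
    rcases Nat.eq_zero_or_pos i with h | h
    · rw [h]
    · exact (h2 0 i h hi).le
  · refine hN.map D.ok D.adj_ok ?_
    intro u hu v hv u' hu' v' hv' h
    exact cross_rot (hM u hu) (hM v hv) (hM u' hu') (hM v' hv') h

/-- every vertex outside `BB` lies in the first arc of one of the rotations -/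
theorem cover {V : Type*} (D : Dat V) (f : V → ℕ) (M : ℕ)
    (hinj : ∀ u ∈ D.ok, ∀ v ∈ D.ok, f u = f v → u = v) (hM : ∀ v ∈ D.ok, f v < M)
    (Fr : V → Frame D) (hFr : ∀ b ∈ D.BB, (Fr b).f = fun v => rot M (f b) (f v))
    (v : V) (hv : v ∈ D.ok) (hvB : v ∉ D.BB) : ∃ b ∈ D.BB, (Fr b).inA v := by
  classical
  have hne : D.BB.Nonempty := by
    rw [← Finset.card_pos, D.Bcard]
    exact Frame.Kpos D
  have hvne : ∀ b ∈ D.BB, f b ≠ f v := fun b hb h => hvB (hinj b (D.Bok b hb) v hv h ▸ hb)
  have hvM := hM v hv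
  by_cases hex : (D.BB.filter (fun b => f b < f v)).Nonempty
  · obtain ⟨b, hb, hmax⟩ := Finset.exists_max_image _ f hex
    rw [Finset.mem_filter] at hb
    refine ⟨b, hb.1, ?_⟩
    unfold Frame.inA
    have hb0 := (Fr b).βmem 0 (Frame.Kpos D)
    rw [hFr b hb.1]
    simp only
    have h1 := hvne _ hb0
    have h2 := hM _ (D.Bok _ hb0)
    have h3 : f ((Fr b).β 0) < f v → f ((Fr b).β 0) ≤ f b := fun h =>
      hmax _ (Finset.mem_filter.2 ⟨hb0, h⟩)
    unfold rot
    split_ifs <;> omega
  · obtain ⟨b, hb, hmax⟩ := Finset.exists_max_image _ f hne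
    refine ⟨b, hb, ?_⟩
    unfold Frame.inA
    have hb0 := (Fr b).βmem 0 (Frame.Kpos D)
    rw [hFr b hb]
    simp only
    rw [Finset.not_nonempty_iff_eq_empty, Finset.filter_eq_empty_iff] at hex
    have h1 := hex hb0
    have h2 := hex hb
    have h3 := hmax _ hb0
    have h4 := hvne b hb
    have h5 := hvne _ hb0
    unfold rot
    split_ifs <;> omega

namespace Frame

variable {V : Type*} {D : Dat V} (F : Frame D)

theorem idx_lt {u v : V} (hu : u ∈ D.TT) (h : F.f u < F.f v) : F.idx u < F.idx v := by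
  refine Finset.card_lt_card ⟨?_, ?_⟩
  · intro t ht
    simp only [Finset.mem_filter] at ht ⊢
    exact ⟨ht.1, by omega⟩
  · intro hsub
    have : u ∈ D.TT.filter (fun t => F.f t < F.f v) := by
      simp only [Finset.mem_filter]
      exact ⟨hu, h⟩
    have := hsub this
    simp only [Finset.mem_filter, lt_irrefl, and_false] at this

theorem rdx_lt {u v : V} (hv : v ∈ D.TT) (h : F.f u < F.f v) (hA : F.inA v) :
    F.rdx v < F.rdx u := by
  refine Finset.card_lt_card ⟨?_, ?_⟩
  · intro t ht
    simp only [Finset.mem_filter] at ht ⊢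
    exact ⟨ht.1, by omega, ht.2.2⟩
  · intro hsub
    have : v ∈ D.TT.filter (fun t => F.f u < F.f t ∧ F.f t < F.f (F.β 0)) := by
      simp only [Finset.mem_filter]
      exact ⟨hv, h, hA⟩
    have := hsub this
    simp only [Finset.mem_filter, lt_irrefl, false_and, and_false] at this

/-- T-vertices of the first arc that are too close to its ends -/
noncomputable def nonDeep : Finset V := by
  classical
  exact D.TT.filter (fun t => F.inA t ∧ (F.idx t < D.K ∨ F.rdx t < D.K))

/-- the reflected frame -/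
theorem exists_refl : ∃ F' : Frame D, (∀ v ∈ D.ok, (F'.inA v ↔ F.inA v)) ∧
    (∀ v ∈ D.ok, F.inA v → F'.idx v = F.rdx v ∧ F'.rdx v = F.idx v) ∧
    ∀ u ∈ D.ok, ∀ v ∈ D.ok, F.inA u → F.inA v → (F'.f u < F'.f v ↔ F.f v < F.f u) := by
  have hKp := Kpos D
  have hβ0 := F.lt _ (D.Bok _ (F.βmem 0 hKp))
  have hβ1 := F.lt _ (D.Bok _ (F.βmem (D.K - 1) (by omega)))
  have hβ01 : F.f (F.β 0) < F.f (F.β (D.K - 1)) := F.βlt 0 (D.K - 1) (by have := D.hK; omega)
    (by omega)
  let f' : V → ℕ := fun v => refl F.Mx (F.f (F.β 0)) (F.f v)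
  let F' : Frame D := {
    f := f'
    Mx := F.f (F.β 0) + F.Mx
    inj := by
      intro u hu v hv h
      have h1 := F.lt u hu
      have h2 := F.lt v hv
      simp only [f', refl] at h
      refine F.inj u hu v hv ?_
      split_ifs at h <;> omega
    lt := by
      intro v hv
      have := F.lt v hv
      simp only [f', refl]
      split_ifs <;> omega
    β := fun i => F.β (D.K - 1 - i)
    βmem := fun i hi => F.βmem _ (by omega)
    βlt := by
      intro i j hij hj
      have h1 := F.βlt (D.K - 1 - j) (D.K - 1 - i) (by omega) (by omega)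
      have h2 := F.first _ (F.βmem (D.K - 1 - j) (by omega))
      have h3 := F.lt _ (D.Bok _ (F.βmem (D.K - 1 - i) (by omega)))
      simp only [f', refl]
      split_ifs <;> omega
    last := by
      intro v hv
      have h1 := F.lt v hv
      have h4 : D.K - 1 - (D.K - 1) = 0 := by omega
      simp only [f', refl, h4]
      split_ifs <;> omega
    first := by
      intro v hv
      have h1 := F.lt v (D.Bok v hv)
      have h2 := F.last v (D.Bok v hv)
      have h3 := F.first v hv
      simp only [f', refl, Nat.sub_zero]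
      split_ifs <;> omega
    notw := by
      refine F.notw.map D.ok D.adj_ok ?_
      intro u hu v hv u' hu' v' hv' h
      exact cross_refl (F.lt u hu) (F.lt v hv) (F.lt u' hu') (F.lt v' hv') h }
  have hA : ∀ v ∈ D.ok, (F'.inA v ↔ F.inA v) := by
    intro v hv
    have h1 := F.lt v hv
    have h2 := F.last v hv
    change refl F.Mx (F.f (F.β 0)) (F.f v) < refl F.Mx (F.f (F.β 0)) (F.f (F.β (D.K - 1 - 0))) ↔
      F.f v < F.f (F.β 0)
    rw [Nat.sub_zero]
    unfold refl
    split_ifs <;> omega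
  have hlt : ∀ u ∈ D.ok, ∀ v ∈ D.ok, F.inA v → (F'.f u < F'.f v ↔ (F.inA u ∧ F.f v < F.f u)) := by
    intro u hu v hv hv'
    have h1 := F.lt v hv
    have h2 := F.lt u hu
    change refl F.Mx (F.f (F.β 0)) (F.f u) < refl F.Mx (F.f (F.β 0)) (F.f v) ↔ _
    unfold inA at *
    unfold refl
    split_ifs <;> omega
  refine ⟨F', hA, ?_, ?_⟩
  · intro v hv hv'
    constructor
    · unfold idx rdx
      congr 1
      ext t
      simp only [Finset.mem_filter, and_congr_right_iff]
      intro ht
      rw [hlt t (D.Tok t ht) v hv hv']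
      unfold inA
      tauto
    · unfold idx rdx
      congr 1
      ext t
      simp only [Finset.mem_filter, and_congr_right_iff]
      intro ht
      have h1 := hA t (D.Tok t ht)
      unfold inA at h1 hv' hlt
      rw [h1]
      constructor
      · rintro ⟨h2, h3⟩
        exact ((hlt v hv t (D.Tok t ht) h3).1 h2).2
      · intro h2
        exact ⟨(hlt v hv t (D.Tok t ht) (by omega)).2 ⟨hv', h2⟩, by omega⟩
  · intro u hu v hv hu' hv'
    rw [hlt u hu v hv hv']
    tauto

theorem idx_rdx {t : V} (ht : t ∈ D.TT) (hA : F.inA t) :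
    F.idx t + 1 + F.rdx t = (D.TT.filter (fun t => F.f t < F.f (F.β 0))).card := by
  have := F.idx_split (D.Tok t ht) hA
  unfold idx at this ⊢
  rw [this, if_pos ht]
  rfl

theorem nonDeep_card : F.nonDeep.card ≤ 2 * D.K := by
  classical
  have hsub : F.nonDeep ⊆ D.TT.filter (fun t => F.idx t < D.K) ∪
      D.TT.filter (fun t => F.inA t ∧ F.rdx t < D.K) := by
    intro t ht
    simp only [nonDeep, Finset.mem_filter, Finset.mem_union] at ht ⊢
    tauto
  have h1 : (D.TT.filter (fun t => F.idx t < D.K)).card ≤ D.K := by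
    have := Finset.card_le_card_of_injOn (s := D.TT.filter (fun t => F.idx t < D.K))
      (t := Finset.range D.K) F.idx (fun t ht => by
        simp only [Finset.coe_filter, Set.mem_ofPred_eq] at ht
        exact Finset.mem_coe.2 (Finset.mem_range.2 ht.2)) (by
        intro u hu v hv huv
        simp only [Finset.coe_filter, Set.mem_ofPred_eq] at hu hv
        rcases lt_trichotomy (F.f u) (F.f v) with h | h | h
        · have := F.idx_lt hu.1 h
          omega
        · exact F.TTinj u hu.1 v hv.1 h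
        · have := F.idx_lt hv.1 h
          omega)
    simpa using this
  have h2 : (D.TT.filter (fun t => F.inA t ∧ F.rdx t < D.K)).card ≤ D.K := by
    have := Finset.card_le_card_of_injOn (s := D.TT.filter (fun t => F.inA t ∧ F.rdx t < D.K))
      (t := Finset.range D.K) F.rdx (fun t ht => by
        simp only [Finset.coe_filter, Set.mem_ofPred_eq] at ht
        exact Finset.mem_coe.2 (Finset.mem_range.2 ht.2.2)) (by
        intro u hu v hv huv
        simp only [Finset.coe_filter, Set.mem_ofPred_eq] at hu hv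
        rcases lt_trichotomy (F.f u) (F.f v) with h | h | h
        · have := F.rdx_lt hv.1 h hv.2.1
          omega
        · exact F.TTinj u hu.1 v hv.1 h
        · have := F.rdx_lt hu.1 h hu.2.1
          omega)
    simpa using this
  calc F.nonDeep.card ≤ _ := Finset.card_le_card hsub
    _ ≤ _ := Finset.card_union_le _ _
    _ ≤ 2 * D.K := by omega

end Frame

/-- choice of a frame and of a good copy -/
theorem good_copy {V : Type*} (D : Dat V) (f : V → ℕ) (M : ℕ)
    (hinj : ∀ u ∈ D.ok, ∀ v ∈ D.ok, f u = f v → u = v) (hM : ∀ v ∈ D.ok, f v < M)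
    (hN : NoTw D.G f D.K) (R N : ℕ) (hR : 2 * D.K * D.K < R) (T : ℕ → ℕ → V)
    (hT : ∀ r < R, ∀ i ≤ N, T r i ∈ D.TT)
    (hTinj : ∀ r < R, ∀ r' < R, ∀ i ≤ N, ∀ i' ≤ N, T r i = T r' i' → r = r')
    (hconn : ∀ r < R, ∀ P : ℕ → Prop, P 0 → (∀ i ≤ N, ∀ j ≤ N, P i → D.G.Adj (T r i) (T r j) →
      P j) → ∀ i ≤ N, P i) :
    ∃ F : Frame D, ∃ r < R, ∀ i ≤ N, F.inA (T r i) ∧ D.K ≤ F.idx (T r i) ∧
      D.K ≤ F.rdx (T r i) := by
  classical
  have hFr : ∀ b : V, ∃ F : Frame D, b ∈ D.BB → F.f = fun v => rot M (f b) (f v) := by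
    intro b
    have hne : D.BB.Nonempty := by
      rw [← Finset.card_pos, D.Bcard]
      exact Frame.Kpos D
    by_cases hb : b ∈ D.BB
    · obtain ⟨F, hF⟩ := exists_rot D f M hinj hM hN b hb
      exact ⟨F, fun _ => hF⟩
    · obtain ⟨F, hF⟩ := exists_rot D f M hinj hM hN _ hne.choose_spec
      exact ⟨F, fun h => absurd h hb⟩
  choose Fr hFr using hFr
  -- a good copy
  obtain ⟨r, hr, hgood⟩ : ∃ r < R, ∀ i ≤ N, ∀ b ∈ D.BB, T r i ∉ (Fr b).nonDeep := by
    by_contra hno
    push Not at hno
    have hU : (D.BB.biUnion (fun b => (Fr b).nonDeep)).card ≤ 2 * D.K * D.K := by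
      refine (Finset.card_biUnion_le).trans ?_
      refine (Finset.sum_le_card_nsmul _ _ (2 * D.K) (fun b _ => (Fr b).nonDeep_card)).trans ?_
      rw [D.Bcard, smul_eq_mul]
      exact le_of_eq (by ring)
    have hch : ∀ r : ℕ, ∃ i, r < R → i ≤ N ∧ T r i ∈ D.BB.biUnion (fun b => (Fr b).nonDeep) := by
      intro r
      by_cases hr : r < R
      · obtain ⟨i, hi, b, hb, hb'⟩ := hno r hr
        exact ⟨i, fun _ => ⟨hi, Finset.mem_biUnion.2 ⟨b, hb, hb'⟩⟩⟩
      · exact ⟨0, fun h => absurd h hr⟩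
    choose c hc using hch
    have := Finset.card_le_card_of_injOn (s := Finset.range R)
      (t := D.BB.biUnion (fun b => (Fr b).nonDeep)) (fun r => T r (c r)) (fun r hr => by
        exact Finset.mem_coe.2 (hc r (Finset.mem_range.1 (Finset.mem_coe.1 hr))).2) (by
        intro r hr r' hr' h
        have h1 := Finset.mem_range.1 (Finset.mem_coe.1 hr)
        have h2 := Finset.mem_range.1 (Finset.mem_coe.1 hr')
        exact hTinj r h1 r' h2 _ (hc r h1).1 _ (hc r' h2).1 h)
    rw [Finset.card_range] at this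
    omega
  have h0 := hT r hr 0 (Nat.zero_le _)
  obtain ⟨b, hb, hA⟩ := cover D f M hinj hM Fr hFr (T r 0) (D.Tok _ h0) (D.disj _ h0)
  have hdeep : ∀ i ≤ N, (Fr b).inA (T r i) → D.K ≤ (Fr b).idx (T r i) ∧
      D.K ≤ (Fr b).rdx (T r i) := by
    intro i hi hA
    have := hgood i hi b hb
    simp only [Frame.nonDeep, Finset.mem_filter, not_and, not_or, not_lt] at this
    exact this (hT r hr i hi) hA
  refine ⟨Fr b, r, hr, ?_⟩
  intro i hi
  have hAi : (Fr b).inA (T r i) := by
    refine hconn r hr (fun i => i ≤ N → (Fr b).inA (T r i)) (fun _ => hA) ?_ i hi hi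
    intro i hi j hj hP hadj _
    have h1 := hdeep i hi (hP hi)
    exact (Fr b).nbr hadj (hP hi) h1.1 h1.2 (D.disj _ (hT r hr j hj))
  exact ⟨hAi, hdeep i hi hAi⟩

end Pool.Agent.H68.OQP
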