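import Pool.Agent.H68.OQP.GenDefs

/-!
Generators of lists of pairs of numbers, as a layer over the string generators.
-/

namespace Pool.Agent.H68.OQP

theorem unary_nil : unary [] = [] := rfl

theorem unary_cons (x : ℕ) (l : List ℕ) :
    unary (x :: l) = List.replicate x true ++ [false] ++ unary l := rfl

theorem unary_append (a b : List ℕ) : unary (a ++ b) = unary a ++ unary b := by
  unfold unary
  rw [List.flatMap_append]

/-- generators of lists of pairs of numbers -/
inductive Pg : Type
  | nil : Pg
  | pair (a b : Ex) : Pg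
  | seq (g h : Pg) : Pg
  | loop (e : Ex) (g : Pg) : Pg

/-- the list generated -/
def Pg.out (l : List ℕ) : List ℕ → Pg → List (ℕ × ℕ)
  | _, .nil => []
  | env, .pair a b => [(a.val l env, b.val l env)]
  | env, .seq g h => g.out l env ++ h.out l env
  | env, .loop e g => (List.range (e.val l env)).flatMap (fun i => g.out l (i :: env))

/-- flattening of a list of pairs -/
def flat (E : List (ℕ × ℕ)) : List ℕ := E.flatMap (fun e => [e.1, e.2])

/-- the string generator printing the flattened list in unary -/
def Pg.toGn : Pg → Gn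
  | .nil => .nil
  | .pair a b => .seq (.un a) (.seq (.bit false) (.seq (.un b) (.bit false)))
  | .seq g h => .seq g.toGn h.toGn
  | .loop e g => .loop e g.toGn

theorem Pg.toGn_out (l : List ℕ) (g : Pg) : ∀ env,
    g.toGn.out l env = unary (flat (g.out l env)) := by
  induction g with
  | nil => intro env; rfl
  | pair a b =>
    intro env
    simp [Pg.toGn, Gn.out, Pg.out, flat, unary]
  | seq g h ihg ihh =>
    intro env
    simp only [Pg.toGn, Gn.out, Pg.out, ihg, ihh, flat, List.flatMap_append, unary_append]
  | loop e g ih =>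
    intro env
    simp only [Pg.toGn, Gn.out, Pg.out, ih, flat]
    induction List.range (e.val l env) with
    | nil => rfl
    | cons i L ih2 =>
      simp only [List.flatMap_cons, List.flatMap_append, unary_append, ih2]

theorem Pg.mem_pair {l env : List ℕ} {a b : Ex} {x : ℕ × ℕ} :
    x ∈ Pg.out l env (.pair a b) ↔ x = (a.val l env, b.val l env) := by
  simp [Pg.out]

theorem Pg.mem_seq {l env : List ℕ} {g h : Pg} {x : ℕ × ℕ} :
    x ∈ Pg.out l env (.seq g h) ↔ x ∈ Pg.out l env g ∨ x ∈ Pg.out l env h := by
  simp [Pg.out]

theorem Pg.mem_loop {l env : List ℕ} {e : Ex} {g : Pg} {x : ℕ × ℕ} :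
    x ∈ Pg.out l env (.loop e g) ↔ ∃ i < e.val l env, x ∈ Pg.out l (i :: env) g := by
  simp [Pg.out, List.mem_flatMap]

end Pool.Agent.H68.OQP
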