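import Pool.Agent.H68.OQP.FrameMk

/-!
The graph of the reduction.
-/

namespace Pool.Agent.H68.OQP

/-- vertices of one copy: T-vertices, chain vertices (chain, level), two vertices per
constraint -/
inductive Loc : Type
  | t (i : ℕ) : Loc
  | x (c l : ℕ) : Loc
  | y (i : ℕ) : Loc
  | z (i : ℕ) : Loc
  deriving DecidableEq

/-- vertices: the vertices of `B`, and the vertices of the copies -/
inductive Vt : Type
  | b (i : ℕ) : Vt
  | c (r : ℕ) (v : Loc) : Vt
  deriving DecidableEq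

/-- parameters: `K = w + 3`, number `n` of elements, number `M` of constraints, constraints
`q i = (b, a, c)` meaning that `b` is not between `a` and `c` -/
structure Par where
  w : ℕ
  n : ℕ
  M : ℕ
  q : ℕ → ℕ × ℕ × ℕ

namespace Par

variable (P : Par)

/-- `k - 1` -/
def K : ℕ := P.w + 3

/-- last level -/
def h : ℕ := 2 * P.K * (P.M + 2) + 2 * P.w + 5

/-- level of the constraint edges -/
def jl (i : ℕ) : ℕ := 2 * P.K * (i + 2) + 2 * P.w + 3

/-- gap of level `l` -/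
def C (l : ℕ) : ℕ := P.K * (P.h + 4) + l * (P.w + 2)

/-- end of the left margin -/
def D : ℕ := P.K * (P.h + 3)

/-- start of the right margin -/
def E : ℕ := P.C (P.h + 1)

/-- last T-index -/
def N : ℕ := P.E + P.K * (P.h + 4)

/-- number of copies -/
def R : ℕ := 2 * P.K * P.K + 1

/-- first level of a chain -/
def st (c : ℕ) : ℕ :=
  if c = 0 then 0 else if c ≤ P.n then 2 * P.K else if c = P.n + 1 then 4 * P.K else P.w + 2

/-- local adjacency, oriented from left to right -/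
inductive Lrel : Loc → Loc → Prop
  | spine (i : ℕ) : P.K ∣ i → i + P.K ≤ P.N → Lrel (.t i) (.t (i + P.K))
  | left (i j : ℕ) : j ≤ P.D → P.K ∣ j → i < j → j < i + P.K → Lrel (.t i) (.t j)
  | right (i j : ℕ) : P.E ≤ i → P.K ∣ i → i < j → j < i + P.K → j ≤ P.N → Lrel (.t i) (.t j)
  | path (i : ℕ) : P.D ≤ i → i < P.E → ¬ P.K ∣ (i + 1) → Lrel (.t i) (.t (i + 1))
  | hop (c l : ℕ) : c ≤ P.n + 1 → P.st c ≤ l → l < P.h → Lrel (.x c l) (.x c (l + 1))
  | lpin (c i : ℕ) : c ≤ P.n + 1 → i + P.K = P.C (P.st c) → Lrel (.t i) (.x c (P.st c))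
  | rpin (c : ℕ) : c ≤ P.n + 1 → Lrel (.x c P.h) (.t P.E)
  | shop (l : ℕ) : P.w + 2 ≤ l → l + 1 < P.h → Lrel (.x (P.n + 2) l) (.x (P.n + 2) (l + 1))
  | slpin (i : ℕ) : i + P.K + 1 = P.C (P.w + 2) → Lrel (.t i) (.x (P.n + 2) (P.w + 2))
  | srpin (l i : ℕ) : l + 1 = P.h → i + P.K = P.E → Lrel (.x (P.n + 2) l) (.t i)
  | cya (i : ℕ) : i < P.M → Lrel (.x ((P.q i).2.1 + 1) (P.jl i)) (.y i)
  | cyc (i : ℕ) : i < P.M → Lrel (.x ((P.q i).2.2 + 1) (P.jl i)) (.y i)
  | cz (i : ℕ) : i < P.M → Lrel (.x ((P.q i).1 + 1) (P.jl i)) (.z i)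
  | yp (i : ℕ) : i < P.M → Lrel (.y i) (.t (P.C (P.jl i + 1) + (P.w + 1)))
  | zp (i : ℕ) : i < P.M → Lrel (.z i) (.t (P.C (P.jl i + 1) + (P.w + 1)))

/-- adjacency relation (each edge in one orientation) -/
inductive Vrel : Vt → Vt → Prop
  | tb (i r j : ℕ) : i < P.K → r < P.R → j ≤ P.N → Vrel (.b i) (.c r (.t j))
  | loc (r : ℕ) (u v : Loc) : r < P.R → P.Lrel u v → Vrel (.c r u) (.c r v)

/-- the graph of the reduction -/
def G : SimpleGraph Vt := SimpleGraph.fromRel P.Vrel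

/-- local vertices that are used -/
def lok : Loc → Prop
  | .t i => i ≤ P.N
  | .x c l => c ≤ P.n + 2 ∧ l ≤ P.h
  | .y i => i < P.M
  | .z i => i < P.M

/-- vertices that are used -/
def ok : Vt → Prop
  | .b i => i < P.K
  | .c r v => r < P.R ∧ P.lok v

/-- the constraints mention existing elements only -/
def good : Prop := ∀ i < P.M, (P.q i).1 < P.n ∧ (P.q i).2.1 < P.n ∧ (P.q i).2.2 < P.n

/-- satisfiability of the constraints -/
def Sat : Prop := ∃ s : ℕ → ℕ, (∀ a < P.n, ∀ b < P.n, s a = s b → a = b) ∧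
  ∀ i < P.M, ¬ (s (P.q i).2.1 < s (P.q i).1 ∧ s (P.q i).1 < s (P.q i).2.2) ∧
    ¬ (s (P.q i).2.2 < s (P.q i).1 ∧ s (P.q i).1 < s (P.q i).2.1)

theorem C_succ (l : ℕ) : P.C (l + 1) = P.C l + (P.w + 2) := by
  unfold C
  ring

theorem C_lt {l l' : ℕ} (h : l < l') : P.C l + (P.w + 2) ≤ P.C l' := by
  unfold C
  nlinarith

theorem C_le {l l' : ℕ} (h : l ≤ l') : P.C l ≤ P.C l' := by
  unfold C
  nlinarith

theorem C_zero : P.C 0 = P.D + P.K := by
  unfold C D
  ring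

theorem E_eq : P.E = P.K * (P.h + 4 + 2 * (P.M + 3) * (P.w + 2)) := by
  unfold E C h K
  ring

theorem N_eq : P.N = P.K * (2 * P.h + 8 + 2 * (P.M + 3) * (P.w + 2)) := by
  unfold N
  rw [E_eq]
  ring

theorem jl_lt {i : ℕ} (hi : i < P.M) : P.jl i + 2 * P.K + 2 ≤ P.h := by
  unfold jl h
  nlinarith [show 0 < P.K by unfold K; omega]

theorem le_jl (i : ℕ) : 4 * P.K + 3 ≤ P.jl i := by
  unfold jl
  nlinarith [show 0 < P.K by unfold K; omega]

theorem le_h : 4 * P.K + 5 ≤ P.h := by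
  unfold h
  nlinarith [show 0 < P.K by unfold K; omega]

theorem st_le {c : ℕ} : P.st c + 5 ≤ P.h := by
  have := P.le_h
  unfold st K at *
  split_ifs <;> omega

theorem st_even {c : ℕ} (hc : c ≤ P.n + 1) : P.st c % 2 = 0 := by
  unfold st
  split_ifs <;> omega

theorem jl_odd (i : ℕ) : P.jl i % 2 = 1 := by
  unfold jl
  have : 2 * P.K * (i + 2) = 2 * (P.K * (i + 2)) := by ring
  omega

/-- the T-index of the pin of the constraint vertices is a multiple of `K` -/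
theorem ypin_eq (i : ℕ) : P.C (P.jl i + 1) + (P.w + 1) =
    P.K * (P.h + 3 + 2 * (i + 3) * (P.w + 2)) := by
  unfold C jl K
  ring

end Par

end Pool.Agent.H68.OQP
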