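import Pool.Agent.H68.OQP.Draw

/-!
Edges in the same slot are nested in the intended drawing.
-/

namespace Pool.Agent.H68.OQP

namespace Par

variable {P : Par} {σ : ℕ → ℕ} {S : ℕ}

theorem C_inj {l l' : ℕ} (h : P.C l = P.C l') : l = l' := by
  rcases P.C_gap l l' with h1 | h1 | h1 <;> omega

theorem C_ne {l l' : ℕ} (h : P.C l' = P.C l + 1) : False := by
  rcases P.C_gap l l' with h1 | h1 | h1
  · subst h1
    omega
  · omega
  · omega

theorem maj_odd {v : Loc} (h : P.maj v % 2 = 1) : P.mi σ S v = 0 := by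
  cases v with
  | t i => rfl
  | x c l =>
    simp only [maj] at h
    split_ifs at h <;> omega
  | y i => simp only [maj] at h; omega
  | z i => simp only [maj] at h; omega

theorem maj_t {i : ℕ} : P.maj (.t i) = 2 * i + 1 := rfl

theorem mi_t {i : ℕ} : P.mi σ S (.t i) = 0 := rfl

theorem Tk.end_max (hg : P.good) (hS : ∀ e < P.n, σ e + 1 ≤ S) {a : ℕ} {u v : Loc}
    (h : Tk P a u v) : ¬ P.pos σ S (.t (a + P.K)) < P.pos σ S v := by
  have := h.bounds hg
  rw [pos_lt hS, maj_t, mi_t]
  intro h1
  have h2 : P.maj v = 2 * (a + P.K) + 1 := by omega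
  have h3 := maj_odd (P := P) (σ := σ) (S := S) (v := v) (by omega)
  omega

theorem Tk.start_min (hg : P.good) (hS : ∀ e < P.n, σ e + 1 ≤ S) {a : ℕ} {u v : Loc}
    (h : Tk P a u v) : ¬ P.pos σ S u < P.pos σ S (.t a) := by
  have := h.bounds hg
  rw [pos_lt hS, maj_t, mi_t]
  omega

/-- the drawing respects the constraints -/
def resp (P : Par) (σ : ℕ → ℕ) : Prop := ∀ i < P.M,
  ¬ (σ (P.q i).2.1 < σ (P.q i).1 ∧ σ (P.q i).1 < σ (P.q i).2.2) ∧
    ¬ (σ (P.q i).2.2 < σ (P.q i).1 ∧ σ (P.q i).1 < σ (P.q i).2.1)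

theorem rk_lt_of_st (hS : ∀ e < P.n, σ e + 1 ≤ S) {c c' : ℕ} (hc : c ≤ P.n + 1)
    (hc' : c' ≤ P.n + 1) (h : P.st c' < P.st c) : P.rk σ S c' ≤ P.rk σ S c := by
  have hK := P.Kpos
  unfold st at h
  unfold rk
  split_ifs at h ⊢ with h1 h2 h3 h4 h5 h6 <;> try omega
  have := hS (c' - 1) (by omega)
  omega

theorem mi_even {c l : ℕ} (hc : c ≤ P.n + 1) (hl : l % 2 = 0) :
    P.mi σ S (.x c l) = P.rk σ S c := by
  simp only [mi]
  rw [if_pos hc, if_pos hl]

theorem mi_odd {c l : ℕ} (hc : c ≤ P.n + 1) (hl : l % 2 = 1) :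
    P.mi σ S (.x c l) = S + 1 - P.rk σ S c := by
  simp only [mi]
  rw [if_pos hc, if_neg (by omega)]

theorem mi_s {l : ℕ} : P.mi σ S (.x (P.n + 2) l) = 2 := by
  simp only [mi]
  rw [if_neg (by omega)]

theorem rk_elem {e : ℕ} (he : e < P.n) : P.rk σ S (e + 1) = σ e + 1 := by
  unfold rk
  rw [if_neg (by omega), if_pos (by omega)]
  rfl

theorem jl_inj {i i' : ℕ} (h : P.jl i = P.jl i') : i = i' := by
  unfold jl at h
  have hK := P.Kpos
  have : 2 * P.K * (i + 2) = 2 * P.K * (i' + 2) := by omega
  have := Nat.eq_of_mul_eq_mul_left (by omega) this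
  omega

/-- hops are nested -/
theorem hop_nested (hS : ∀ e < P.n, σ e + 1 ≤ S) {c c' l : ℕ} (hc : c ≤ P.n + 1)
    (hc' : c' ≤ P.n + 1) (h : P.pos σ S (.x c l) < P.pos σ S (.x c' l)) :
    ¬ P.pos σ S (.x c (l + 1)) < P.pos σ S (.x c' (l + 1)) := by
  have h1 := rk_le hS c
  have h2 := rk_le hS c'
  rw [pos_lt hS] at h ⊢
  rw [maj_x hc, maj_x hc'] at h
  rw [maj_x hc, maj_x hc']
  rcases Nat.mod_two_eq_zero_or_one l with hl | hl
  · rw [mi_even hc hl, mi_even hc' hl] at h
    rw [mi_odd hc (by omega), mi_odd hc' (by omega)]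
    omega
  · rw [mi_odd hc hl, mi_odd hc' hl] at h
    rw [mi_even hc (by omega), mi_even hc' (by omega)]
    omega

/-- constraint edges of one constraint are nested -/
theorem az_nested (hS : ∀ e < P.n, σ e + 1 ≤ S) {i e : ℕ} (hi : i < P.M) (hg : P.good)
    (he : e = (P.q i).2.1 ∨ e = (P.q i).2.2) (hr : P.resp σ) :
    ¬ (P.pos σ S (.x (e + 1) (P.jl i)) < P.pos σ S (.x ((P.q i).1 + 1) (P.jl i)) ∧
      P.pos σ S (.y i) < P.pos σ S (.z i)) ∧
    ¬ (P.pos σ S (.x ((P.q i).1 + 1) (P.jl i)) < P.pos σ S (.x (e + 1) (P.jl i)) ∧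
      P.pos σ S (.z i) < P.pos σ S (.y i)) := by
  have hgi := hg i hi
  have hen : e < P.n := by rcases he with rfl | rfl <;> omega
  have hodd := P.jl_odd i
  have hri := hr i hi
  have h1 := hS e hen
  have h2 := hS _ hgi.1
  simp only [pos_lt hS, maj_x (P := P) (show e + 1 ≤ P.n + 1 by omega),
    maj_x (P := P) (show (P.q i).1 + 1 ≤ P.n + 1 by omega),
    mi_odd (P := P) (σ := σ) (S := S) (show e + 1 ≤ P.n + 1 by omega) hodd,
    mi_odd (P := P) (σ := σ) (S := S) (show (P.q i).1 + 1 ≤ P.n + 1 by omega) hodd,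
    rk_elem (P := P) (σ := σ) (S := S) hen, rk_elem (P := P) (σ := σ) (S := S) hgi.1]
  simp only [maj, mi, ym]
  rcases he with rfl | rfl
  · split_ifs with h3
    · omega
    · omega
  · split_ifs with h3
    · omega
    · omega

theorem Tk.nested (hg : P.good) (hS : ∀ e < P.n, σ e + 1 ≤ S) (hr : P.resp σ)
    {a : ℕ} {u v u' v' : Loc} (h : Tk P a u v) (h' : Tk P a u' v')
    (h1 : P.pos σ S u < P.pos σ S u') (h2 : P.pos σ S v < P.pos σ S v') : False := by
  have hKw : P.K = P.w + 3 := rfl
  have hmax := h'.end_max hg hS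
  have hmin := h.start_min hg hS
  -- majors of constraint edges
  have hcst : ∀ {i e : ℕ}, e < P.n → i < P.M → P.C (P.jl i) = a + 2 →
      P.maj (.x (e + 1) (P.jl i)) = 2 * a + 4 := by
    intro i e he hi hC
    rw [maj_x (by omega)]
    omega
  cases h with
  | spine h3 => exact hmax h2
  | rpin c h3 h4 => exact hmax h2
  | srpin l h3 h4 => exact hmax h2
  | yp i h3 h4 => exact hmax h2
  | zp i h3 h4 => exact hmax h2
  | hop c l h3 h4 h5 h6 =>
    cases h' with
    | spine h7 => exact hmin h1
    | hop c' l' g3 g4 g5 g6 =>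
      have hl := C_inj (show P.C l = P.C l' by omega)
      subst hl
      exact hop_nested hS h3 g3 h1 h2
    | lpin c' g3 g4 => exact hmin h1
    | rpin c' g3 g4 =>
      have := C_inj (show P.C l = P.C P.h by omega)
      omega
    | shop l' g3 g4 g5 => exact C_ne (show P.C l' = P.C l + 1 by omega)
    | slpin g3 => exact hmin h1
    | srpin l' g3 g4 => exact C_ne (show P.C l' = P.C l + 1 by omega)
    | cya i g3 g4 => exact C_ne (show P.C (P.jl i) = P.C l + 1 by omega)
    | cyc i g3 g4 => exact C_ne (show P.C (P.jl i) = P.C l + 1 by omega)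
    | cz i g3 g4 => exact C_ne (show P.C (P.jl i) = P.C l + 1 by omega)
    | yp i g3 g4 => exact C_ne (show P.C (P.jl i + 1) = P.C l + 1 by omega)
    | zp i g3 g4 => exact C_ne (show P.C (P.jl i + 1) = P.C l + 1 by omega)
  | lpin c h3 h4 =>
    have hst := P.st_le (c := c)
    have hev := P.st_even h3
    cases h' with
    | spine h7 => exact hmin h1
    | hop c' l' g3 g4 g5 g6 =>
      have hC := P.C_succ l'
      have hl := C_inj (show P.C (l' + 1) = P.C (P.st c) by omega)
      have hrk := rk_lt_of_st hS h3 g3 (by omega)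
      rw [hl] at h2
      rw [pos_lt hS, maj_x h3, maj_x g3, mi_even h3 hev, mi_even g3 hev] at h2
      omega
    | lpin c' g3 g4 => exact hmin h1
    | rpin c' g3 g4 =>
      have hC := P.C_succ P.h
      have := C_inj (show P.C (P.h + 1) = P.C (P.st c) by omega)
      omega
    | shop l' g3 g4 g5 =>
      have hC := P.C_succ l'
      exact C_ne (show P.C (l' + 1) = P.C (P.st c) + 1 by omega)
    | slpin g3 => exact hmin h1
    | srpin l' g3 g4 =>
      have hC := P.C_succ l'
      exact C_ne (show P.C (l' + 1) = P.C (P.st c) + 1 by omega)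
    | cya i g3 g4 =>
      have hC := P.C_succ (P.jl i)
      exact C_ne (show P.C (P.jl i + 1) = P.C (P.st c) + 1 by omega)
    | cyc i g3 g4 =>
      have hC := P.C_succ (P.jl i)
      exact C_ne (show P.C (P.jl i + 1) = P.C (P.st c) + 1 by omega)
    | cz i g3 g4 =>
      have hC := P.C_succ (P.jl i)
      exact C_ne (show P.C (P.jl i + 1) = P.C (P.st c) + 1 by omega)
    | yp i g3 g4 =>
      have hC := P.C_succ (P.jl i + 1)
      exact C_ne (show P.C (P.jl i + 1 + 1) = P.C (P.st c) + 1 by omega)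
    | zp i g3 g4 =>
      have hC := P.C_succ (P.jl i + 1)
      exact C_ne (show P.C (P.jl i + 1 + 1) = P.C (P.st c) + 1 by omega)
  | shop l h3 h4 h5 =>
    cases h' with
    | spine h7 => exact hmin h1
    | hop c' l' g3 g4 g5 g6 => exact C_ne (show P.C l = P.C l' + 1 by omega)
    | lpin c' g3 g4 => exact hmin h1
    | rpin c' g3 g4 => exact C_ne (show P.C l = P.C P.h + 1 by omega)
    | shop l' g3 g4 g5 =>
      have := C_inj (show P.C l = P.C l' by omega)
      subst this
      omega
    | slpin g3 => exact hmin h1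
    | srpin l' g3 g4 =>
      have := C_inj (show P.C l = P.C l' by omega)
      omega
    | cya i g3 g4 =>
      have := C_inj (show P.C l = P.C (P.jl i) by omega)
      subst this
      have hy := ym_le (P := P) (σ := σ) i
      rw [pos_lt hS, maj_s, mi_s] at h2
      simp only [maj, mi] at h2
      omega
    | cyc i g3 g4 =>
      have := C_inj (show P.C l = P.C (P.jl i) by omega)
      subst this
      have hy := ym_le (P := P) (σ := σ) i
      rw [pos_lt hS, maj_s, mi_s] at h2
      simp only [maj, mi] at h2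
      omega
    | cz i g3 g4 =>
      have := C_inj (show P.C l = P.C (P.jl i) by omega)
      subst this
      rw [pos_lt hS, maj_s, mi_s] at h2
      simp only [maj, mi] at h2
      omega
    | yp i g3 g4 =>
      have := C_inj (show P.C l = P.C (P.jl i + 1) by omega)
      subst this
      have hy := ym_le (P := P) (σ := σ) i
      rw [pos_lt hS, maj_s, mi_s] at h1
      simp only [maj, mi] at h1
      omega
    | zp i g3 g4 =>
      have := C_inj (show P.C l = P.C (P.jl i + 1) by omega)
      subst this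
      rw [pos_lt hS, maj_s, mi_s] at h1
      simp only [maj, mi] at h1
      omega
  | slpin h3 =>
    cases h' with
    | spine h7 => exact hmin h1
    | hop c' l' g3 g4 g5 g6 =>
      have hC := P.C_succ l'
      exact C_ne (show P.C (P.w + 2) = P.C (l' + 1) + 1 by omega)
    | lpin c' g3 g4 => exact hmin h1
    | rpin c' g3 g4 =>
      have hC := P.C_succ P.h
      exact C_ne (show P.C (P.w + 2) = P.C (P.h + 1) + 1 by omega)
    | shop l' g3 g4 g5 =>
      have hC := P.C_succ l'
      have := C_inj (show P.C (P.w + 2) = P.C (l' + 1) by omega)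
      omega
    | slpin g3 => exact hmin h1
    | srpin l' g3 g4 =>
      have hC := P.C_succ l'
      have := C_inj (show P.C (P.w + 2) = P.C (l' + 1) by omega)
      have := P.le_h
      omega
    | cya i g3 g4 =>
      have hC := P.C_succ (P.jl i)
      have := C_inj (show P.C (P.w + 2) = P.C (P.jl i + 1) by omega)
      have := P.le_jl i
      omega
    | cyc i g3 g4 =>
      have hC := P.C_succ (P.jl i)
      have := C_inj (show P.C (P.w + 2) = P.C (P.jl i + 1) by omega)
      have := P.le_jl i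
      omega
    | cz i g3 g4 =>
      have hC := P.C_succ (P.jl i)
      have := C_inj (show P.C (P.w + 2) = P.C (P.jl i + 1) by omega)
      have := P.le_jl i
      omega
    | yp i g3 g4 =>
      have hC := P.C_succ (P.jl i + 1)
      have := C_inj (show P.C (P.w + 2) = P.C (P.jl i + 1 + 1) by omega)
      have := P.le_jl i
      omega
    | zp i g3 g4 =>
      have hC := P.C_succ (P.jl i + 1)
      have := C_inj (show P.C (P.w + 2) = P.C (P.jl i + 1 + 1) by omega)
      have := P.le_jl i
      omega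
  | cya i h3 h4 =>
    have hgi := hg i h3
    cases h' with
    | spine h7 => exact hmin h1
    | hop c' l' g3 g4 g5 g6 => exact C_ne (show P.C (P.jl i) = P.C l' + 1 by omega)
    | lpin c' g3 g4 => exact hmin h1
    | rpin c' g3 g4 => exact C_ne (show P.C (P.jl i) = P.C P.h + 1 by omega)
    | shop l' g3 g4 g5 =>
      rw [pos_lt hS, hcst hgi.2.1 h3 h4, maj_s] at h1
      omega
    | slpin g3 => exact hmin h1
    | srpin l' g3 g4 =>
      rw [pos_lt hS, hcst hgi.2.1 h3 h4, maj_s] at h1
      omega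
    | cya i' g3 g4 =>
      have := jl_inj (C_inj (show P.C (P.jl i) = P.C (P.jl i') by omega))
      subst this
      omega
    | cyc i' g3 g4 =>
      have := jl_inj (C_inj (show P.C (P.jl i) = P.C (P.jl i') by omega))
      subst this
      omega
    | cz i' g3 g4 =>
      have := jl_inj (C_inj (show P.C (P.jl i) = P.C (P.jl i') by omega))
      subst this
      exact (az_nested hS h3 hg (Or.inl rfl) hr).1 ⟨h1, h2⟩
    | yp i' g3 g4 =>
      rw [pos_lt hS, hcst hgi.2.1 h3 h4] at h1
      simp only [maj] at h1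
      omega
    | zp i' g3 g4 =>
      rw [pos_lt hS, hcst hgi.2.1 h3 h4] at h1
      simp only [maj] at h1
      omega
  | cyc i h3 h4 =>
    have hgi := hg i h3
    cases h' with
    | spine h7 => exact hmin h1
    | hop c' l' g3 g4 g5 g6 => exact C_ne (show P.C (P.jl i) = P.C l' + 1 by omega)
    | lpin c' g3 g4 => exact hmin h1
    | rpin c' g3 g4 => exact C_ne (show P.C (P.jl i) = P.C P.h + 1 by omega)
    | shop l' g3 g4 g5 =>
      rw [pos_lt hS, hcst hgi.2.2 h3 h4, maj_s] at h1
      omega
    | slpin g3 => exact hmin h1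
    | srpin l' g3 g4 =>
      rw [pos_lt hS, hcst hgi.2.2 h3 h4, maj_s] at h1
      omega
    | cya i' g3 g4 =>
      have := jl_inj (C_inj (show P.C (P.jl i) = P.C (P.jl i') by omega))
      subst this
      omega
    | cyc i' g3 g4 =>
      have := jl_inj (C_inj (show P.C (P.jl i) = P.C (P.jl i') by omega))
      subst this
      omega
    | cz i' g3 g4 =>
      have := jl_inj (C_inj (show P.C (P.jl i) = P.C (P.jl i') by omega))
      subst this
      exact (az_nested hS h3 hg (Or.inr rfl) hr).1 ⟨h1, h2⟩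
    | yp i' g3 g4 =>
      rw [pos_lt hS, hcst hgi.2.2 h3 h4] at h1
      simp only [maj] at h1
      omega
    | zp i' g3 g4 =>
      rw [pos_lt hS, hcst hgi.2.2 h3 h4] at h1
      simp only [maj] at h1
      omega
  | cz i h3 h4 =>
    have hgi := hg i h3
    cases h' with
    | spine h7 => exact hmin h1
    | hop c' l' g3 g4 g5 g6 => exact C_ne (show P.C (P.jl i) = P.C l' + 1 by omega)
    | lpin c' g3 g4 => exact hmin h1
    | rpin c' g3 g4 => exact C_ne (show P.C (P.jl i) = P.C P.h + 1 by omega)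
    | shop l' g3 g4 g5 =>
      rw [pos_lt hS, hcst hgi.1 h3 h4, maj_s] at h1
      omega
    | slpin g3 => exact hmin h1
    | srpin l' g3 g4 =>
      rw [pos_lt hS, hcst hgi.1 h3 h4, maj_s] at h1
      omega
    | cya i' g3 g4 =>
      have := jl_inj (C_inj (show P.C (P.jl i) = P.C (P.jl i') by omega))
      subst this
      exact (az_nested hS h3 hg (Or.inl rfl) hr).2 ⟨h1, h2⟩
    | cyc i' g3 g4 =>
      have := jl_inj (C_inj (show P.C (P.jl i) = P.C (P.jl i') by omega))
      subst this
      exact (az_nested hS h3 hg (Or.inr rfl) hr).2 ⟨h1, h2⟩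
    | cz i' g3 g4 =>
      have := jl_inj (C_inj (show P.C (P.jl i) = P.C (P.jl i') by omega))
      subst this
      omega
    | yp i' g3 g4 =>
      rw [pos_lt hS, hcst hgi.1 h3 h4] at h1
      simp only [maj] at h1
      omega
    | zp i' g3 g4 =>
      rw [pos_lt hS, hcst hgi.1 h3 h4] at h1
      simp only [maj] at h1
      omega

end Par

end Pool.Agent.H68.OQP
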