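import Pool.Agent.H68.OQP.Nest

/-!
The page certificate: edges with the same page do not cross, and no T-vertex of the page of an
edge lies strictly inside the edge.
-/

namespace Pool.Agent.H68.OQP

namespace Par

variable {P : Par} {σ : ℕ → ℕ} {S : ℕ}

theorem mod_ne {K a j : ℕ} (h1 : a < j) (h2 : j < a + K) : j % K ≠ a % K := by
  intro h
  have h3 : K ∣ j - a := (Nat.modEq_iff_dvd' h1.le).1 h.symm
  have := Nat.le_of_dvd (by omega) h3
  omega

theorem mod_far {K a j : ℕ} (h1 : a < j) (h : j % K = a % K) : a + K ≤ j := by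
  by_contra hc
  exact mod_ne h1 (by omega) h

theorem dvd_far {K a j : ℕ} (h1 : a < j) (ha : K ∣ a) (hj : K ∣ j) : a + K ≤ j :=
  mod_far h1 (by rw [Nat.mod_eq_zero_of_dvd ha, Nat.mod_eq_zero_of_dvd hj])

theorem pos_tt (hS : ∀ e < P.n, σ e + 1 ≤ S) {i j : ℕ} :
    P.pos σ S (.t i) < P.pos σ S (.t j) ↔ i < j := by
  rw [pos_lt hS, maj_t, maj_t, mi_t, mi_t]
  omega

theorem pos_tv (hS : ∀ e < P.n, σ e + 1 ≤ S) {i : ℕ} {v : Loc} :
    P.pos σ S (.t i) < P.pos σ S v ↔ 2 * i + 1 < P.maj v := by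
  rw [pos_lt hS, maj_t, mi_t]
  constructor
  · rintro (h | ⟨h, h'⟩)
    · exact h
    · have := maj_odd (P := P) (σ := σ) (S := S) (v := v) (by omega)
      omega
  · exact Or.inl

theorem pos_vt (hS : ∀ e < P.n, σ e + 1 ≤ S) {i : ℕ} {v : Loc} :
    P.pos σ S v < P.pos σ S (.t i) ↔ P.maj v < 2 * i + 1 := by
  rw [pos_lt hS, maj_t, mi_t]
  omega

theorem pos_le_of (hS : ∀ e < P.n, σ e + 1 ≤ S) {u v : Loc} {i : ℕ} (h1 : P.maj v ≤ 2 * i + 1)
    (h2 : 2 * i + 1 ≤ P.maj u) (h : P.pos σ S u < P.pos σ S v) : False := by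
  rw [pos_lt hS] at h
  have h3 : P.maj u = 2 * i + 1 ∧ P.maj v = 2 * i + 1 := by omega
  have := maj_odd (P := P) (σ := σ) (S := S) (v := v) (by omega)
  omega

theorem Tk.c4 {a : ℕ} {u v : Loc} (h : Tk P a u v) (h4 : P.maj u = 2 * a + 4) :
    ∃ i, P.C (P.jl i) = a + 2 := by
  cases h with
  | spine h => rw [maj_t] at h4; omega
  | hop c l h1 h2 h3 h5 => rw [maj_x h1] at h4; omega
  | lpin c h1 h2 => rw [maj_t] at h4; omega
  | rpin c h1 h2 => rw [maj_x h1] at h4; omega
  | shop l h1 h2 h3 => rw [maj_s] at h4; omega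
  | slpin h1 => rw [maj_t] at h4; omega
  | srpin l h1 h2 => rw [maj_s] at h4; omega
  | cya i h1 h2 => exact ⟨i, h2⟩
  | cyc i h1 h2 => exact ⟨i, h2⟩
  | cz i h1 h2 => exact ⟨i, h2⟩
  | yp i h1 h2 => simp only [maj] at h4; omega
  | zp i h1 h2 => simp only [maj] at h4; omega

theorem Kd.no_inside (hg : P.good) (hS : ∀ e < P.n, σ e + 1 ≤ S) {g : ℕ} {u v : Loc}
    (h : Kd P g u v) {j : ℕ} (h1 : P.pos σ S u < P.pos σ S (.t j))
    (h2 : P.pos σ S (.t j) < P.pos σ S v) : j % P.K ≠ g := by
  cases h with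
  | slot a u v h =>
    have := h.bounds hg
    rw [pos_vt hS] at h1
    rw [pos_tv hS] at h2
    exact mod_ne (by omega) (by omega)
  | left i j' h3 h4 h5 h6 =>
    rw [pos_tt hS] at h1 h2
    intro h
    have := dvd_far h2 (Nat.dvd_of_mod_eq_zero h) h4
    omega
  | right i j' h3 h4 h5 h6 =>
    rw [pos_tt hS] at h1 h2
    intro h
    have := dvd_far h1 h4 (Nat.dvd_of_mod_eq_zero h)
    omega
  | path i h3 h4 h5 =>
    rw [pos_tt hS] at h1 h2
    omega

theorem Kd.no_cross (hg : P.good) (hS : ∀ e < P.n, σ e + 1 ≤ S) (hr : P.resp σ) {g g' : ℕ}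
    {u v u' v' : Loc} (h : Kd P g u v) (h' : Kd P g' u' v') (hgg : g = g')
    (h1 : P.pos σ S u < P.pos σ S u') (h2 : P.pos σ S u' < P.pos σ S v)
    (h3 : P.pos σ S v < P.pos σ S v') : False := by
  have hKw : P.K = P.w + 3 := rfl
  have hDE := P.D_le_E
  cases h with
  | slot a u v h =>
    have hb := h.bounds hg
    cases h' with
    | slot a' u' v' h' =>
      have hb' := h'.bounds hg
      rcases lt_trichotomy a a' with ha | ha | ha
      · have := mod_far ha hgg.symm
        exact pos_le_of hS (i := a') (by omega) (by omega) h2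
      · subst ha
        exact Tk.nested hg hS hr h h' h1 h3
      · have := mod_far ha hgg
        exact pos_le_of hS (i := a) (u := u) (v := v') (by omega) (by omega) (by omega)
    | left i j g1 g2 g3 g4 =>
      rcases h.between with ⟨h4, rfl, rfl⟩ | ⟨h4, h5⟩
      · rw [pos_tt hS] at h1 h2 h3
        have := dvd_far h3 ((Nat.dvd_add_right h4).2 dvd_rfl) g2
        omega
      · rw [pos_vt hS] at h1
        omega
    | right i j g1 g2 g3 g4 =>
      rcases h.between with ⟨h4, rfl, rfl⟩ | ⟨h4, h5⟩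
      · rw [pos_tt hS] at h1 h2 h3
        have := dvd_far h1 h4 g2
        omega
      · rw [pos_tv hS] at h2
        omega
    | path i g1 g2 g3 =>
      rw [pos_tv hS] at h2
      rw [pos_vt hS] at h3
      have h4 : a + P.K = i + 1 := by omega
      have h5 : (i + 2) % P.K = (a + 1) % P.K := by
        rw [show i + 2 = a + 1 + P.K by omega, Nat.add_mod_right]
      exact mod_ne (K := P.K) (show a < a + 1 by omega) (by omega) (h5 ▸ hgg.symm)
  | left i j f1 f2 f3 f4 =>
    cases h' with
    | slot a' u' v' h' =>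
      have hb' := h'.bounds hg
      rcases h'.between with ⟨h4, rfl, rfl⟩ | ⟨h4, h5⟩
      · rw [pos_tt hS] at h1 h2 h3
        have := dvd_far h2 h4 f2
        omega
      · rw [pos_vt hS] at h2
        omega
    | left i' j' g1 g2 g3 g4 =>
      rw [pos_tt hS] at h1 h2 h3
      have := dvd_far h3 f2 g2
      omega
    | right i' j' g1 g2 g3 g4 =>
      rw [pos_tt hS] at h1 h2 h3
      omega
    | path i' g1 g2 g3 =>
      rw [pos_tt hS] at h1 h2 h3
      omega
  | right i j f1 f2 f3 f4 =>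
    cases h' with
    | slot a' u' v' h' =>
      have hb' := h'.bounds hg
      rcases h'.between with ⟨h4, rfl, rfl⟩ | ⟨h4, h5⟩
      · rw [pos_tt hS] at h1 h2 h3
        have := dvd_far h1 f2 h4
        omega
      · rw [pos_tv hS] at h1
        omega
    | left i' j' g1 g2 g3 g4 =>
      rw [pos_tt hS] at h1 h2 h3
      omega
    | right i' j' g1 g2 g3 g4 =>
      rw [pos_tt hS] at h1 h2 h3
      have := dvd_far h1 f2 g2
      omega
    | path i' g1 g2 g3 =>
      rw [pos_tt hS] at h1 h2 h3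
      omega
  | path i f1 f2 f3 =>
    cases h' with
    | slot a' u' v' h' =>
      have hb' := h'.bounds hg
      rw [pos_tv hS] at h1
      rw [pos_vt hS] at h2
      rcases (show i = a' ∨ i = a' + 1 by omega) with h4 | h4
      · subst h4
        exact mod_ne (K := P.K) (show i < i + 2 by omega) (by omega) hgg
      · subst h4
        obtain ⟨c, hc⟩ := h'.c4 (by omega)
        rcases Nat.eq_zero_or_pos P.w with hw | hw
        · apply f3
          rw [show a' + 1 + 1 = P.C (P.jl c) by omega]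
          unfold C jl
          have : P.K * (P.h + 4) + (2 * P.K * (c + 2) + 2 * P.w + 3) * (P.w + 2) =
              P.K * (P.h + 4 + 4 * (c + 2) + 2) := by
            unfold K
            rw [hw]
            ring
          rw [this]
          exact Dvd.intro _ rfl
        · exact mod_ne (K := P.K) (show a' < a' + 1 + 2 by omega) (by omega) hgg
    | left i' j' g1 g2 g3 g4 =>
      rw [pos_tt hS] at h1 h2 h3
      omega
    | right i' j' g1 g2 g3 g4 =>
      rw [pos_tt hS] at h1 h2 h3
      omega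
    | path i' g1 g2 g3 =>
      rw [pos_tt hS] at h1 h2 h3
      omega

end Par

end Pool.Agent.H68.OQP
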