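import Pool.Agent.H68.OQP.Chain

/-!
Exact positions and orders of the chain vertices.
-/

namespace Pool.Agent.H68.OQP

namespace Par

variable {P : Par} {hg : P.good}

/-- class of a chain -/
def cl (P : Par) (c : ℕ) : ℕ := if c ≤ P.n + 1 then 0 else 1

/-- right pins -/
theorem rpin_spec {c : ℕ} (hc : c ≤ P.n + 2) : ∃ p, 1 ≤ p ∧ p + 1 ≤ P.m ∧
    P.Lrel (.x c (P.last c)) (.t (P.K * p)) ∧
    P.K * p + P.cl c = P.C (P.last c) + (P.w + 2) := by
  have hK := P.Kpos
  have hKw : P.K = P.w + 3 := rfl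
  have hE : P.E = P.K * (P.m - (P.h + 4)) := by
    rw [P.E_eq]
    congr 1
    unfold m
    omega
  have hm : 2 * P.h + 8 ≤ P.m := by unfold m; omega
  have hh := P.le_h
  unfold last cl
  split_ifs with h
  · refine ⟨P.m - (P.h + 4), by omega, by omega, ?_, ?_⟩
    · rw [← hE]
      exact .rpin c h
    · rw [← hE, P.Ch_eq]
      rfl
  · have : c = P.n + 2 := by omega
    subst this
    have hE' : P.K * (P.m - (P.h + 4) - 1) + P.K = P.E := by
      rw [hE]
      have : P.m - (P.h + 4) = P.m - (P.h + 4) - 1 + 1 := by omega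
      conv_rhs => rw [this]
      ring
    refine ⟨P.m - (P.h + 4) - 1, by omega, by omega, .srpin _ _ (by omega) hE', ?_⟩
    have h1 := P.C_succ (P.h - 1)
    have h2 := P.Ch_eq
    rw [show P.h - 1 + 1 = P.h by omega] at h1
    omega

theorem cl_pin {c : ℕ} (hc : c ≤ P.n + 2) {p : ℕ}
    (h1 : c ≤ P.n + 1 → P.K * p + P.K = P.C (P.st c))
    (h2 : c = P.n + 2 → P.K * p + P.K + 1 = P.C (P.w + 2)) :
    P.K * p + P.K + P.cl c = P.C (P.st c) := by
  unfold cl
  split_ifs with h
  · exact h1 h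
  · have : c = P.n + 2 := by omega
    subst this
    rw [st_s]
    exact h2 rfl

variable (o : Ori P hg)

theorem Ori.pos {c l : ℕ} (hc : c ≤ P.n + 2) (h1 : P.st c ≤ l) (h2 : l ≤ P.last c) :
    (o.F.idx (o.v (.x c l)) : ℤ) = o.I + P.C l - P.cl c := by
  have hK := P.Kpos
  have hKw : (P.K : ℤ) = P.w + 3 := by unfold K; push_cast; ring
  have hKK : (P.dat hg).K = P.K := rfl
  have up : ∀ s, P.st c + s ≤ P.last c →
      (o.F.idx (o.v (.x c (P.st c + s))) : ℤ) ≤ o.I + P.C (P.st c + s) - P.cl c := by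
    obtain ⟨p, hp1, hp2, hp3, hp4, hp5, hp6, hp7⟩ := pin_spec hc
    have hpin := cl_pin hc hp6 hp7
    have hpI := o.hI p hp1 hp2
    intro s
    induction s with
    | zero =>
      intro hs
      have := o.F.lip (o.adj hp5) (o.chain hc 0 hs).1
      have h3 : (o.F.idx (o.v (.x c (P.st c))) : ℤ) ≤ o.F.idx (.c o.r (.t (P.K * p))) + P.K := by
        exact_mod_cast this
      rw [hpI] at h3
      have h4 : (P.K : ℤ) * p + P.K + P.cl c = P.C (P.st c) := by exact_mod_cast hpin
      simp only [Nat.add_zero]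
      linarith
    | succ s ih =>
      intro hs
      have h3 := ih (by omega)
      have hadj := o.adj (hop' hc (show P.st c ≤ P.st c + s by omega) (by omega))
      rw [Nat.add_assoc] at hadj
      have := o.F.lip' hadj (o.chain hc (s + 1) hs).1 x_notT
      have h4 : (o.F.idx (o.v (.x c (P.st c + (s + 1)))) : ℤ) + 1 ≤
        o.F.idx (o.v (.x c (P.st c + s))) + P.K := by exact_mod_cast this
      have h5 := P.C_succ (P.st c + s)
      have h6 : (P.C (P.st c + (s + 1)) : ℤ) = P.C (P.st c + s) + (P.w + 2) := by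
        exact_mod_cast h5
      linarith
  have down : ∀ s, P.st c + s ≤ P.last c →
      o.I + P.C (P.last c - s) - P.cl c ≤ (o.F.idx (o.v (.x c (P.last c - s))) : ℤ) := by
    obtain ⟨p, hp1, hp2, hp3, hp4⟩ := rpin_spec hc
    have hpI := o.hI p hp1 hp2
    have hpN : P.K * p ≤ P.N := by
      rw [P.N_eq']
      exact Nat.mul_le_mul_left _ (by omega)
    intro s
    induction s with
    | zero =>
      intro hs
      have := o.F.lip' (o.adj hp3) (o.hA _ hpN) x_notT
      have h3 : (o.F.idx (.c o.r (.t (P.K * p))) : ℤ) + 1 ≤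
        o.F.idx (o.v (.x c (P.last c))) + P.K := by
        exact_mod_cast this
      rw [hpI] at h3
      have h4 : (P.K : ℤ) * p + P.cl c = P.C (P.last c) + (P.w + 2) := by exact_mod_cast hp4
      simp only [Nat.sub_zero]
      linarith
    | succ s ih =>
      intro hs
      have h3 := ih (by omega)
      have hadj := o.adj (hop' hc (show P.st c ≤ P.last c - (s + 1) by omega) (by omega))
      have he : P.last c - (s + 1) + 1 = P.last c - s := by omega
      rw [he] at hadj
      have hch := (o.chain hc (P.last c - s - P.st c) (by omega)).1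
      rw [show P.st c + (P.last c - s - P.st c) = P.last c - s by omega] at hch
      have := o.F.lip' hadj hch x_notT
      have h4 : (o.F.idx (o.v (.x c (P.last c - s))) : ℤ) + 1 ≤
        o.F.idx (o.v (.x c (P.last c - (s + 1)))) + P.K := by exact_mod_cast this
      have h5 := P.C_succ (P.last c - (s + 1))
      rw [he] at h5
      have h6 : (P.C (P.last c - s) : ℤ) = P.C (P.last c - (s + 1)) + (P.w + 2) := by
        exact_mod_cast h5
      linarith
  have e1 := up (l - P.st c) (by omega)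
  have e2 := down (P.last c - l) (by omega)
  rw [show P.st c + (l - P.st c) = l by omega] at e1
  rw [show P.last c - (P.last c - l) = l by omega] at e2
  exact le_antisymm e1 e2

theorem Ori.inx {c l : ℕ} (hc : c ≤ P.n + 2) (h1 : P.st c ≤ l) (h2 : l ≤ P.last c) :
    o.F.inA (o.v (.x c l)) := by
  have := (o.chain hc (l - P.st c) (by omega)).1
  rwa [show P.st c + (l - P.st c) = l by omega] at this

theorem Ori.xok {c l : ℕ} (hc : c ≤ P.n + 2) (h2 : l ≤ P.h) :
    o.v (.x c l) ∈ (P.dat hg).ok := o.okv ⟨hc, h2⟩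

theorem last_of {c : ℕ} (hc : c ≤ P.n + 1) : P.last c = P.h := by
  unfold last
  rw [if_pos hc]

theorem cl_of {c : ℕ} (hc : c ≤ P.n + 1) : P.cl c = 0 := by
  unfold cl
  rw [if_pos hc]

theorem Ori.pos0 {c l : ℕ} (hc : c ≤ P.n + 1) (h1 : P.st c ≤ l) (h2 : l ≤ P.h) :
    (o.F.idx (o.v (.x c l)) : ℤ) = o.I + P.C l := by
  have := o.pos (show c ≤ P.n + 2 by omega) h1 (by rw [last_of hc]; exact h2)
  rw [cl_of hc] at this
  simpa using this

theorem Ori.posS {l : ℕ} (h1 : P.w + 2 ≤ l) (h2 : l + 1 ≤ P.h) :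
    (o.F.idx (o.v (.x (P.n + 2) l)) : ℤ) = o.I + P.C l - 1 := by
  have h3 : P.last (P.n + 2) = P.h - 1 := by
    unfold last
    rw [if_neg (by omega)]
  have h4 : P.cl (P.n + 2) = 1 := by
    unfold cl
    rw [if_neg (by omega)]
  have := o.pos (c := P.n + 2) (l := l) le_rfl (by rw [st_s]; exact h1) (by omega)
  rw [h4] at this
  simpa using this

theorem Ori.f_ne {u v : Loc} (hu : P.lok u) (hv : P.lok v) (h : u ≠ v) :
    o.F.f (o.v u) ≠ o.F.f (o.v v) := by
  intro he
  have := o.F.inj _ (o.okv hu) _ (o.okv hv) he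
  exact h (by injection this)

/-- hops of two chains are nested -/
theorem Ori.flip {c c' l : ℕ} (hc : c ≤ P.n + 1) (hc' : c' ≤ P.n + 1) (h1 : P.st c ≤ l)
    (h1' : P.st c' ≤ l) (h2 : l < P.h)
    (hlt : o.F.f (o.v (.x c l)) < o.F.f (o.v (.x c' l))) :
    o.F.f (o.v (.x c' (l + 1))) < o.F.f (o.v (.x c (l + 1))) := by
  by_contra hcon
  have hne : c ≠ c' := by
    rintro rfl
    exact lt_irrefl _ hlt
  have hlt2 : o.F.f (o.v (.x c (l + 1))) < o.F.f (o.v (.x c' (l + 1))) := by
    refine lt_of_le_of_ne (not_lt.1 hcon) (o.f_ne ⟨by omega, by omega⟩ ⟨by omega, by omega⟩ ?_)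
    intro h
    injection h with h _
    exact hne h
  have p1 := o.pos0 hc h1 h2.le
  have p2 := o.pos0 hc' h1' h2.le
  have p3 := o.pos0 hc (l := l + 1) (by omega) h2
  have hC := P.C_succ l
  have hKw : P.K = P.w + 3 := rfl
  have hKK : (P.dat hg).K = P.K := rfl
  have hA := o.inx (c := c') (l := l + 1) (by omega) (by omega) (by rw [last_of hc']; exact h2)
  refine o.F.no_cross2 (o.adj (.hop c l hc h1 h2)) (o.adj (.hop c' l hc' h1' h2)) hlt
    (o.F.lt_of_idx ?_) hlt2 hA x_notT ?_
  · have : (o.F.idx (o.v (.x c' l)) : ℤ) < o.F.idx (o.v (.x c (l + 1))) := by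
      rw [p2, p3, hC]
      push_cast
      omega
    exact_mod_cast this
  · omega

/-- a chain starting at level `l` is to the right of all chains already present -/
theorem Ori.later {c c' : ℕ} (hc : c ≤ P.n + 1) (hc' : c' ≤ P.n + 1)
    (h1 : P.st c' < P.st c) :
    o.F.f (o.v (.x c' (P.st c))) < o.F.f (o.v (.x c (P.st c))) := by
  by_contra hcon
  have hne : c ≠ c' := by
    rintro rfl
    exact lt_irrefl _ h1
  have hst := P.st_le (c := c)
  have hlt2 : o.F.f (o.v (.x c (P.st c))) < o.F.f (o.v (.x c' (P.st c))) := by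
    refine lt_of_le_of_ne (not_lt.1 hcon) (o.f_ne ⟨by omega, by omega⟩ ⟨by omega, by omega⟩ ?_)
    intro h
    injection h with h _
    exact hne h
  obtain ⟨p, hp1, hp2, hp3, hp4, hp5, hp6, hp7⟩ := pin_spec (P := P) (show c ≤ P.n + 2 by omega)
  have hpin := hp6 hc
  have hpI := o.hI p hp1 hp2
  obtain ⟨l, hl⟩ : ∃ l, P.st c = l + 1 := ⟨P.st c - 1, by omega⟩
  have hhop : P.Lrel (.x c' l) (.x c' (l + 1)) := .hop c' l hc' (by omega) (by omega)
  rw [hl] at hp5 hlt2 hpin
  have p1 := o.pos0 hc (l := l + 1) (by omega) (by omega)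
  have p2 := o.pos0 hc' (l := l) (by omega) (by omega)
  have hC := P.C_succ l
  have hKw : P.K = P.w + 3 := rfl
  have hKK : (P.dat hg).K = P.K := rfl
  have hA := o.inx (c := c') (l := l + 1) (by omega) (by omega)
    (by rw [last_of hc']; omega)
  have hpz : (P.K : ℤ) * p + P.K = P.C (l + 1) := by exact_mod_cast hpin
  have hKz : (P.K : ℤ) = P.w + 3 := by exact_mod_cast hKw
  have hCz : (P.C (l + 1) : ℤ) = P.C l + (P.w + 2) := by exact_mod_cast hC
  refine o.F.no_cross2 (o.adj hp5) (o.adj hhop) (o.F.lt_of_idx ?_)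
    (o.F.lt_of_idx ?_) hlt2 hA x_notT ?_
  · have : (o.F.idx (o.v (.t (P.K * p))) : ℤ) < o.F.idx (o.v (.x c' l)) := by
      change (o.F.idx (.c o.r (.t (P.K * p))) : ℤ) < _
      rw [hpI, p2]
      linarith
    exact_mod_cast this
  · have : (o.F.idx (o.v (.x c' l)) : ℤ) < o.F.idx (o.v (.x c (l + 1))) := by
      rw [p1, p2]
      linarith
    exact_mod_cast this
  · omega

end Par

end Pool.Agent.H68.OQP
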