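import Pool.Agent.H68.OQP.GenDefs2
import Pool.Agent.H68.OQP.Data

/-!
Numbering of the vertices, and the generator that prints the edge list of the reduction.
-/

namespace Pool.Agent.H68.OQP

namespace Par

variable (P : Par)

/-- vertices per copy -/
def W : ℕ := (P.N + 1) + (P.n + 3) * (P.h + 1) + 2 * P.M

/-- local number -/
def lnum : Loc → ℕ
  | .t i => i
  | .x c l => (P.N + 1) + c * (P.h + 1) + l
  | .y i => (P.N + 1) + (P.n + 3) * (P.h + 1) + 2 * i
  | .z i => (P.N + 1) + (P.n + 3) * (P.h + 1) + 2 * i + 1

/-- number of a vertex -/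
def num : Vt → ℕ
  | .b i => i
  | .c r v => P.K + r * P.W + P.lnum v

/-- number of vertices -/
def total : ℕ := P.K + P.R * P.W

variable {P}

theorem lnum_lt {v : Loc} (h : P.lok v) : P.lnum v < P.W := by
  cases v with
  | t i =>
    change i ≤ P.N at h
    simp only [lnum, W]
    omega
  | x c l =>
    have h1 : (c + 1) * (P.h + 1) ≤ (P.n + 3) * (P.h + 1) :=
      Nat.mul_le_mul_right _ (by have := h.1; omega)
    have h2 := h.2
    rw [Nat.add_mul, Nat.one_mul] at h1
    simp only [lnum, W]
    omega
  | y i =>
    change i < P.M at h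
    simp only [lnum, W]
    omega
  | z i =>
    change i < P.M at h
    simp only [lnum, W]
    omega

theorem mul_add_inj {W r r' a a' : ℕ} (ha : a < W) (ha' : a' < W)
    (h : r * W + a = r' * W + a') : r = r' ∧ a = a' := by
  have hW : 0 < W := by omega
  have h1 : (r * W + a) / W = r := by
    rw [Nat.add_comm, Nat.add_mul_div_right _ _ hW, Nat.div_eq_of_lt ha, Nat.zero_add]
  have h2 : (r' * W + a') / W = r' := by
    rw [Nat.add_comm, Nat.add_mul_div_right _ _ hW, Nat.div_eq_of_lt ha', Nat.zero_add]
  have h3 : r = r' := by rw [← h1, h, h2]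
  subst h3
  exact ⟨rfl, by omega⟩

theorem lnum_inj {u v : Loc} (hu : P.lok u) (hv : P.lok v) (h : P.lnum u = P.lnum v) :
    u = v := by
  have hx : ∀ c l, P.lok (.x c l) → c * (P.h + 1) + l < (P.n + 3) * (P.h + 1) := by
    intro c l h
    have h1 : (c + 1) * (P.h + 1) ≤ (P.n + 3) * (P.h + 1) :=
      Nat.mul_le_mul_right _ (by have := h.1; omega)
    have h2 := h.2
    rw [Nat.add_mul, Nat.one_mul] at h1
    omega
  cases u with
  | t i =>
    change i ≤ P.N at hu
    cases v with
    | t j => rw [show i = j from h]
    | x c l => simp only [lnum] at h; omega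
    | y j => simp only [lnum] at h; omega
    | z j => simp only [lnum] at h; omega
  | x c l =>
    have h1 := hx c l hu
    cases v with
    | t j => change j ≤ P.N at hv; simp only [lnum] at h; omega
    | x c' l' =>
      simp only [lnum] at h
      have := mul_add_inj (W := P.h + 1) (r := c) (r' := c') (a := l) (a' := l')
        (by have := hu.2; omega) (by have := hv.2; omega) (by omega)
      rw [this.1, this.2]
    | y j => simp only [lnum] at h; omega
    | z j => simp only [lnum] at h; omega
  | y i =>
    cases v with
    | t j => change j ≤ P.N at hv; simp only [lnum] at h; omega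
    | x c' l' =>
      have h1 := hx c' l' hv
      simp only [lnum] at h
      omega
    | y j => simp only [lnum] at h; rw [show i = j by omega]
    | z j => simp only [lnum] at h; omega
  | z i =>
    cases v with
    | t j => change j ≤ P.N at hv; simp only [lnum] at h; omega
    | x c' l' =>
      have h1 := hx c' l' hv
      simp only [lnum] at h
      omega
    | y j => simp only [lnum] at h; omega
    | z j => simp only [lnum] at h; rw [show i = j by omega]

theorem num_lt {v : Vt} (h : P.ok v) : P.num v < P.total := by
  cases v with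
  | b i =>
    change i < P.K at h
    simp only [num, total]
    omega
  | c r v =>
    have h1 := lnum_lt h.2
    have h2 : (r + 1) * P.W ≤ P.R * P.W := Nat.mul_le_mul_right _ h.1
    rw [Nat.add_mul, Nat.one_mul] at h2
    simp only [num, total]
    omega

theorem num_inj {u v : Vt} (hu : P.ok u) (hv : P.ok v) (h : P.num u = P.num v) : u = v := by
  cases u with
  | b i =>
    change i < P.K at hu
    cases v with
    | b j => rw [show i = j from h]
    | c r v => simp only [num] at h; omega
  | c r u =>
    cases v with
    | b j => change j < P.K at hv; simp only [num] at h; omega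
    | c r' v =>
      simp only [num] at h
      have := mul_add_inj (W := P.W) (r := r) (r' := r') (lnum_lt hu.2) (lnum_lt hv.2) (by omega)
      rw [this.1, lnum_inj hu.2 hv.2 this.2]

end Par

/-- the parameters given by a list of numbers `n, m, a₁, b₁, c₁, …`: the triple `(a, b, c)`
gives the constraints `a` is not between `b` and `c` and `c` is not between `a` and `b` -/
def par (w : ℕ) (l : List ℕ) : Par where
  w := w
  n := l.getD 0 0
  M := 2 * l.getD 1 0
  q i := if i % 2 = 0 then
      (l.getD (2 + 3 * (i / 2)) 0, l.getD (3 + 3 * (i / 2)) 0, l.getD (4 + 3 * (i / 2)) 0)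
    else (l.getD (4 + 3 * (i / 2)) 0, l.getD (2 + 3 * (i / 2)) 0, l.getD (3 + 3 * (i / 2)) 0)

section exprs

variable (w : ℕ)

def eK : Ex := .con (w + 3)
def en : Ex := .inp (.con 0)
def eM : Ex := .mul (.con 2) (.inp (.con 1))
def eh : Ex := .add (.mul (.con (2 * (w + 3))) (.add eM (.con 2))) (.con (2 * w + 5))
/-- `(h + 1) (w + 2)` -/
def eE : Ex := .add (.mul (.con (w + 3)) (.add (eh w) (.con 4)))
  (.mul (.add (eh w) (.con 1)) (.con (w + 2)))
def eN : Ex := .add (eE w) (.mul (.con (w + 3)) (.add (eh w) (.con 4)))
def eW : Ex := .add (.add (.add (eN w) (.con 1)) (.mul (.add en (.con 3)) (.add (eh w) (.con 1))))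
  (.mul (.con 2) eM)
def eB (r : Ex) : Ex := .add (.con (w + 3)) (.mul r (eW w))
def vT (r i : Ex) : Ex := .add (eB w r) i
def vX (r c l : Ex) : Ex := .add (eB w r)
  (.add (.add (.add (eN w) (.con 1)) (.mul c (.add (eh w) (.con 1)))) l)
def vY (r i : Ex) : Ex := .add (eB w r)
  (.add (.add (.add (eN w) (.con 1)) (.mul (.add en (.con 3)) (.add (eh w) (.con 1))))
    (.mul (.con 2) i))
def vZ (r i : Ex) : Ex := .add (eB w r)
  (.add (.add (.add (.add (eN w) (.con 1)) (.mul (.add en (.con 3)) (.add (eh w) (.con 1))))
    (.mul (.con 2) i)) (.con 1))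
/-- number of vertices -/
def eTotal : Ex := .add (.con (w + 3)) (.mul (.con (2 * (w + 3) * (w + 3) + 1)) (eW w))

end exprs

section vals

variable {w : ℕ} {l env : List ℕ}

theorem val_h : (eh w).val l env = (par w l).h := rfl

theorem val_E : (eE w).val l env = (par w l).E := rfl

theorem val_N : (eN w).val l env = (par w l).N := rfl

theorem val_W : (eW w).val l env = (par w l).W := rfl

theorem val_T {r i : Ex} : (vT w r i).val l env =
    (par w l).num (.c (r.val l env) (.t (i.val l env))) := rfl

theorem val_X {r c i : Ex} : (vX w r c i).val l env =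
    (par w l).num (.c (r.val l env) (.x (c.val l env) (i.val l env))) := rfl

theorem val_Y {r i : Ex} : (vY w r i).val l env =
    (par w l).num (.c (r.val l env) (.y (i.val l env))) := rfl

theorem val_Z {r i : Ex} : (vZ w r i).val l env =
    (par w l).num (.c (r.val l env) (.z (i.val l env))) := rfl

theorem val_total : (eTotal w).val l env = (par w l).total := rfl

end vals

end Pool.Agent.H68.OQP
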