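import Pool.Agent.H68.OQP.Prog

/-!
The generator of the edge list and its correctness.
-/

namespace Pool.Agent.H68.OQP

section

variable (w : ℕ)

def c0 (a : ℕ) : Ex := .con a
/-- `K * e` -/
def kmul (e : Ex) : Ex := .mul (.con (w + 3)) e
/-- `2 (M + 3) (w + 2)` -/
def eQ : Ex := .mul (.mul (.con 2) (.add eM (.con 3))) (.con (w + 2))
/-- number of spine edges -/
def em : Ex := .add (.add (.mul (.con 2) (eh w)) (.con 8)) (eQ w)
/-- end of the left margin -/
def eD : Ex := kmul w (.add (eh w) (.con 3))

def gtb : Pg := .loop (.con (w + 3)) (.loop (.add (eN w) (.con 1))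
  (.pair (.var 1) (vT w (.var 2) (.var 0))))
def gspine : Pg := .loop (em w) (.pair (vT w (.var 1) (kmul w (.var 0)))
  (vT w (.var 1) (.add (kmul w (.var 0)) (.con (w + 3)))))
def gleft : Pg := .loop (.add (eh w) (.con 3)) (.loop (.con (w + 2))
  (.pair (vT w (.var 2) (.add (kmul w (.var 1)) (.add (.var 0) (.con 1))))
    (vT w (.var 2) (kmul w (.add (.var 1) (.con 1))))))
def gright : Pg := .loop (.add (eh w) (.con 4)) (.loop (.con (w + 2))
  (.pair (vT w (.var 2) (.add (eE w) (kmul w (.var 1))))
    (vT w (.var 2) (.add (.add (eE w) (kmul w (.var 1))) (.add (.var 0) (.con 1))))))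
def gpath : Pg := .loop (.add (.con 1) (eQ w)) (.loop (.con (w + 2))
  (.pair (vT w (.var 2) (.add (.add (eD w) (kmul w (.var 1))) (.var 0)))
    (vT w (.var 2) (.add (.add (.add (eD w) (kmul w (.var 1))) (.var 0)) (.con 1)))))
def ghop0 : Pg := .loop (eh w) (.pair (vX w (.var 1) (.con 0) (.var 0))
  (vX w (.var 1) (.con 0) (.add (.var 0) (.con 1))))
def ghop1 : Pg := .loop en (.loop
  (.add (.mul (.con (2 * (w + 3))) (.add eM (.con 1))) (.con (2 * w + 5)))
  (.pair (vX w (.var 2) (.add (.var 1) (.con 1)) (.add (.con (2 * (w + 3))) (.var 0)))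
    (vX w (.var 2) (.add (.var 1) (.con 1)) (.add (.add (.con (2 * (w + 3))) (.var 0))
      (.con 1)))))
def ghop2 : Pg := .loop (.add (.mul (.con (2 * (w + 3))) eM) (.con (2 * w + 5)))
  (.pair (vX w (.var 1) (.add en (.con 1)) (.add (.con (4 * (w + 3))) (.var 0)))
    (vX w (.var 1) (.add en (.con 1)) (.add (.add (.con (4 * (w + 3))) (.var 0)) (.con 1))))
def glpin0 : Pg := .pair (vT w (.var 0) (eD w)) (vX w (.var 0) (.con 0) (.con 0))
def glpin1 : Pg := .loop en (.pair
  (vT w (.var 1) (.add (eD w) (.con (2 * (w + 2) * (w + 3)))))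
  (vX w (.var 1) (.add (.var 0) (.con 1)) (.con (2 * (w + 3)))))
def glpin2 : Pg := .pair (vT w (.var 0) (.add (eD w) (.con (4 * (w + 2) * (w + 3)))))
  (vX w (.var 0) (.add en (.con 1)) (.con (4 * (w + 3))))
def grpin : Pg := .loop (.add en (.con 2)) (.pair (vX w (.var 1) (.var 0) (eh w))
  (vT w (.var 1) (eE w)))
def gshop : Pg := .loop (.add (.mul (.con (2 * (w + 3))) (.add eM (.con 2))) (.con (w + 2)))
  (.pair (vX w (.var 1) (.add en (.con 2)) (.add (.con (w + 2)) (.var 0)))
    (vX w (.var 1) (.add en (.con 2)) (.add (.add (.con (w + 2)) (.var 0)) (.con 1))))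
def gslpin : Pg := .pair (vT w (.var 0) (.add (eD w) (.con ((w + 1) * (w + 3)))))
  (vX w (.var 0) (.add en (.con 2)) (.con (w + 2)))
def gsrpin : Pg := .pair (vX w (.var 0) (.add en (.con 2))
    (.add (.mul (.con (2 * (w + 3))) (.add eM (.con 2))) (.con (2 * w + 4))))
  (vT w (.var 0) (kmul w (.add (.add (eh w) (.con 3)) (eQ w))))
/-- level of the edges of constraint `i` -/
def ejl (i : Ex) : Ex := .add (.add (.mul (.con (2 * (w + 3))) (.add i (.con 2)))
  (.con (2 * w))) (.con 3)
/-- T-index of the pin of constraint `i` -/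
def epin (i : Ex) : Ex := kmul w (.add (.add (eh w) (.con 3))
  (.mul (.mul (.con 2) (.add i (.con 3))) (.con (w + 2))))
/-- the five edges of constraint `i = (b, a, c)` -/
def gcon (i b a c : Ex) : Pg :=
  .seq (.pair (vX w (.var 1) (.add a (.con 1)) (ejl w i)) (vY w (.var 1) i))
  (.seq (.pair (vX w (.var 1) (.add c (.con 1)) (ejl w i)) (vY w (.var 1) i))
  (.seq (.pair (vX w (.var 1) (.add b (.con 1)) (ejl w i)) (vZ w (.var 1) i))
  (.seq (.pair (vY w (.var 1) i) (vT w (.var 1) (epin w i)))
    (.pair (vZ w (.var 1) i) (vT w (.var 1) (epin w i))))))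
def gcons : Pg := .loop (.inp (.con 1)) (.seq
  (gcon w (.mul (.con 2) (.var 0))
    (.inp (.add (.con 2) (.mul (.con 3) (.var 0))))
    (.inp (.add (.con 3) (.mul (.con 3) (.var 0))))
    (.inp (.add (.con 4) (.mul (.con 3) (.var 0)))))
  (gcon w (.add (.mul (.con 2) (.var 0)) (.con 1))
    (.inp (.add (.con 4) (.mul (.con 3) (.var 0))))
    (.inp (.add (.con 2) (.mul (.con 3) (.var 0))))
    (.inp (.add (.con 3) (.mul (.con 3) (.var 0))))))

/-- edges inside one copy -/
def gloc : Pg :=
  .seq (gspine w) (.seq (gleft w) (.seq (gright w) (.seq (gpath w) (.seq (ghop0 w)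
  (.seq (ghop1 w) (.seq (ghop2 w) (.seq (glpin0 w) (.seq (glpin1 w) (.seq (glpin2 w)
  (.seq (grpin w) (.seq (gshop w) (.seq (gslpin w) (.seq (gsrpin w) (gcons w))))))))))))))

/-- all edges -/
def prog : Pg := .loop (.con (2 * (w + 3) * (w + 3) + 1)) (.seq (gtb w) (gloc w))

end

section sound

variable {w : ℕ} {l : List ℕ} {r : ℕ} {x : ℕ × ℕ}

/-- a pair printed for a local edge -/
def LE (w : ℕ) (l : List ℕ) (r : ℕ) (x : ℕ × ℕ) : Prop :=
  ∃ u v, (par w l).Lrel u v ∧ x = ((par w l).num (.c r u), (par w l).num (.c r v))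

theorem gspine_sound (h : x ∈ (gspine w).out l [r]) : LE w l r x := by
  simp only [gspine, Pg.mem_loop, Pg.mem_pair] at h
  obtain ⟨q, hq, rfl⟩ := h
  change q < 2 * (par w l).h + 8 + 2 * ((par w l).M + 3) * ((par w l).w + 2) at hq
  refine ⟨_, _, .spine ((par w l).K * q) (Dvd.intro _ rfl) ?_, rfl⟩
  rw [(par w l).N_eq]
  have : (par w l).K * (q + 1) ≤ (par w l).K *
      (2 * (par w l).h + 8 + 2 * ((par w l).M + 3) * ((par w l).w + 2)) :=
    Nat.mul_le_mul_left _ hq
  rw [Nat.mul_add, Nat.mul_one] at this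
  exact this

theorem gleft_sound (h : x ∈ (gleft w).out l [r]) : LE w l r x := by
  simp only [gleft, Pg.mem_loop, Pg.mem_pair] at h
  obtain ⟨q, hq, o, ho, rfl⟩ := h
  change q < (par w l).h + 3 at hq
  change o < w + 2 at ho
  have hK : (par w l).K = w + 3 := rfl
  have hD : (par w l).D = (par w l).K * ((par w l).h + 3) := rfl
  refine ⟨_, _, .left ((par w l).K * q + (o + 1)) ((par w l).K * (q + 1)) ?_
    (Dvd.intro _ rfl) ?_ ?_, rfl⟩
  · rw [hD]
    exact Nat.mul_le_mul_left _ hq
  · rw [Nat.mul_add]
    omega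
  · rw [Nat.mul_add]
    omega

theorem gright_sound (h : x ∈ (gright w).out l [r]) : LE w l r x := by
  simp only [gright, Pg.mem_loop, Pg.mem_pair] at h
  obtain ⟨q, hq, o, ho, rfl⟩ := h
  change q < (par w l).h + 4 at hq
  change o < w + 2 at ho
  have hK : (par w l).K = w + 3 := rfl
  have hN : (par w l).N = (par w l).E + (par w l).K * ((par w l).h + 4) := rfl
  have h1 : (par w l).K * (q + 1) ≤ (par w l).K * ((par w l).h + 4) := Nat.mul_le_mul_left _ hq
  rw [Nat.mul_add, Nat.mul_one] at h1
  have hE : (par w l).K ∣ (par w l).E := by rw [(par w l).E_eq]; exact Dvd.intro _ rfl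
  exact ⟨_, _, .right ((par w l).E + (par w l).K * q)
    ((par w l).E + (par w l).K * q + (o + 1)) (by omega)
    (dvd_add hE (Dvd.intro _ rfl)) (by omega) (by omega) (by omega), rfl⟩

theorem gpath_sound (h : x ∈ (gpath w).out l [r]) : LE w l r x := by
  simp only [gpath, Pg.mem_loop, Pg.mem_pair] at h
  obtain ⟨q, hq, o, ho, rfl⟩ := h
  change q < 1 + 2 * ((par w l).M + 3) * (w + 2) at hq
  change o < w + 2 at ho
  have hK : (par w l).K = w + 3 := rfl
  have hD : (par w l).D = (par w l).K * ((par w l).h + 3) := rfl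
  have hE := (par w l).E_eq
  have hw : (par w l).w = w := rfl
  have h1 : (par w l).K * (q + 1) ≤ (par w l).K * (1 + 2 * ((par w l).M + 3) * (w + 2)) :=
    Nat.mul_le_mul_left _ hq
  have h2 : (par w l).E = (par w l).D +
      (par w l).K * (1 + 2 * ((par w l).M + 3) * (w + 2)) := by
    rw [hE, hD, hw]
    ring
  rw [Nat.mul_add, Nat.mul_one] at h1
  refine ⟨_, _, .path ((par w l).D + (par w l).K * q + o) (by omega) (by omega) ?_, rfl⟩
  intro hd
  have h3 : (par w l).D + (par w l).K * q + o + 1 =
      (par w l).K * ((par w l).h + 3 + q) + (o + 1) := by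
    rw [hD]
    ring
  rw [h3, Nat.dvd_add_right (Dvd.intro _ rfl)] at hd
  have := Nat.le_of_dvd (by omega) hd
  omega

theorem st_one {P : Par} {e : ℕ} (he : e < P.n) : P.st (e + 1) = 2 * P.K := by
  unfold Par.st
  rw [if_neg (by omega), if_pos (by omega)]

theorem st_two {P : Par} : P.st (P.n + 1) = 4 * P.K := by
  unfold Par.st
  rw [if_neg (by omega), if_neg (by omega), if_pos rfl]

theorem ghop0_sound (h : x ∈ (ghop0 w).out l [r]) : LE w l r x := by
  simp only [ghop0, Pg.mem_loop, Pg.mem_pair] at h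
  obtain ⟨q, hq, rfl⟩ := h
  change q < (par w l).h at hq
  exact ⟨_, _, .hop 0 q (by omega) (by unfold Par.st; rw [if_pos rfl]; omega) hq, rfl⟩

theorem ghop1_sound (h : x ∈ (ghop1 w).out l [r]) : LE w l r x := by
  simp only [ghop1, Pg.mem_loop, Pg.mem_pair] at h
  obtain ⟨e, he, q, hq, rfl⟩ := h
  change e < (par w l).n at he
  change q < 2 * (w + 3) * ((par w l).M + 1) + (2 * w + 5) at hq
  have hh : (par w l).h = 2 * (w + 3) * ((par w l).M + 2) + 2 * w + 5 := rfl
  have h1 : 2 * (w + 3) * ((par w l).M + 2) = 2 * (w + 3) * ((par w l).M + 1) +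
    2 * (w + 3) := by ring
  exact ⟨_, _, .hop (e + 1) (2 * (w + 3) + q) (by omega)
    (by rw [st_one he]; change 2 * (w + 3) ≤ _; omega) (by omega), rfl⟩

theorem ghop2_sound (h : x ∈ (ghop2 w).out l [r]) : LE w l r x := by
  simp only [ghop2, Pg.mem_loop, Pg.mem_pair] at h
  obtain ⟨q, hq, rfl⟩ := h
  change q < 2 * (w + 3) * (par w l).M + (2 * w + 5) at hq
  have hh : (par w l).h = 2 * (w + 3) * ((par w l).M + 2) + 2 * w + 5 := rfl
  have h1 : 2 * (w + 3) * ((par w l).M + 2) = 2 * (w + 3) * (par w l).M +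
    4 * (w + 3) := by ring
  exact ⟨_, _, .hop ((par w l).n + 1) (4 * (w + 3) + q) (by omega)
    (by rw [st_two]; change 4 * (w + 3) ≤ _; omega) (by omega), rfl⟩

theorem glpin0_sound (h : x ∈ (glpin0 w).out l [r]) : LE w l r x := by
  simp only [glpin0, Pg.mem_pair] at h
  subst h
  have h0 : (par w l).st 0 = 0 := by unfold Par.st; rw [if_pos rfl]
  have := Par.Lrel.lpin (P := par w l) 0 (par w l).D (by omega)
    (by rw [h0, (par w l).C_zero])
  rw [h0] at this
  exact ⟨_, _, this, rfl⟩

theorem glpin1_sound (h : x ∈ (glpin1 w).out l [r]) : LE w l r x := by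
  simp only [glpin1, Pg.mem_loop, Pg.mem_pair] at h
  obtain ⟨e, he, rfl⟩ := h
  change e < (par w l).n at he
  have h0 := st_one he
  have := Par.Lrel.lpin (P := par w l) (e + 1) ((par w l).D + 2 * (w + 2) * (w + 3)) (by omega)
    (by
      rw [h0]
      have hK : (par w l).K = w + 3 := rfl
      have hw : (par w l).w = w := rfl
      unfold Par.C Par.D
      rw [hK, hw]
      ring)
  rw [h0] at this
  exact ⟨_, _, this, rfl⟩

theorem glpin2_sound (h : x ∈ (glpin2 w).out l [r]) : LE w l r x := by
  simp only [glpin2, Pg.mem_pair] at h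
  subst h
  have h0 := st_two (P := par w l)
  have := Par.Lrel.lpin (P := par w l) ((par w l).n + 1) ((par w l).D + 4 * (w + 2) * (w + 3))
    (by omega)
    (by
      rw [h0]
      have hK : (par w l).K = w + 3 := rfl
      have hw : (par w l).w = w := rfl
      unfold Par.C Par.D
      rw [hK, hw]
      ring)
  rw [h0] at this
  exact ⟨_, _, this, rfl⟩

theorem grpin_sound (h : x ∈ (grpin w).out l [r]) : LE w l r x := by
  simp only [grpin, Pg.mem_loop, Pg.mem_pair] at h
  obtain ⟨c, hc, rfl⟩ := h
  change c < (par w l).n + 2 at hc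
  exact ⟨_, _, .rpin c (by omega), rfl⟩

theorem gshop_sound (h : x ∈ (gshop w).out l [r]) : LE w l r x := by
  simp only [gshop, Pg.mem_loop, Pg.mem_pair] at h
  obtain ⟨q, hq, rfl⟩ := h
  change q < 2 * (w + 3) * ((par w l).M + 2) + (w + 2) at hq
  have hh : (par w l).h = 2 * (w + 3) * ((par w l).M + 2) + 2 * w + 5 := rfl
  have hw : (par w l).w = w := rfl
  exact ⟨_, _, .shop (w + 2 + q) (by omega) (by omega), rfl⟩

theorem gslpin_sound (h : x ∈ (gslpin w).out l [r]) : LE w l r x := by
  simp only [gslpin, Pg.mem_pair] at h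
  subst h
  have := Par.Lrel.slpin (P := par w l) ((par w l).D + (w + 1) * (w + 3))
    (by
      have hK : (par w l).K = w + 3 := rfl
      have hw : (par w l).w = w := rfl
      unfold Par.C Par.D
      rw [hK, hw]
      ring)
  exact ⟨_, _, this, rfl⟩

theorem gsrpin_sound (h : x ∈ (gsrpin w).out l [r]) : LE w l r x := by
  simp only [gsrpin, Pg.mem_pair] at h
  subst h
  have hh : (par w l).h = 2 * (w + 3) * ((par w l).M + 2) + 2 * w + 5 := rfl
  have := Par.Lrel.srpin (P := par w l) (2 * (w + 3) * ((par w l).M + 2) + (2 * w + 4))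
    ((w + 3) * ((par w l).h + 3 + 2 * ((par w l).M + 3) * (w + 2)))
    (by omega)
    (by
      rw [(par w l).E_eq]
      have hK : (par w l).K = w + 3 := rfl
      have hw : (par w l).w = w := rfl
      rw [hK, hw]
      ring)
  exact ⟨_, _, this, rfl⟩

theorem gcon_sound {i t b a c : ℕ} {ei eb ea ec : Ex} (hi : i < (par w l).M)
    (h1 : ei.val l [t, r] = i) (h2 : eb.val l [t, r] = b) (h3 : ea.val l [t, r] = a)
    (h4 : ec.val l [t, r] = c) (hq : (par w l).q i = (b, a, c))
    (h : x ∈ (gcon w ei eb ea ec).out l [t, r]) : LE w l r x := by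
  have hpin := (par w l).ypin_eq i
  simp only [gcon, Pg.mem_seq, Pg.mem_pair] at h
  have hya := Par.Lrel.yp (P := par w l) i hi
  have hza := Par.Lrel.zp (P := par w l) i hi
  rw [hpin] at hya hza
  have e1 := Par.Lrel.cya (P := par w l) i hi
  have e2 := Par.Lrel.cyc (P := par w l) i hi
  have e3 := Par.Lrel.cz (P := par w l) i hi
  rw [hq] at e1 e2 e3
  subst h1 h2 h3 h4
  rcases h with h | h | h | h | h
  · exact ⟨_, _, e1, h⟩
  · exact ⟨_, _, e2, h⟩
  · exact ⟨_, _, e3, h⟩
  · exact ⟨_, _, hya, h⟩
  · exact ⟨_, _, hza, h⟩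

theorem gcons_sound (h : x ∈ (gcons w).out l [r]) : LE w l r x := by
  simp only [gcons, Pg.mem_loop, Pg.mem_seq] at h
  obtain ⟨t, ht, h⟩ := h
  change t < l.getD 1 0 at ht
  have hM : (par w l).M = 2 * l.getD 1 0 := rfl
  rcases h with h | h
  · refine gcon_sound (i := 2 * t) (by omega) rfl rfl rfl rfl ?_ h
    change (if (2 * t) % 2 = 0 then _ else _) = _
    rw [if_pos (by omega), show 2 * t / 2 = t by omega]
    rfl
  · refine gcon_sound (i := 2 * t + 1) (by omega) rfl rfl rfl rfl ?_ h
    change (if (2 * t + 1) % 2 = 0 then _ else _) = _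
    rw [if_neg (by omega), show (2 * t + 1) / 2 = t by omega]
    rfl

theorem gloc_sound (h : x ∈ (gloc w).out l [r]) : LE w l r x := by
  simp only [gloc, Pg.mem_seq] at h
  rcases h with h | h | h | h | h | h | h | h | h | h | h | h | h | h | h
  · exact gspine_sound h
  · exact gleft_sound h
  · exact gright_sound h
  · exact gpath_sound h
  · exact ghop0_sound h
  · exact ghop1_sound h
  · exact ghop2_sound h
  · exact glpin0_sound h
  · exact glpin1_sound h
  · exact glpin2_sound h
  · exact grpin_sound h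
  · exact gshop_sound h
  · exact gslpin_sound h
  · exact gsrpin_sound h
  · exact gcons_sound h

end sound

section complete

variable {w : ℕ} {l : List ℕ} {r : ℕ}

/-- the five edges of a constraint -/
def Five (w : ℕ) (l : List ℕ) (r i : ℕ) (x : ℕ × ℕ) : Prop :=
  let P := par w l
  x = (P.num (.c r (.x ((P.q i).2.1 + 1) (P.jl i))), P.num (.c r (.y i))) ∨
  x = (P.num (.c r (.x ((P.q i).2.2 + 1) (P.jl i))), P.num (.c r (.y i))) ∨
  x = (P.num (.c r (.x ((P.q i).1 + 1) (P.jl i))), P.num (.c r (.z i))) ∨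
  x = (P.num (.c r (.y i)), P.num (.c r (.t (P.C (P.jl i + 1) + (P.w + 1))))) ∨
  x = (P.num (.c r (.z i)), P.num (.c r (.t (P.C (P.jl i + 1) + (P.w + 1)))))

theorem gcons_complete {i : ℕ} {x : ℕ × ℕ} (hi : i < (par w l).M) (h : Five w l r i x) :
    x ∈ (gcons w).out l [r] := by
  have hM : (par w l).M = 2 * l.getD 1 0 := rfl
  unfold Five at h
  simp only [(par w l).ypin_eq i] at h
  simp only [gcons, gcon, Pg.mem_loop, Pg.mem_seq, Pg.mem_pair]
  rcases Nat.even_or_odd' i with ⟨t, rfl | rfl⟩
  · have hq : (par w l).q (2 * t) = (l.getD (2 + 3 * t) 0, l.getD (3 + 3 * t) 0,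
        l.getD (4 + 3 * t) 0) := by
      change (if (2 * t) % 2 = 0 then _ else _) = _
      rw [if_pos (by omega), show 2 * t / 2 = t by omega]
    rw [hq] at h
    exact ⟨t, show t < l.getD 1 0 by omega, Or.inl h⟩
  · have hq : (par w l).q (2 * t + 1) = (l.getD (4 + 3 * t) 0, l.getD (2 + 3 * t) 0,
        l.getD (3 + 3 * t) 0) := by
      change (if (2 * t + 1) % 2 = 0 then _ else _) = _
      rw [if_neg (by omega), show (2 * t + 1) / 2 = t by omega]
    rw [hq] at h
    exact ⟨t, show t < l.getD 1 0 by omega, Or.inr h⟩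

theorem loc_complete {u v : Loc} (h : (par w l).Lrel u v) :
    ((par w l).num (.c r u), (par w l).num (.c r v)) ∈ (gloc w).out l [r] := by
  have hK : (par w l).K = w + 3 := rfl
  have hw : (par w l).w = w := rfl
  have hKp := (par w l).Kpos
  have hD : (par w l).D = (par w l).K * ((par w l).h + 3) := rfl
  have hN : (par w l).N = (par w l).E + (par w l).K * ((par w l).h + 4) := rfl
  have hh : (par w l).h = 2 * (w + 3) * ((par w l).M + 2) + 2 * w + 5 := rfl
  have hE := (par w l).E_eq
  have hED : (par w l).E = (par w l).D +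
      (par w l).K * (1 + 2 * ((par w l).M + 3) * (w + 2)) := by
    rw [hE, hD, hw]
    ring
  have hC0 := (par w l).C_zero
  simp only [gloc, Pg.mem_seq]
  cases h with
  | spine i h1 h2 =>
    left
    obtain ⟨q, rfl⟩ := h1
    simp only [gspine, Pg.mem_loop, Pg.mem_pair]
    refine ⟨q, ?_, rfl⟩
    change q < 2 * (par w l).h + 8 + 2 * ((par w l).M + 3) * ((par w l).w + 2)
    rw [(par w l).N_eq, show (par w l).K * q + (par w l).K = (par w l).K * (q + 1) by ring] at h2
    exact Nat.le_of_mul_le_mul_left h2 hKp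
  | left i j h1 h2 h3 h4 =>
    right; left
    obtain ⟨q, rfl⟩ := h2
    have hq : q ≠ 0 := by rintro rfl; omega
    obtain ⟨q, rfl⟩ := Nat.exists_eq_succ_of_ne_zero hq
    rw [Nat.succ_eq_add_one] at *
    simp only [gleft, Pg.mem_loop, Pg.mem_pair]
    have h5 : (par w l).K * (q + 1) = (par w l).K * q + (par w l).K := by ring
    refine ⟨q, ?_, i - (par w l).K * q - 1, ?_, ?_⟩
    · change q < (par w l).h + 3
      rw [hD] at h1
      exact Nat.le_of_mul_le_mul_left h1 hKp
    · change i - (par w l).K * q - 1 < w + 2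
      omega
    · have h6 : (par w l).K * q + (i - (par w l).K * q - 1 + 1) = i := by omega
      change _ = ((par w l).num (.c r (.t ((par w l).K * q + (i - (par w l).K * q - 1 + 1)))),
        (par w l).num (.c r (.t ((par w l).K * (q + 1)))))
      rw [h6]
  | right i j h1 h2 h3 h4 h5 =>
    right; right; left
    have hEd : (par w l).K ∣ (par w l).E := by rw [hE]; exact Dvd.intro _ rfl
    obtain ⟨q, hq⟩ := (Nat.dvd_sub h2 hEd)
    have hi : i = (par w l).E + (par w l).K * q := by omega
    simp only [gright, Pg.mem_loop, Pg.mem_pair]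
    refine ⟨q, ?_, j - i - 1, ?_, ?_⟩
    · change q < (par w l).h + 4
      have : (par w l).K * q < (par w l).K * ((par w l).h + 4) := by omega
      exact Nat.lt_of_mul_lt_mul_left this
    · change j - i - 1 < w + 2
      omega
    · have h6 : i + (j - i - 1 + 1) = j := by omega
      change _ = ((par w l).num (.c r (.t ((par w l).E + (par w l).K * q))),
        (par w l).num (.c r (.t ((par w l).E + (par w l).K * q + (j - i - 1 + 1)))))
      rw [← hi, h6]
  | path i h1 h2 h3 =>
    right; right; right; left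
    simp only [gpath, Pg.mem_loop, Pg.mem_pair]
    have h4 := Nat.div_add_mod (i - (par w l).D) (par w l).K
    have h5 := Nat.mod_lt (i - (par w l).D) hKp
    refine ⟨(i - (par w l).D) / (par w l).K, ?_, (i - (par w l).D) % (par w l).K, ?_, ?_⟩
    · change (i - (par w l).D) / (par w l).K < 1 + 2 * ((par w l).M + 3) * (w + 2)
      rw [Nat.div_lt_iff_lt_mul hKp, Nat.mul_comm]
      omega
    · change (i - (par w l).D) % (par w l).K < w + 2
      have : (i - (par w l).D) % (par w l).K ≠ w + 2 := by
        intro h6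
        apply h3
        have h7 : i + 1 = (par w l).K * ((par w l).h + 3 + (i - (par w l).D) / (par w l).K + 1) := by
          rw [Nat.mul_add, Nat.mul_add, Nat.mul_one, ← hD]
          omega
        rw [h7]
        exact Dvd.intro _ rfl
      omega
    · have h6 : (par w l).D + (par w l).K * ((i - (par w l).D) / (par w l).K) +
          (i - (par w l).D) % (par w l).K = i := by omega
      change _ = ((par w l).num (.c r (.t ((par w l).D +
        (par w l).K * ((i - (par w l).D) / (par w l).K) + (i - (par w l).D) % (par w l).K))),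
        (par w l).num (.c r (.t ((par w l).D +
        (par w l).K * ((i - (par w l).D) / (par w l).K) + (i - (par w l).D) % (par w l).K + 1))))
      rw [h6]
  | hop c q h1 h2 h3 =>
    rcases Nat.eq_zero_or_pos c with h0 | h0
    · subst h0
      right; right; right; right; left
      simp only [ghop0, Pg.mem_loop, Pg.mem_pair]
      exact ⟨q, h3, rfl⟩
    rcases Nat.lt_or_ge (par w l).n c with h4 | h4
    · have : c = (par w l).n + 1 := by omega
      subst this
      rw [st_two, hK] at h2
      right; right; right; right; right; right; left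
      simp only [ghop2, Pg.mem_loop, Pg.mem_pair]
      refine ⟨q - 4 * (w + 3), ?_, ?_⟩
      · change q - 4 * (w + 3) < 2 * (w + 3) * (par w l).M + (2 * w + 5)
        have h5 : 2 * (w + 3) * ((par w l).M + 2) = 2 * (w + 3) * (par w l).M +
          4 * (w + 3) := by ring
        omega
      · have h6 : 4 * (w + 3) + (q - 4 * (w + 3)) = q := by omega
        change _ = ((par w l).num (.c r (.x ((par w l).n + 1) (4 * (w + 3) +
          (q - 4 * (w + 3))))), (par w l).num (.c r (.x ((par w l).n + 1) (4 * (w + 3) +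
          (q - 4 * (w + 3)) + 1))))
        rw [h6]
    · obtain ⟨e, rfl⟩ := Nat.exists_eq_succ_of_ne_zero (show c ≠ 0 by omega)
      rw [Nat.succ_eq_add_one] at *
      rw [st_one (by omega), hK] at h2
      right; right; right; right; right; left
      simp only [ghop1, Pg.mem_loop, Pg.mem_pair]
      refine ⟨e, h4, q - 2 * (w + 3), ?_, ?_⟩
      · change q - 2 * (w + 3) < 2 * (w + 3) * ((par w l).M + 1) + (2 * w + 5)
        have h5 : 2 * (w + 3) * ((par w l).M + 2) = 2 * (w + 3) * ((par w l).M + 1) +
          2 * (w + 3) := by ring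
        omega
      · have h6 : 2 * (w + 3) + (q - 2 * (w + 3)) = q := by omega
        change _ = ((par w l).num (.c r (.x (e + 1) (2 * (w + 3) +
          (q - 2 * (w + 3))))), (par w l).num (.c r (.x (e + 1) (2 * (w + 3) +
          (q - 2 * (w + 3)) + 1))))
        rw [h6]
  | lpin c i h1 h2 =>
    have hCd : ∀ s, (par w l).C s = (par w l).D + (par w l).K + s * (w + 2) := by
      intro s
      unfold Par.C Par.D
      rw [hw]
      ring
    rcases Nat.eq_zero_or_pos c with h0 | h0
    · subst h0
      have h3 : (par w l).st 0 = 0 := by unfold Par.st; rw [if_pos rfl]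
      rw [h3] at h2 ⊢
      have h4 : i = (par w l).D := by omega
      subst h4
      right; right; right; right; right; right; right; left
      simp only [glpin0, Pg.mem_pair]
      rfl
    rcases Nat.lt_or_ge (par w l).n c with h4 | h4
    · have : c = (par w l).n + 1 := by omega
      subst this
      rw [st_two, hCd] at h2
      rw [st_two]
      have h5 : i = (par w l).D + 4 * (w + 2) * (w + 3) := by
        have : 4 * (par w l).K * (w + 2) = 4 * (w + 2) * (w + 3) := by rw [hK]; ring
        omega
      subst h5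
      right; right; right; right; right; right; right; right; right; left
      simp only [glpin2, Pg.mem_pair]
      rfl
    · obtain ⟨e, rfl⟩ := Nat.exists_eq_succ_of_ne_zero (show c ≠ 0 by omega)
      rw [Nat.succ_eq_add_one] at *
      rw [st_one (by omega), hCd] at h2
      rw [st_one (by omega)]
      have h5 : i = (par w l).D + 2 * (w + 2) * (w + 3) := by
        have : 2 * (par w l).K * (w + 2) = 2 * (w + 2) * (w + 3) := by rw [hK]; ring
        omega
      subst h5
      right; right; right; right; right; right; right; right; left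
      simp only [glpin1, Pg.mem_loop, Pg.mem_pair]
      exact ⟨e, h4, rfl⟩
  | rpin c h1 =>
    right; right; right; right; right; right; right; right; right; right; left
    simp only [grpin, Pg.mem_loop, Pg.mem_pair]
    exact ⟨c, Nat.lt_succ_of_le h1, rfl⟩
  | shop q h1 h2 =>
    right; right; right; right; right; right; right; right; right; right; right; left
    simp only [gshop, Pg.mem_loop, Pg.mem_pair]
    rw [hw] at h1
    refine ⟨q - (w + 2), ?_, ?_⟩
    · change q - (w + 2) < 2 * (w + 3) * ((par w l).M + 2) + (w + 2)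
      omega
    · have h6 : w + 2 + (q - (w + 2)) = q := by omega
      change _ = ((par w l).num (.c r (.x ((par w l).n + 2) (w + 2 + (q - (w + 2))))),
        (par w l).num (.c r (.x ((par w l).n + 2) (w + 2 + (q - (w + 2)) + 1))))
      rw [h6]
  | slpin i h1 =>
    right; right; right; right; right; right; right; right; right; right; right; right; left
    simp only [gslpin, Pg.mem_pair]
    have h5 : i = (par w l).D + (w + 1) * (w + 3) := by
      have : (par w l).C ((par w l).w + 2) = (par w l).D + (w + 1) * (w + 3) +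
          (par w l).K + 1 := by
        unfold Par.C Par.D
        rw [hw, hK]
        ring
      omega
    subst h5
    rfl
  | srpin q i h1 h2 =>
    right; right; right; right; right; right; right; right; right; right; right; right; right
    left
    simp only [gsrpin, Pg.mem_pair]
    have h5 : q = 2 * (w + 3) * ((par w l).M + 2) + (2 * w + 4) := by omega
    have h6 : i = (w + 3) * ((par w l).h + 3 + 2 * ((par w l).M + 3) * (w + 2)) := by
      have : (par w l).E = (w + 3) * ((par w l).h + 3 + 2 * ((par w l).M + 3) * (w + 2)) +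
          (par w l).K := by
        rw [hE, hK, hw]
        ring
      omega
    subst h5 h6
    rfl
  | cya i h1 =>
    have := gcons_complete (r := r) h1 (Or.inl rfl)
    tauto
  | cyc i h1 =>
    have := gcons_complete (r := r) h1 (Or.inr (Or.inl rfl))
    tauto
  | cz i h1 =>
    have := gcons_complete (r := r) h1 (Or.inr (Or.inr (Or.inl rfl)))
    tauto
  | yp i h1 =>
    have := gcons_complete (r := r) h1 (Or.inr (Or.inr (Or.inr (Or.inl rfl))))
    tauto
  | zp i h1 =>
    have := gcons_complete (r := r) h1 (Or.inr (Or.inr (Or.inr (Or.inr rfl))))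
    tauto

end complete

end Pool.Agent.H68.OQP
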