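import Pool.Agent.H68.OQP.Data

/-!
Tightness: the spine T-vertices of a good copy are equally spaced.
-/

namespace Pool.Agent.H68.OQP

namespace Par

variable (P : Par)

/-- number of spine edges -/
def m : ℕ := 2 * P.h + 8 + 2 * (P.M + 3) * (P.w + 2)

theorem N_eq' : P.N = P.K * P.m := P.N_eq

theorem spread (a : ℕ → ℤ) (N : ℕ) (hinj : ∀ i ≤ N, ∀ j ≤ N, a i = a j → i = j) :
    ∃ i ≤ N, ∃ j ≤ N, a i + N ≤ a j := by
  classical
  have hcard : ((Finset.range (N + 1)).image a).card = N + 1 := by
    rw [Finset.card_image_of_injOn, Finset.card_range]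
    intro i hi j hj h
    have hi' := Finset.mem_range.1 (Finset.mem_coe.1 hi)
    have hj' := Finset.mem_range.1 (Finset.mem_coe.1 hj)
    exact hinj i (by omega) j (by omega) h
  have hne : ((Finset.range (N + 1)).image a).Nonempty := by
    rw [← Finset.card_pos, hcard]
    omega
  obtain ⟨i, hi, hi'⟩ := Finset.mem_image.1 (Finset.min'_mem _ hne)
  obtain ⟨j, hj, hj'⟩ := Finset.mem_image.1 (Finset.max'_mem _ hne)
  rw [Finset.mem_range] at hi hj
  refine ⟨i, by omega, j, by omega, ?_⟩
  have hsub : (Finset.range (N + 1)).image a ⊆ Finset.Icc (a i) (a j) := by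
    intro x hx
    rw [Finset.mem_Icc, hi', hj']
    exact ⟨Finset.min'_le _ _ hx, Finset.le_max' _ _ hx⟩
  have := Finset.card_le_card hsub
  rw [hcard, Int.card_Icc] at this
  omega

variable {P}

section

variable (a : ℕ → ℤ)
  (hlip : ∀ i j, i ≤ P.N → j ≤ P.N → P.Lrel (.t i) (.t j) → |a i - a j| ≤ P.K)

include hlip

theorem spine_lip (q d : ℕ) (h : q + d ≤ P.m) :
    |a (P.K * (q + d)) - a (P.K * q)| ≤ P.K * d := by
  induction d with
  | zero => simp
  | succ d ih =>
    have h1 := ih (by omega)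
    have hN : P.K * (q + (d + 1)) ≤ P.N := by
      rw [N_eq']
      exact Nat.mul_le_mul_left _ h
    have he : P.K * (q + (d + 1)) = P.K * (q + d) + P.K := by ring
    have h2 := hlip (P.K * (q + d)) (P.K * (q + d) + P.K) (by omega) (by omega)
      (.spine _ (Dvd.intro _ rfl) (by omega))
    rw [← he] at h2
    rw [abs_le] at *
    push_cast
    constructor <;> nlinarith

theorem inner_lip (q o : ℕ) (ho : o < P.K) (h1 : P.D ≤ P.K * q) (h2 : P.K * q + o ≤ P.E) :
    |a (P.K * q + o) - a (P.K * q)| ≤ P.K * o := by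
  have hEN := P.E_le_N
  induction o with
  | zero => simp
  | succ o ih =>
    have h3 := ih (by omega) (by omega)
    have h4 := hlip (P.K * q + o) (P.K * q + o + 1) (by omega) (by omega)
      (.path _ (by omega) (by omega) (by
        intro hd
        rw [Nat.add_assoc, Nat.dvd_add_right (Dvd.intro _ rfl)] at hd
        exact absurd (Nat.le_of_dvd (by omega) hd) (by omega)))
    rw [Nat.add_assoc] at h4
    rw [abs_le] at *
    push_cast
    constructor <;> nlinarith

theorem anchor (i : ℕ) (hi : i ≤ P.N) : ∃ q d : ℕ, 1 ≤ q ∧ q + 1 ≤ P.m ∧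
    |a i - a (P.K * q)| ≤ P.K * d ∧ d ≤ q ∧ q + d ≤ P.m ∧ (q + d = P.m → q + 1 = P.m) ∧
    (q = d → q = 1) := by
  have hK := P.Kpos
  have hKh := P.le_h
  have hm : 2 * P.h + 8 ≤ P.m := by unfold m; omega
  have hdiv := Nat.div_add_mod i P.K
  have hmod := Nat.mod_lt i hK
  have hDE : P.E = P.K * (P.m - (P.h + 4)) := by
    rw [P.E_eq]
    congr 1
    unfold m
    omega
  rcases P.T_cases hi with h | ⟨h1, h3, h2⟩ | ⟨h1, h2⟩ | ⟨h1, h2, h3⟩
  · obtain ⟨q, rfl⟩ := h
    have hq : q ≤ P.m := by
      rw [P.N_eq'] at hi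
      exact Nat.le_of_mul_le_mul_left hi hK
    rcases Nat.eq_zero_or_pos q with h0 | h0
    · subst h0
      have := spine_lip a hlip 0 1 (by omega)
      simp only [Nat.mul_zero, Nat.zero_add, Nat.cast_one, mul_one] at this
      rw [abs_sub_comm] at this
      refine ⟨1, 1, le_rfl, by omega, ?_, le_rfl, by omega, by omega, by omega⟩
      simpa using this
    · rcases Nat.eq_or_lt_of_le hq with h4 | h4
      · have := spine_lip a hlip (P.m - 1) 1 (by omega)
        have he : P.m - 1 + 1 = q := by omega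
        rw [he] at this
        exact ⟨P.m - 1, 1, by omega, by omega, this, by omega, by omega, by omega, by omega⟩
      · exact ⟨q, 0, h0, by omega, by simp, by omega, by omega, by omega, by omega⟩
  · have hq : i / P.K + 1 ≤ P.h + 3 := by
      have : P.D = P.K * (P.h + 3) := rfl
      rw [this] at h3
      exact Nat.le_of_mul_le_mul_left h3 hK
    refine ⟨i / P.K + 1, 1, Nat.le_add_left _ _, by omega, ?_, Nat.le_add_left _ _, by omega,
      by omega, fun h => h⟩
    have hDE := P.D_le_E
    have hEN := P.E_le_N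
    have := hlip _ _ hi (by omega) h2
    simpa using this
  · have hq1 : P.m - (P.h + 4) ≤ i / P.K := by
      rw [hDE] at h1
      rw [Nat.le_div_iff_mul_le hK, Nat.mul_comm]
      exact h1.le
    by_cases hz : i % P.K = 0
    · -- multiples of K
      have hiq : i = P.K * (i / P.K) := by omega
      have hq : i / P.K ≤ P.m := by
        rw [P.N_eq'] at hi
        exact Nat.div_le_of_le_mul hi
      rcases Nat.eq_or_lt_of_le hq with h4 | h4
      · have := spine_lip a hlip (P.m - 1) 1 (by omega)
        have he : P.m - 1 + 1 = i / P.K := by omega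
        rw [he, ← hiq] at this
        exact ⟨P.m - 1, 1, by omega, by omega, this, by omega, by omega, by omega, by omega⟩
      · exact ⟨i / P.K, 0, by omega, by omega, by rw [← hiq]; simp, by omega, by omega,
          by omega, by omega⟩
    · have hq : i / P.K + 1 ≤ P.m := by
        rw [P.N_eq'] at hi
        have : i / P.K ≤ P.m := Nat.div_le_of_le_mul hi
        rcases Nat.eq_or_lt_of_le this with h4 | h4
        · rw [h4] at hdiv
          omega
        · exact h4
      have := hlip _ _ (by omega) hi h2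
      rw [abs_sub_comm] at this
      refine ⟨i / P.K, 1, by omega, by omega, by simpa using this, by omega, by omega,
        by omega, by omega⟩
  · have hq1 : P.h + 3 ≤ i / P.K := by
      rw [Nat.le_div_iff_mul_le hK, Nat.mul_comm]
      exact h1.le
    have hq2 : i / P.K ≤ P.m - (P.h + 4) := by
      rw [hDE] at h2
      exact Nat.div_le_of_le_mul h2.le
    have := inner_lip a hlip (i / P.K) (i % P.K) hmod (Nat.mul_le_mul_left _ hq1) (by omega)
    rw [hdiv] at this
    exact ⟨i / P.K, i % P.K, by omega, by omega, this, by omega, by omega, by omega, by omega⟩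

theorem tight_aux (i j : ℕ) (hspread : a i + P.N ≤ a j) (q d q' d' : ℕ)
    (h1 : 1 ≤ q) (h2 : q' + 1 ≤ P.m) (h3 : |a i - a (P.K * q)| ≤ P.K * d) (h4 : d ≤ q)
    (h5 : q = d → q = 1) (h6 : |a j - a (P.K * q')| ≤ P.K * d') (h7 : q' + d' ≤ P.m)
    (h8 : q' + d' = P.m → q' + 1 = P.m) (hqq : q ≤ q') (p : ℕ) (hp : 1 ≤ p)
    (hp' : p + 1 ≤ P.m) : a (P.K * p) = a i + P.K * p := by
  have hK := P.Kpos
  have h9 := spine_lip a hlip q (q' - q) (by omega)
  have he : q + (q' - q) = q' := by omega
  rw [he] at h9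
  have hNm : (P.N : ℤ) = P.K * P.m := by rw [P.N_eq']; push_cast; ring
  rw [abs_le] at h3 h6 h9
  have h10 : (P.K : ℤ) * P.m ≤ P.K * (d + (q' - q : ℕ) + d' : ℕ) := by
    push_cast at *
    nlinarith
  have h11 : P.m ≤ d + (q' - q) + d' := by
    have hK' : (0 : ℤ) < P.K := by exact_mod_cast hK
    have := le_of_mul_le_mul_left h10 hK'
    exact_mod_cast this
  have hd : q = d := by omega
  have hq1 := h5 hd
  have hq' := h8 (by omega)
  have hd' : d' = 1 := by omega
  subst hd' hd hq1
  have h12 := spine_lip a hlip 1 (p - 1) (by omega)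
  have h13 := spine_lip a hlip p (q' - p) (by omega)
  have he1 : 1 + (p - 1) = p := by omega
  have he2 : p + (q' - p) = q' := by omega
  rw [he1, abs_le] at h12
  rw [he2, abs_le] at h13
  have hc1 : ((p - 1 : ℕ) : ℤ) = p - 1 := by push_cast [hp]; ring
  have hc2 : ((q' - p : ℕ) : ℤ) = q' - p := by
    rw [Nat.cast_sub (by omega)]
  have hc3 : (P.m : ℤ) = q' + 1 := by exact_mod_cast hq'.symm
  rw [hc1] at h12
  rw [hc2] at h13
  rw [hNm, hc3] at hspread
  push_cast at *
  have e1 : (P.K : ℤ) * (p - 1) = P.K * p - P.K := by ring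
  have e2 : (P.K : ℤ) * (q' - p) = P.K * q' - P.K * p := by ring
  have e3 : (P.K : ℤ) * (q' + 1) = P.K * q' + P.K := by ring
  rw [e1] at h12
  rw [e2] at h13
  rw [e3] at hspread
  simp only [mul_one] at *
  apply le_antisymm <;> linarith

end

theorem tight (a : ℕ → ℤ) (hinj : ∀ i ≤ P.N, ∀ j ≤ P.N, a i = a j → i = j)
    (hlip : ∀ i j, i ≤ P.N → j ≤ P.N → P.Lrel (.t i) (.t j) → |a i - a j| ≤ P.K) :
    ∃ I : ℤ, (∀ p, 1 ≤ p → p + 1 ≤ P.m → a (P.K * p) = I + P.K * p) ∨
      (∀ p, 1 ≤ p → p + 1 ≤ P.m → a (P.K * p) = I - P.K * p) := by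
  obtain ⟨i, hi, j, hj, hspread⟩ := spread a P.N hinj
  obtain ⟨q, d, h1, h2, h3, h4, h5, h6, h7⟩ := anchor a hlip i hi
  obtain ⟨q', d', g1, g2, g3, g4, g5, g6, g7⟩ := anchor a hlip j hj
  rcases le_total q q' with hqq | hqq
  · exact ⟨a i, Or.inl (tight_aux a hlip i j hspread q d q' d' h1 g2 h3 h4 h7 g3 g5 g6 hqq)⟩
  · refine ⟨a j, Or.inr ?_⟩
    have hlip' : ∀ i j, i ≤ P.N → j ≤ P.N → P.Lrel (.t i) (.t j) →
        |(fun i => - a i) i - (fun i => - a i) j| ≤ P.K := by
      intro i j hi hj h
      have := hlip i j hi hj h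
      simp only
      rw [abs_sub_comm] at this
      have e : - a i - - a j = a j - a i := by ring
      rw [e]
      exact this
    have h3' : |(fun i => - a i) i - (fun i => - a i) (P.K * q)| ≤ P.K * d := by
      simp only
      rw [abs_sub_comm] at h3
      have e : - a i - - a (P.K * q) = a (P.K * q) - a i := by ring
      rw [e]
      exact h3
    have g3' : |(fun i => - a i) j - (fun i => - a i) (P.K * q')| ≤ P.K * d' := by
      simp only
      rw [abs_sub_comm] at g3
      have e : - a j - - a (P.K * q') = a (P.K * q') - a j := by ring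
      rw [e]
      exact g3
    intro p hp hp'
    have := tight_aux (fun i => - a i) hlip' j i (by linarith) q' d' q d g1 h2 g3' g4
      g7 h3' h5 h6 hqq p hp hp'
    linarith

end Par

end Pool.Agent.H68.OQP
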