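import Mathlib

/-!
Crossing chords, outer `k`-quasi-planar graphs, and the basic twist lemmas.
-/

namespace Pool.Agent.H68.OQP

/-- The chords `e` and `e'` cross when the vertices are placed in the order given by `f`: their
intervals overlap, none contains the other and no endpoint is shared. -/
def Cross {V : Type*} (f : V → ℕ) (e e' : V × V) : Prop :=
  (min (f e.1) (f e.2) < min (f e'.1) (f e'.2) ∧ min (f e'.1) (f e'.2) < max (f e.1) (f e.2) ∧
    max (f e.1) (f e.2) < max (f e'.1) (f e'.2)) ∨
  (min (f e'.1) (f e'.2) < min (f e.1) (f e.2) ∧ min (f e.1) (f e.2) < max (f e'.1) (f e'.2) ∧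
    max (f e'.1) (f e'.2) < max (f e.1) (f e.2))

/-- no `K + 1` pairwise crossing edges -/
def NoTw {V : Type*} (G : SimpleGraph V) (f : V → ℕ) (K : ℕ) : Prop :=
  ¬ ∃ e : Fin (K + 1) → V × V, (∀ i, G.Adj (e i).1 (e i).2) ∧
    ∀ i j, i ≠ j → Cross f (e i) (e j)

section

variable {V : Type*} {G : SimpleGraph V} {f : V → ℕ} {K : ℕ}

theorem Cross.symm {e e' : V × V} (h : Cross f e e') : Cross f e' e := by
  unfold Cross at *
  omega

theorem cross_of {a b c d : V} (h1 : f a < f c) (h2 : f c < f b) (h3 : f b < f d) :
    Cross f (a, b) (c, d) := by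
  unfold Cross
  simp only
  omega

theorem NoTw.list (h : NoTw G f K) (l : List (V × V)) (hadj : ∀ e ∈ l, G.Adj e.1 e.2)
    (hp : l.Pairwise (Cross f)) : l.length ≤ K := by
  by_contra hlt
  push Not at hlt
  refine h ⟨fun i => l.get (Fin.castLE hlt i), fun i => hadj _ (List.get_mem _ _), ?_⟩
  intro i j hij
  rw [List.pairwise_iff_get] at hp
  rcases lt_or_gt_of_ne hij with hij | hij
  · exact hp _ _ (by simpa [Fin.castLE_lt_castLE_iff] using hij)
  · exact (hp _ _ (by simpa [Fin.castLE_lt_castLE_iff] using hij)).symm

theorem noTw_of_list (h : ∀ l : List (V × V), (∀ e ∈ l, G.Adj e.1 e.2) →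
    l.Pairwise (Cross f) → l.length ≤ K) : NoTw G f K := by
  rintro ⟨e, he, hc⟩
  have := h (List.ofFn e) (by
    intro x hx
    obtain ⟨i, rfl⟩ := (List.mem_ofFn' _ _).1 hx
    exact he i) (by
    rw [List.pairwise_ofFn]
    intro i j hij
    exact hc i j (ne_of_lt hij))
  simp at this

/-- sorted enumeration of a finite set -/
theorem enum [Nonempty V] (S : Finset V) (hinj : ∀ u ∈ S, ∀ v ∈ S, f u = f v → u = v) (r : ℕ)
    (hr : r ≤ S.card) :
    ∃ t : ℕ → V, (∀ i < r, t i ∈ S) ∧ ∀ i j, i < j → j < r → f (t i) < f (t j) := by
  classical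
  have hcard : (S.image f).card = S.card :=
    Finset.card_image_of_injOn (fun u hu v hv h => hinj u hu v hv h)
  have hmem : ∀ i : Fin S.card, ∃ v ∈ S, f v = (S.image f).orderEmbOfFin hcard i := by
    intro i
    have := Finset.orderEmbOfFin_mem (S.image f) hcard i
    obtain ⟨v, hv, hv'⟩ := Finset.mem_image.1 this
    exact ⟨v, hv, hv'⟩
  choose g hg hg' using hmem
  refine ⟨fun i => if h : i < S.card then g ⟨i, h⟩ else Classical.arbitrary V, ?_, ?_⟩
  · intro i hi
    simp only
    rw [dif_pos (lt_of_lt_of_le hi hr)]
    exact hg _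
  · intro i j hij hj
    simp only
    rw [dif_pos (show i < S.card by omega), dif_pos (show j < S.card by omega), hg', hg']
    exact (OrderEmbedding.lt_iff_lt _).2 hij

/-- Neighbours of a vertex that has `K` vertices of `TT` on both sides before the first vertex
of `B` also lie before the first vertex of `B`. -/
theorem nbr_in [Nonempty V] (h : NoTw G f K) (β : ℕ → V)
    (hβ : ∀ i j, i < j → j < K → f (β i) < f (β j)) (TT : Finset V)
    (hT : ∀ t ∈ TT, ∀ i < K, G.Adj t (β i))
    (hinj : ∀ u ∈ TT, ∀ v ∈ TT, f u = f v → u = v)
    {u w : V} (hadj : G.Adj u w)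
    (hL : K ≤ (TT.filter (fun t => f t < f u)).card)
    (hR : K ≤ (TT.filter (fun t => f u < f t ∧ f t < f (β 0))).card)
    (hu : f u < f (β 0))
    (hwB : ∀ i < K, f w ≠ f (β i)) (hK : 0 < K) : f w < f (β 0) := by
  by_contra hw'
  have hw : f (β 0) < f w := by
    have := hwB 0 hK
    omega
  obtain ⟨tl, htl, htl'⟩ := enum (f := f) (TT.filter (fun t => f t < f u))
    (fun u hu v hv hh => hinj u (Finset.mem_filter.1 hu).1 v (Finset.mem_filter.1 hv).1 hh) K hL
  obtain ⟨tr, htr, htr'⟩ := enum (f := f) (TT.filter (fun t => f u < f t ∧ f t < f (β 0)))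
    (fun u hu v hv hh => hinj u (Finset.mem_filter.1 hu).1 v (Finset.mem_filter.1 hv).1 hh) K hR
  simp only [Finset.mem_filter] at htl htr
  -- split point
  obtain ⟨p, hp, hp1, hp2⟩ : ∃ p ≤ K, (∀ i < p, f (β i) < f w) ∧
      ∀ i, p ≤ i → i < K → f w < f (β i) := by
    have hex : ∃ i, K ≤ i ∨ f w < f (β i) := ⟨K, Or.inl le_rfl⟩
    classical
    refine ⟨Nat.find hex, Nat.find_le (Or.inl le_rfl), ?_, ?_⟩
    · intro i hi
      have := Nat.find_min hex hi
      push Not at this
      have := hwB i this.1
      omega
    · intro i hi hiK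
      have hlt : Nat.find hex < K := by omega
      rcases Nat.find_spec hex with h1 | h1
      · omega
      · rcases Nat.eq_or_lt_of_le hi with h2 | h2
        · rw [← h2]
          exact h1
        · have := hβ _ _ h2 hiK
          omega
  have hβ0 : ∀ i < K, f (β 0) ≤ f (β i) := by
    intro i hi
    rcases Nat.eq_zero_or_pos i with h0 | h0
    · rw [h0]
    · exact (hβ 0 i h0 hi).le
  have hlen := h.list ((u, w) :: ((List.range p).map (fun i => (tl i, β i)) ++
    (List.range (K - p)).map (fun i => (tr i, β (p + i))))) (by
      intro e he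
      rw [List.mem_cons, List.mem_append, List.mem_map, List.mem_map] at he
      rcases he with rfl | ⟨i, hi, rfl⟩ | ⟨i, hi, rfl⟩
      · exact hadj
      · rw [List.mem_range] at hi
        exact hT _ (htl i (by omega)).1 _ (by omega)
      · rw [List.mem_range] at hi
        exact hT _ (htr i (by omega)).1 _ (by omega)) (by
      rw [List.pairwise_cons, List.pairwise_append]
      refine ⟨?_, ?_, ?_, ?_⟩
      · intro e he
        rw [List.mem_append, List.mem_map, List.mem_map] at he
        rcases he with ⟨i, hi, rfl⟩ | ⟨i, hi, rfl⟩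
        · rw [List.mem_range] at hi
          have h1 := htl i (by omega)
          have h2 := hp1 i hi
          have h3 := hβ0 i (by omega)
          exact (cross_of (by omega) (by omega) (by omega)).symm
        · rw [List.mem_range] at hi
          have h1 := htr i (by omega)
          have h2 := hp2 (p + i) (by omega) (by omega)
          exact cross_of (by omega) (by omega) (by omega)
      · rw [List.pairwise_map]
        refine List.Pairwise.imp_of_mem ?_ (List.pairwise_lt_range (n := p))
        intro i j hi hj hij
        rw [List.mem_range] at hi hj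
        have h1 := htl i (by omega)
        have h2 := htl j (by omega)
        have h3 := htl' i j hij (by omega)
        have h4 := hβ i j hij (by omega)
        have h5 := hβ0 i (by omega)
        exact cross_of (by omega) (by omega) (by omega)
      · rw [List.pairwise_map]
        refine List.Pairwise.imp_of_mem ?_ (List.pairwise_lt_range (n := K - p))
        intro i j hi hj hij
        rw [List.mem_range] at hi hj
        have h1 := htr i (by omega)
        have h2 := htr j (by omega)
        have h3 := htr' i j hij (by omega)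
        have h4 := hβ (p + i) (p + j) (by omega) (by omega)
        have h5 := hβ0 (p + i) (by omega)
        exact cross_of (by omega) (by omega) (by omega)
      · intro e he e' he'
        rw [List.mem_map] at he he'
        obtain ⟨i, hi, rfl⟩ := he
        obtain ⟨j, hj, rfl⟩ := he'
        rw [List.mem_range] at hi hj
        have h1 := htl i (by omega)
        have h2 := htr j (by omega)
        have h4 := hβ i (p + j) (by omega) (by omega)
        have h5 := hβ0 i (by omega)
        exact cross_of (by omega) (by omega) (by omega))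
  simp only [List.length_cons, List.length_append, List.length_map, List.length_range] at hlen
  omega

/-- pairwise crossing edges before the first vertex of `B` and the `TT`-vertices inside all of
them are together at most `K` -/
theorem mid [Nonempty V] (h : NoTw G f K) (β : ℕ → V)
    (hβ : ∀ i j, i < j → j < K → f (β i) < f (β j)) (TT : Finset V)
    (hT : ∀ t ∈ TT, ∀ i < K, G.Adj t (β i))
    (hinj : ∀ u ∈ TT, ∀ v ∈ TT, f u = f v → u = v)
    (es : List (V × V)) (hes : es ≠ []) (hadj : ∀ e ∈ es, G.Adj e.1 e.2)
    (hp : es.Pairwise (Cross f)) (S : Finset V) (hS : ∀ s ∈ S, s ∈ TT ∧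
      ∀ e ∈ es, f e.1 < f s ∧ f s < f e.2 ∧ f e.2 < f (β 0)) :
    es.length + S.card ≤ K := by
  by_contra hlt
  push Not at hlt
  have hpos : 0 < es.length := List.length_pos_iff.2 hes
  have hlen0 := h.list es hadj hp
  obtain ⟨t, ht, ht'⟩ := enum (f := f) S
    (fun u hu v hv hh => hinj u (hS u hu).1 v (hS v hv).1 hh) (K + 1 - es.length) (by omega)
  have hβ0 : ∀ i < K, f (β 0) ≤ f (β i) := by
    intro i hi
    rcases Nat.eq_zero_or_pos i with h0 | h0
    · rw [h0]
    · exact (hβ 0 i h0 hi).le
  have hlen := h.list (es ++ (List.range (K + 1 - es.length)).map (fun i => (t i, β i))) (by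
      intro e he
      rw [List.mem_append, List.mem_map] at he
      rcases he with he | ⟨i, hi, rfl⟩
      · exact hadj e he
      · rw [List.mem_range] at hi
        exact hT _ (hS _ (ht i hi)).1 _ (by omega)) (by
      rw [List.pairwise_append]
      refine ⟨hp, ?_, ?_⟩
      · rw [List.pairwise_map]
        refine List.Pairwise.imp_of_mem ?_ (List.pairwise_lt_range (n := K + 1 - es.length))
        intro i j hi hj hij
        rw [List.mem_range] at hi hj
        obtain ⟨e, he⟩ := List.exists_mem_of_ne_nil es hes
        have h1 := (hS _ (ht i hi)).2 e he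
        have h2 := (hS _ (ht j hj)).2 e he
        have h3 := ht' i j hij (by omega)
        have h4 := hβ i j hij (by omega)
        have h5 := hβ0 i (by omega)
        exact cross_of (by omega) (by omega) (by omega)
      · intro e he e' he'
        rw [List.mem_map] at he'
        obtain ⟨i, hi, rfl⟩ := he'
        rw [List.mem_range] at hi
        have h1 := (hS _ (ht i hi)).2 e he
        have h5 := hβ0 i (by omega)
        exact cross_of (by omega) (by omega) (by omega))
  simp only [List.length_append, List.length_map, List.length_range] at hlen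
  omega

end

end Pool.Agent.H68.OQP
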